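import Mathlib

/-!
# Coefficients of polynomials which are small at separated points, and moments
-/

set_option autoImplicit false

namespace Pool.Agent.V5helper42.EP

open Finset Polynomial

/-- a polynomial which is small at separated points has small coefficients -/
theorem lag (n : ℕ) (β : ℝ) (hβ : 0 < β) : ∃ C : ℝ, 0 < C ∧ ∀ p : ℝ[X], p.degree < (n : WithBot ℕ) →
    ∀ (J : Finset ℕ) (v : ℕ → ℝ), J.card = n → (∀ i ∈ J, |v i| ≤ 1) →
    (∀ i ∈ J, ∀ j ∈ J, i ≠ j → β ≤ |v i - v j|) → ∀ η : ℝ, 0 ≤ η →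
    (∀ i ∈ J, |p.eval (v i)| ≤ η) → ∀ l, |p.coeff l| ≤ C * η := by
  induction n with
  | zero =>
    refine ⟨1, one_pos, fun p hp J v _ _ _ η hη _ l => ?_⟩
    have h0 : p = 0 := by
      rw [← degree_eq_bot]
      exact Nat.WithBot.lt_zero_iff.1 hp
    rw [h0, coeff_zero, abs_zero]
    positivity
  | succ n ih =>
    obtain ⟨C, hC, h⟩ := ih
    refine ⟨1 + 2 * (C * (2 / β)), by positivity, fun p hp J v hJ hv hs η hη he l => ?_⟩
    obtain ⟨w, hw⟩ : J.Nonempty := by
      rw [← card_pos]
      omega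
    obtain ⟨q, hq⟩ : ∃ q, q = p /ₘ (X - Polynomial.C (v w)) := ⟨_, rfl⟩
    have hp1 : p = (X - Polynomial.C (v w)) * q + Polynomial.C (p.eval (v w)) := by
      have h1 := modByMonic_add_div p (X - Polynomial.C (v w))
      rw [modByMonic_X_sub_C_eq_C_eval, ← hq] at h1
      rw [add_comm]
      exact h1.symm
    have hqd : q.degree < (n : WithBot ℕ) := by
      by_cases h0 : p = 0
      · rw [hq, h0, zero_divByMonic, degree_zero]
        exact WithBot.bot_lt_coe n
      · have h1 : q.degree < p.degree := by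
          rw [hq]
          exact degree_divByMonic_lt p _ h0 (by rw [degree_X_sub_C]; exact zero_lt_one)
        have h2 : p.degree ≤ (n : WithBot ℕ) := by
          have h3 : p.degree < ((n + 1 : ℕ) : WithBot ℕ) := hp
          rw [degree_eq_natDegree h0] at h3 ⊢
          have h4 : p.natDegree < n + 1 := by exact_mod_cast h3
          exact_mod_cast Nat.lt_succ_iff.1 h4
        exact lt_of_lt_of_le h1 h2
    have hqe : ∀ i ∈ J.erase w, |q.eval (v i)| ≤ 2 / β * η := by
      intro i hi
      have hiJ := mem_of_mem_erase hi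
      have h1 := hs i hiJ w hw (ne_of_mem_erase hi)
      have h2 := congrArg (fun r => r.eval (v i)) hp1
      simp only [eval_add, eval_mul, eval_sub, eval_X, eval_C] at h2
      have h3 : (v i - v w) * q.eval (v i) = p.eval (v i) - p.eval (v w) := by linarith
      have h4 : |v i - v w| * |q.eval (v i)| ≤ 2 * η := by
        rw [← abs_mul, h3]
        have := abs_sub (p.eval (v i)) (p.eval (v w))
        linarith [he i hiJ, he w hw]
      have h5 : β * |q.eval (v i)| ≤ 2 * η :=
        (mul_le_mul_of_nonneg_right h1 (abs_nonneg _)).trans h4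
      rw [div_mul_eq_mul_div, le_div_iff₀ hβ]
      linarith
    have h1 := h q hqd (J.erase w) v (by rw [card_erase_of_mem hw]; omega)
      (fun i hi => hv i (mem_of_mem_erase hi))
      (fun i hi j hj => hs i (mem_of_mem_erase hi) j (mem_of_mem_erase hj)) (2 / β * η)
      (by positivity) hqe
    have h2 : |v w| ≤ 1 := hv w hw
    have h3 := he w hw
    have h4 : ∀ x y : ℝ, |x| ≤ C * (2 / β * η) → |y| ≤ C * (2 / β * η) + η →
        |y - v w * x| ≤ (1 + 2 * (C * (2 / β))) * η := by
      intro x y hx hy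
      have h5 : |v w * x| ≤ 1 * (C * (2 / β * η)) := by
        rw [abs_mul]
        exact mul_le_mul h2 hx (abs_nonneg _) zero_le_one
      have h6 := abs_sub y (v w * x)
      calc _ ≤ |y| + |v w * x| := h6
        _ ≤ (C * (2 / β * η) + η) + 1 * (C * (2 / β * η)) := add_le_add hy h5
        _ = _ := by ring
    cases l with
    | zero =>
      have h5 : p.coeff 0 = p.eval (v w) - v w * q.coeff 0 := by
        conv_lhs => rw [hp1]
        rw [coeff_add, coeff_C_zero, sub_mul, coeff_sub, mul_coeff_zero, coeff_X_zero, coeff_C_mul]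
        ring
      rw [h5]
      apply h4 _ _ (h1 0)
      have : 0 ≤ C * (2 / β * η) := by positivity
      linarith
    | succ l =>
      have h5 : p.coeff (l + 1) = q.coeff l - v w * q.coeff (l + 1) := by
        conv_lhs => rw [hp1]
        rw [coeff_add, coeff_C_succ, sub_mul, coeff_sub, coeff_X_mul, coeff_C_mul]
        ring
      rw [h5]
      apply h4 _ _ (h1 (l + 1))
      linarith [h1 l]

/-- power moments determine the coefficients -/
theorem moments {k : ℕ} (d : Fin k → ℝ) (hd : Function.Injective d) (hd0 : ∀ j, d j ≠ 0) :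
    ∃ C : ℝ, 0 < C ∧ ∀ (t : Fin k → ℝ) (M : ℝ), 0 ≤ M →
      (∀ i ∈ Icc 1 k, |∑ j, t j * d j ^ i| ≤ M) → ∀ j, |t j| ≤ C * M := by
  classical
  -- interpolating polynomials
  have hpoly : ∀ j : Fin k, ∃ p : ℝ[X], p.natDegree ≤ k ∧ p.eval 0 = 0 ∧ p.eval (d j) = 1 ∧
      ∀ l, l ≠ j → p.eval (d l) = 0 := by
    intro j
    obtain ⟨r, hr⟩ : ∃ r : ℝ[X], r = X * ∏ l ∈ univ.erase j, (X - C (d l)) := ⟨_, rfl⟩
    have hrj : r.eval (d j) ≠ 0 := by
      rw [hr, eval_mul, eval_X, eval_prod]
      apply mul_ne_zero (hd0 j)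
      rw [prod_ne_zero_iff]
      intro l hl
      rw [eval_sub, eval_X, eval_C]
      intro h
      exact ne_of_mem_erase hl (hd (by linarith)).symm.symm
    refine ⟨C (r.eval (d j))⁻¹ * r, ?_, ?_, ?_, ?_⟩
    · refine (natDegree_C_mul_le _ _).trans ?_
      rw [hr]
      refine natDegree_mul_le.trans ?_
      have h1 : (∏ l ∈ univ.erase j, (X - C (d l))).natDegree ≤ k - 1 := by
        refine (natDegree_prod_le _ _).trans ?_
        refine (sum_le_card_nsmul _ _ 1 fun l _ => ?_).trans ?_
        · exact natDegree_X_sub_C_le _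
        · rw [card_erase_of_mem (mem_univ j), card_univ, Fintype.card_fin]
          simp
      have h2 : (X : ℝ[X]).natDegree ≤ 1 := natDegree_X_le
      have : 1 ≤ k := j.pos
      omega
    · rw [eval_mul]
      have : r.eval 0 = 0 := by rw [hr, eval_mul, eval_X, zero_mul]
      rw [this, mul_zero]
    · rw [eval_mul, eval_C, inv_mul_cancel₀ hrj]
    · intro l hl
      rw [eval_mul]
      have : r.eval (d l) = 0 := by
        rw [hr, eval_mul, eval_prod]
        have h1 : ∏ x ∈ univ.erase j, eval (d l) (X - C (d x)) = 0 := by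
          apply prod_eq_zero (mem_erase.2 ⟨hl, mem_univ l⟩)
          simp
        rw [h1, mul_zero]
      rw [this, mul_zero]
  choose p hp1 hp2 hp3 hp4 using hpoly
  refine ⟨1 + ∑ j, ∑ i ∈ Icc 1 k, |(p j).coeff i|, by positivity, fun t M hM h j => ?_⟩
  have h1 : t j = ∑ l, t l * (p j).eval (d l) := by
    rw [← Finset.sum_subset (subset_univ {j})]
    · rw [sum_singleton, hp3, mul_one]
    · intro l _ hl
      rw [mem_singleton] at hl
      rw [hp4 j l hl, mul_zero]
  have h2 : ∀ l, (p j).eval (d l) = ∑ i ∈ Icc 1 k, (p j).coeff i * d l ^ i := by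
    intro l
    rw [eval_eq_sum_range' (lt_of_le_of_lt (hp1 j) (Nat.lt_succ_self k)), sum_range_succ']
    have h3 : (p j).coeff 0 = 0 := by
      rw [coeff_zero_eq_eval_zero]
      exact hp2 j
    rw [h3, zero_mul, add_zero, Finset.range_eq_Ico]
    rw [Finset.sum_Ico_add' (fun i => (p j).coeff i * d l ^ i) 0 k 1]
    apply sum_congr _ fun _ _ => rfl
    ext i
    simp only [mem_Ico, mem_Icc]
    omega
  have h3 : t j = ∑ i ∈ Icc 1 k, (p j).coeff i * ∑ l, t l * d l ^ i := by
    rw [h1]
    simp only [h2, mul_sum]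
    rw [sum_comm]
    apply sum_congr rfl
    intro i _
    apply sum_congr rfl
    intro l _
    ring
  rw [h3]
  refine (abs_sum_le_sum_abs _ _).trans ?_
  calc ∑ i ∈ Icc 1 k, |(p j).coeff i * ∑ l, t l * d l ^ i|
      ≤ ∑ i ∈ Icc 1 k, |(p j).coeff i| * M := by
        apply sum_le_sum
        intro i hi
        rw [abs_mul]
        exact mul_le_mul_of_nonneg_left (h i hi) (abs_nonneg _)
    _ = (∑ i ∈ Icc 1 k, |(p j).coeff i|) * M := by rw [sum_mul]
    _ ≤ (1 + ∑ j, ∑ i ∈ Icc 1 k, |(p j).coeff i|) * M := by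
        apply mul_le_mul_of_nonneg_right _ hM
        have := single_le_sum (f := fun j => ∑ i ∈ Icc 1 k, |(p j).coeff i|)
          (fun j _ => sum_nonneg fun _ _ => abs_nonneg _) (mem_univ j)
        linarith

end Pool.Agent.V5helper42.EP
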