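import Pool.Agent.N542.PP.Block
import Pool.Agent.V5helper42.EP.Lag

/-!
# Exponential sums with phases which are polynomials in `1 / n`: one block
-/

set_option autoImplicit false

namespace Pool.Agent.V5helper42.EP

open Finset
open Pool.Agent.H469R2.NK (e norm_e e_add conj_e norm_sum_neg)
open Pool.Agent.N542.PP (Ph block)

/-- the estimate for a block, without a condition on the signs -/
theorem block' (Q : ℕ) (hQ : 1 ≤ Q) (c₁ c₂ : ℝ) (hc₁ : 0 < c₁) (hc₂ : c₁ ≤ c₂) :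
    ∃ η : ℝ, 0 < η ∧ η ≤ 1 ∧ ∃ C : ℝ, 1 ≤ C ∧ ∀ (N L : ℕ) (u F : ℝ) (s : ℕ → ℝ)
      (φ : ℕ → ℝ → ℝ), 1 ≤ N → L ≤ N → 0 < F → F ≤ (N : ℝ) ^ Q →
      (∀ m, s m = 1 ∨ s m = -1) → Ph Q u (u + L) c₁ c₂ F N s φ →
      ‖∑ n ∈ range L, e (φ 0 (u + n))‖ ≤ C * (N / F + (N : ℝ) ^ (1 - η)) := by
  obtain ⟨η, hη0, hη1, C, hC, h⟩ := block Q hQ c₁ c₂ hc₁ hc₂
  refine ⟨η, hη0, hη1, C + 1, by linarith, ?_⟩
  intro N L u F s φ hN hL hF0 hFQ hs hP
  have hN' : (1 : ℝ) ≤ N := by exact_mod_cast hN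
  have hp : 0 < (N : ℝ) / F := by positivity
  have hq : (1 : ℝ) ≤ (N : ℝ) ^ (1 - η) := Real.one_le_rpow hN' (by linarith)
  by_cases hsQ : s (Q + 2) = -s (Q + 1)
  · refine (h N L u F s φ hN hL hF0 hFQ hs hsQ hP).trans ?_
    nlinarith
  have hsQ' : s (Q + 2) = s (Q + 1) := by
    rcases hs (Q + 2) with h1 | h1 <;> rcases hs (Q + 1) with h2 | h2
    · rw [h1, h2]
    · exact absurd (by rw [h1, h2]; norm_num) hsQ
    · exact absurd (by rw [h1, h2]) hsQ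
    · rw [h1, h2]
  rcases Nat.eq_zero_or_pos L with rfl | hLp
  · simp only [range_zero, sum_empty, norm_zero]
    positivity
  obtain ⟨K, rfl⟩ : ∃ K, L = K + 1 := ⟨L - 1, by omega⟩
  rw [sum_range_succ', ← sum_range_reflect]
  set v : ℝ := -(u + K) with hv
  set ψ : ℕ → ℝ → ℝ := fun m t => (-1) ^ m * φ m (-t) with hψ
  have hmem : ∀ t ∈ Set.Icc v (v + K), -t ∈ Set.Icc u (u + ((K + 1 : ℕ) : ℝ)) := by
    intro t ht
    push_cast
    constructor
    · linarith [ht.2]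
    · linarith [ht.1]
  have hsq : ∀ m : ℕ, ((-1 : ℝ) ^ m) * (-1) ^ m = 1 := by
    intro m
    rw [← mul_pow]
    norm_num
  have hH : Ph Q v (v + K) c₁ c₂ F N (fun m => (-1) ^ m * s m) ψ := by
    constructor
    · intro m hm t ht
      have h4 := (hP.der m hm (-t) (hmem t ht)).comp t (hasDerivAt_neg t)
      have h5 := h4.const_mul ((-1 : ℝ) ^ m)
      simp only [hψ]
      refine h5.congr_deriv ?_
      rw [pow_succ ((-1 : ℝ)) m]
      ring
    · intro m h1 h2 t ht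
      have h3 := hP.bd m h1 h2 (-t) (hmem t ht)
      have h4 : (-1 : ℝ) ^ m * s m * ψ m t = s m * φ m (-t) := by
        simp only [hψ]
        calc (-1 : ℝ) ^ m * s m * ((-1) ^ m * φ m (-t)) =
            ((-1 : ℝ) ^ m * (-1) ^ m) * (s m * φ m (-t)) := by ring
          _ = _ := by rw [hsq, one_mul]
      show c₁ * F / (N : ℝ) ^ m ≤ (-1 : ℝ) ^ m * s m * ψ m t ∧
        (-1 : ℝ) ^ m * s m * ψ m t ≤ c₂ * F / (N : ℝ) ^ m
      rw [h4]
      exact h3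
  have h4 := h N K v F (fun m => (-1) ^ m * s m) ψ hN (by omega) hF0 hFQ (by
    intro m
    rcases neg_one_pow_eq_or ℝ m with h5 | h5 <;> rcases hs m with h6 | h6 <;>
      simp [h5, h6]) (by
    show (-1 : ℝ) ^ (Q + 2) * s (Q + 2) = -((-1 : ℝ) ^ (Q + 1) * s (Q + 1))
    rw [hsQ', pow_succ (-1 : ℝ) (Q + 1)]
    ring) hH
  have h5 : ∑ j ∈ range K, e (φ 0 (u + ((K - 1 - j + 1 : ℕ) : ℝ))) =
      ∑ n ∈ range K, e (ψ 0 (v + n)) := by
    refine sum_congr rfl fun n hn => ?_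
    rw [mem_range] at hn
    congr 1
    simp only [hψ]
    have h6 : ((K - 1 - n + 1 : ℕ) : ℝ) = K - n := by
      rw [show K - 1 - n + 1 = K - n by omega, Nat.cast_sub hn.le]
    rw [h6, show -(v + (n : ℝ)) = u + (K - n) by rw [hv]; ring]
    ring
  rw [h5]
  refine (norm_add_le _ _).trans ?_
  rw [norm_e]
  nlinarith

/-- the derivatives of the phase `∑ a i v ^ (-i)` -/
noncomputable def psi (a : ℕ → ℝ) (I m : ℕ) (v : ℝ) : ℝ :=
  (-1) ^ m * ∑ i ∈ Icc 1 I, a i * (i.ascFactorial m : ℝ) * (v⁻¹) ^ (i + m)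

theorem psi_deriv (a : ℕ → ℝ) (I m : ℕ) {v : ℝ} (hv : v ≠ 0) :
    HasDerivAt (psi a I m) (psi a I (m + 1) v) v := by
  unfold psi
  have h1 : ∀ i ∈ Icc 1 I, HasDerivAt (fun v : ℝ => a i * (i.ascFactorial m : ℝ) * (v⁻¹) ^ (i + m))
      (-(a i * (i.ascFactorial (m + 1) : ℝ) * (v⁻¹) ^ (i + (m + 1)))) v := by
    intro i hi
    rw [mem_Icc] at hi
    have h2 := ((hasDerivAt_inv hv).pow (i + m)).const_mul (a i * (i.ascFactorial m : ℝ))
    refine h2.congr_deriv ?_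
    rw [Nat.ascFactorial_succ]
    obtain ⟨j, hj⟩ : ∃ j, i + m = j + 1 := ⟨i + m - 1, by omega⟩
    rw [show i + (m + 1) = j + 1 + 1 by omega, hj, Nat.add_sub_cancel]
    push_cast
    rw [pow_succ (v⁻¹) (j + 1), pow_succ (v⁻¹) j]
    field_simp
  have h2 := (HasDerivAt.fun_sum h1).const_mul ((-1 : ℝ) ^ m)
  refine h2.congr_deriv ?_
  rw [sum_neg_distrib, pow_succ]
  ring

open Polynomial in
/-- the polynomials -/
noncomputable def RR (a : ℕ → ℝ) (I m : ℕ) : ℝ[X] :=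
  ∑ i ∈ Icc 1 I, Polynomial.C (a i * (i.ascFactorial m : ℝ)) * Polynomial.X ^ (I - i)

theorem RR_eval (a : ℕ → ℝ) (I m : ℕ) {v : ℝ} (hv : v ≠ 0) :
    (RR a I m).eval v = (-1) ^ m * psi a I m v * v ^ (I + m) := by
  unfold RR psi
  rw [Polynomial.eval_finsetSum, ← mul_assoc, ← mul_pow, neg_one_mul, neg_neg, one_pow, one_mul,
    sum_mul]
  apply sum_congr rfl
  intro i hi
  rw [mem_Icc] at hi
  simp only [Polynomial.eval_mul, Polynomial.eval_C, Polynomial.eval_pow, Polynomial.eval_X]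
  rw [mul_assoc (a i * (i.ascFactorial m : ℝ))]
  congr 1
  have h1 : v ^ (I + m) = v ^ (i + m) * v ^ (I - i) := by
    rw [← pow_add]
    congr 1
    omega
  rw [h1, ← mul_assoc, ← mul_pow, inv_mul_cancel₀ hv, one_pow, one_mul]

theorem RR_degree (a : ℕ → ℝ) (I m : ℕ) : (RR a I m).degree < (I : WithBot ℕ) := by
  unfold RR
  rw [← Polynomial.mem_degreeLT]
  apply Submodule.sum_mem
  intro i hi
  rw [mem_Icc] at hi
  rw [Polynomial.mem_degreeLT]
  refine lt_of_le_of_lt (Polynomial.degree_C_mul_X_pow_le _ _) ?_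
  exact_mod_cast (by omega : I - i < I)

theorem RR_coeff (a : ℕ → ℝ) (I m : ℕ) {i : ℕ} (hi : i ∈ Icc 1 I) :
    (RR a I m).coeff (I - i) = a i * (i.ascFactorial m : ℝ) := by
  unfold RR
  rw [Polynomial.finsetSum_coeff, Finset.sum_eq_single_of_mem i hi]
  · rw [Polynomial.coeff_C_mul, Polynomial.coeff_X_pow, if_pos rfl, mul_one]
  · intro j hj hji
    rw [mem_Icc] at hi hj
    rw [Polynomial.coeff_C_mul, Polynomial.coeff_X_pow, if_neg (by omega), mul_zero]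

theorem psi_ge (a : ℕ → ℝ) (I m : ℕ) {v : ℝ} (hv : 0 < v) (hv1 : v ≤ 1) :
    |(RR a I m).eval v| ≤ |psi a I m v| := by
  rw [RR_eval a I m hv.ne', abs_mul, abs_mul, abs_pow, abs_neg, abs_one, one_pow, one_mul]
  have h1 : |v ^ (I + m)| ≤ 1 := by
    rw [abs_of_pos (by positivity)]
    exact pow_le_one₀ hv.le hv1
  calc |psi a I m v| * |v ^ (I + m)| ≤ |psi a I m v| * 1 :=
        mul_le_mul_of_nonneg_left h1 (abs_nonneg _)
    _ = _ := mul_one _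

theorem psi_le (a : ℕ → ℝ) (I m : ℕ) {H δ v : ℝ} (hδ : 0 < δ) (hδ1 : δ ≤ 1) (hv : δ ≤ v)
    (ha : ∀ i ∈ Icc 1 I, |a i| ≤ H) :
    |psi a I m v| ≤ H * (∑ i ∈ Icc 1 I, (i.ascFactorial m : ℝ)) * (δ⁻¹) ^ (I + m) := by
  unfold psi
  have hv0 : 0 < v := by linarith
  rw [abs_mul, abs_pow, abs_neg, abs_one, one_pow, one_mul]
  refine (abs_sum_le_sum_abs _ _).trans ?_
  rw [mul_sum, sum_mul]
  apply sum_le_sum
  intro i hi
  rw [abs_mul, abs_mul]
  have h1 := ha i hi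
  rw [mem_Icc] at hi
  have h2 : |(i.ascFactorial m : ℝ)| = (i.ascFactorial m : ℝ) := abs_of_nonneg (Nat.cast_nonneg _)
  have h3 : |(v⁻¹) ^ (i + m)| ≤ (δ⁻¹) ^ (I + m) := by
    rw [abs_of_pos (by positivity)]
    calc (v⁻¹) ^ (i + m) ≤ (δ⁻¹) ^ (i + m) := by
          gcongr
      _ ≤ (δ⁻¹) ^ (I + m) := by
          apply pow_le_pow_right₀
          · rw [one_le_inv₀ hδ]
            exact hδ1
          · omega
  rw [h2]
  have h4 : 0 ≤ |a i| * (i.ascFactorial m : ℝ) := by positivity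
  have h5 : |a i| * (i.ascFactorial m : ℝ) ≤ H * (i.ascFactorial m : ℝ) :=
    mul_le_mul_of_nonneg_right h1 (Nat.cast_nonneg _)
  exact mul_le_mul h5 h3 (abs_nonneg _) (h4.trans h5)

end Pool.Agent.V5helper42.EP
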