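import Pool.Agent.V5helper42.EP.HalD

/-!
# Halasz's theorem at one scale in residue classes, for multiplicative functions: conclusion
-/

set_option autoImplicit false

namespace Pool.Agent.V5helper42.EP

open Finset
open Pool.Agent.Y122.LT (CMC)
open Pool.Agent.Y868.VR

lemma dist2_congr {a b : ℕ → ℂ} (h : ∀ p : ℕ, p.Prime → a p = b p) (N : ℕ) (y : ℝ) :
    dist2 a N y = dist2 b N y := by
  unfold dist2
  apply sum_congr rfl
  intro p hp
  rw [mem_filter] at hp
  unfold gg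
  rw [h p hp.2]

lemma far_congr {a b : ℕ → ℂ} (h : ∀ p : ℕ, p.Prime → a p = b p) {q N : ℕ} {B M : ℝ}
    (hF : Far a q N B M) : Far b q N B M := by
  intro q' h1 h2 χ y hy
  have h3 := hF q' h1 h2 χ y hy
  rwa [dist2_congr (b := fun n => b n * χ (n : ZMod q')) (fun p hp => by
    simp only [h p hp])] at h3

lemma far_down {a : ℕ → ℂ} (ha : ∀ n, ‖a n‖ ≤ 1) {δ : ℝ} (hδ : 0 < δ) {M' N q : ℕ} {B M : ℝ}
    (hM : 1 ≤ M') (hMN : M' ≤ N) (h : δ * N ≤ M') (hF : Far a q N B (M + 2 / δ)) :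
    Far a q M' B M := by
  intro q' h1 h2 χ y hy
  have h3 := hF q' h1 h2 χ y hy
  have h4 := dist2_down (a := fun n => a n * χ (n : ZMod q')) (fun n => by
    rw [norm_mul]
    have h5 := DirichletCharacter.norm_le_one χ (n : ZMod q')
    calc ‖a n‖ * ‖χ (n : ZMod q')‖ ≤ 1 * 1 := mul_le_mul (ha n) h5 (norm_nonneg _) zero_le_one
      _ = 1 := one_mul 1) hδ hM hMN h y
  linarith

lemma split_classes (a : ℕ → ℂ) (q d c N : ℕ) (hq : 1 ≤ q) :
    ∑ m ∈ (Ioc 0 N).filter (fun m => d * m ≡ c [MOD q]), a m =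
      ∑ r ∈ (range q).filter (fun r => d * r ≡ c [MOD q]),
        ∑ m ∈ (Ioc 0 N).filter (fun m => m ≡ r [MOD q]), a m := by
  have h1 : ∀ m ∈ (Ioc 0 N).filter (fun m => d * m ≡ c [MOD q]), m % q ∈
      (range q).filter (fun r => d * r ≡ c [MOD q]) := by
    intro m hm
    rw [mem_filter] at hm
    rw [mem_filter, mem_range]
    refine ⟨Nat.mod_lt _ (by omega), ?_⟩
    exact ((Nat.mod_modEq m q).mul_left d).trans hm.2
  rw [← sum_fiberwise_of_maps_to h1]
  apply sum_congr rfl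
  intro r hr
  rw [mem_filter, mem_range] at hr
  apply sum_congr _ fun _ _ => rfl
  ext m
  simp only [mem_filter]
  constructor
  · rintro ⟨⟨h2, h3⟩, h4⟩
    refine ⟨h2, ?_⟩
    unfold Nat.ModEq
    rw [h4, Nat.mod_eq_of_lt hr.1]
  · rintro ⟨h2, h3⟩
    refine ⟨⟨h2, (h3.mul_left d).trans hr.2⟩, ?_⟩
    unfold Nat.ModEq at h3
    rw [h3, Nat.mod_eq_of_lt hr.1]

/-- Halasz's theorem at one scale, in residue classes, uniformly over all bounded multiplicative
functions -/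
theorem mult_class (q : ℕ) (hq : 1 ≤ q) (ε : ℝ) (hε : 0 < ε) : ∃ B M : ℝ, ∃ N₀ : ℕ, 1 ≤ N₀ ∧
    ∀ g : ArithmeticFunction ℂ, MB g → ∀ N : ℕ, N₀ ≤ N → Far g q N B M → ∀ N' : ℕ, N' ≤ N →
      ∀ c : ℕ, ‖∑ n ∈ (Ioc 0 N').filter (fun n => n ≡ c [MOD q]), g n‖ ≤ ε * N := by
  obtain ⟨C, hC, hCt⟩ := VV_total
  obtain ⟨D, hD⟩ := VV_tail (ε / 2) (by linarith)
  have hqr : (0 : ℝ) < q := by exact_mod_cast hq
  obtain ⟨B, M, N₀, hN₀, h⟩ := cm_class (ε / (2 * q * C)) (by positivity)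
  set δ : ℝ := 1 / (2 * (D + 1)) with hδ
  have hD0 : (0 : ℝ) ≤ D := Nat.cast_nonneg D
  have hδ0 : 0 < δ := by rw [hδ]; positivity
  refine ⟨B, M + 2 / δ, (N₀ + 1) * (D + 1), Nat.mul_pos (by omega) (by omega),
    fun g hg N hN hF N' hN' c => ?_⟩
  have ha := cm_cma (b := g) hg.bdd
  have hc : CMC (cm g) := ⟨by simp, ha.one, ha.mul, ha.bdd⟩
  have hFa : Far (cm g) q N B (M + 2 / δ) := far_congr (fun p hp => (cm_prime g hp).symm) hF
  have hN'r : (N' : ℝ) ≤ N := by exact_mod_cast hN'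
  -- the inner sums
  have hin : ∀ d ∈ Ioc 0 N', ‖∑ m ∈ (Ioc 0 (N' / d)).filter (fun m => d * m ≡ c [MOD q]), cm g m‖ ≤
      if d ≤ D then ε / (2 * C) * (N / d) else N / d := by
    intro d hd
    rw [mem_Ioc] at hd
    have hd0 : (0 : ℝ) < d := by exact_mod_cast hd.1
    split_ifs with hdD
    · rw [split_classes _ _ _ _ _ hq]
      refine (norm_sum_le _ _).trans ?_
      have hNd1 : N₀ + 1 ≤ N / d := by
        rw [Nat.le_div_iff_mul_le hd.1]
        calc (N₀ + 1) * d ≤ (N₀ + 1) * (D + 1) := Nat.mul_le_mul_left _ (by omega)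
          _ ≤ N := hN
      have hNd2 : δ * N ≤ ((N / d : ℕ) : ℝ) := by
        have h1 : N < (N / d + 1) * d := by
          have := Nat.lt_div_mul_add (a := N) (b := d) hd.1
          rw [add_mul, one_mul]
          exact this
        have h2 : (N : ℝ) < (((N / d : ℕ) : ℝ) + 1) * d := by exact_mod_cast h1
        have h3 : (1 : ℝ) ≤ ((N / d : ℕ) : ℝ) := by exact_mod_cast (by omega : 1 ≤ N / d)
        have h4 : (d : ℝ) ≤ D := by exact_mod_cast hdD
        rw [hδ, div_mul_eq_mul_div, one_mul, div_le_iff₀ (by positivity)]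
        nlinarith
      have hFd := far_down ha.bdd hδ0 (by omega : 1 ≤ N / d) (Nat.div_le_self _ _) hNd2 hFa
      have h5 : ∀ r ∈ (range q).filter (fun r => d * r ≡ c [MOD q]),
          ‖∑ m ∈ (Ioc 0 (N' / d)).filter (fun m => m ≡ r [MOD q]), cm g m‖ ≤
            ε / (2 * q * C) * (N / d) := by
        intro r _
        have h6 := h q hq _ hc (N / d) (by omega) hFd (N' / d) (Nat.div_le_div_right hN') r
        refine h6.trans ?_
        have h7 : ((N / d : ℕ) : ℝ) ≤ N / d := Nat.cast_div_le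
        gcongr
      refine (sum_le_card_nsmul _ _ _ h5).trans ?_
      rw [nsmul_eq_mul]
      have h6 : (((range q).filter (fun r => d * r ≡ c [MOD q])).card : ℝ) ≤ q := by
        have : ((range q).filter (fun r => d * r ≡ c [MOD q])).card ≤ q := by
          refine (card_filter_le _ _).trans ?_
          rw [card_range]
        exact_mod_cast this
      calc _ ≤ (q : ℝ) * (ε / (2 * q * C) * (N / d)) := by
            apply mul_le_mul_of_nonneg_right h6
            positivity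
        _ = ε / (2 * C) * (N / d) := by field_simp
    · refine (sum_le_card ha.bdd (N' / d) _).trans ?_
      refine (Nat.cast_div_le).trans ?_
      gcongr
  -- the sum
  have hrepr : g = Pool.Agent.Y868.VR.quo g (cm g) * cm g := (quo_mul ha).symm
  have h1 : ∑ n ∈ (Ioc 0 N').filter (fun n => n ≡ c [MOD q]), g n =
      ∑ d ∈ Ioc 0 N', Pool.Agent.Y868.VR.quo g (cm g) d *
        ∑ m ∈ (Ioc 0 (N' / d)).filter (fun m => d * m ≡ c [MOD q]), cm g m := by
    rw [← conv_filter (Pool.Agent.Y868.VR.quo g (cm g)) (cm g) N' (fun n => n ≡ c [MOD q]), ← hrepr]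
  rw [h1]
  refine (norm_sum_le _ _).trans ?_
  have h2 : ∀ d ∈ Ioc 0 N', ‖Pool.Agent.Y868.VR.quo g (cm g) d *
        ∑ m ∈ (Ioc 0 (N' / d)).filter (fun m => d * m ≡ c [MOD q]), cm g m‖ ≤
      (if d ≤ D then ε / (2 * C) * N * (VV d / d) else 0) +
      (if d ≤ D then 0 else N * (VV d / d)) := by
    intro d hd
    rw [norm_mul]
    have h3 := hin d hd
    have h4 := quo_le hg d (by rw [mem_Ioc] at hd; omega)
    have h5 := mul_le_mul h4 h3 (norm_nonneg _) (VV_nonneg d)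
    refine h5.trans (le_of_eq ?_)
    split_ifs <;> ring
  refine (sum_le_sum h2).trans ?_
  rw [sum_add_distrib, ← sum_filter, sum_ite, sum_const_zero, zero_add, ← mul_sum, ← mul_sum]
  have h6 := hCt ((Ioc 0 N').filter (fun d => d ≤ D)) (fun n hn => by
    rw [mem_filter, mem_Ioc] at hn
    exact hn.1.1)
  have h7 := hD ((Ioc 0 N').filter (fun d => ¬ d ≤ D)) (fun n hn => by
    rw [mem_filter] at hn
    omega)
  have hN0 : (0 : ℝ) ≤ N := Nat.cast_nonneg N
  calc _ ≤ ε / (2 * C) * N * C + N * (ε / 2) := by gcongr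
    _ = ε * N := by field_simp; ring

end Pool.Agent.V5helper42.EP
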