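import Pool.Agent.V5helper42.EP.Pair
import Pool.Agent.V5helper42.EP.HalE

/-!
# The case of bounded moments: Halasz's theorem
-/

set_option autoImplicit false

namespace Pool.Agent.V5helper42.EP

open Finset
open Pool.Agent.W208.TL (nit lf)
open Pool.Agent.Y868.VR (MB)

/-- the phase without its logarithmic part -/
noncomputable def Th {k : ℕ} (a : Fin k → ℤ) (t : Fin k → ℝ) (I n : ℕ) : ℝ :=
  ∑ i ∈ Icc 1 I, (-1) ^ (i + 1) / (i : ℝ) * mom a t i * (1 / (n : ℝ)) ^ i

/-- it varies slowly when the moments are bounded -/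
lemma Th_diff {k : ℕ} (a : Fin k → ℤ) (t : Fin k → ℝ) (I : ℕ) {N n u : ℕ} {K δ β : ℝ} (hK : 0 ≤ K)
    (hδ : 0 < δ) (hδ1 : δ ≤ 1) (hβ : 0 ≤ β) (hN : 1 ≤ N)
    (hmom : ∀ i ∈ Icc 1 I, |mom a t i| ≤ K * (N : ℝ) ^ i) (hu : δ * N ≤ u) (hun : u ≤ n)
    (hn : (n : ℝ) ≤ u + β * N) : |Th a t I n - Th a t I u| ≤ K * I * (δ⁻¹) ^ (I + 1) * β := by
  have hNr : (0 : ℝ) < N := by exact_mod_cast hN
  have hu0 : (0 : ℝ) < u := lt_of_lt_of_le (by positivity) hu
  have hunr : (u : ℝ) ≤ n := by exact_mod_cast hun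
  have hn0 : (0 : ℝ) < n := by linarith
  have hδi : 1 ≤ δ⁻¹ := by
    rw [one_le_inv₀ hδ]
    exact hδ1
  unfold Th
  rw [← sum_sub_distrib]
  refine (abs_sum_le_sum_abs _ _).trans ?_
  have h1 : ∀ i ∈ Icc 1 I, |(-1) ^ (i + 1) / (i : ℝ) * mom a t i * (1 / (n : ℝ)) ^ i -
      (-1) ^ (i + 1) / (i : ℝ) * mom a t i * (1 / (u : ℝ)) ^ i| ≤ K * (δ⁻¹) ^ (I + 1) * β := by
    intro i hi
    have hm := hmom i hi
    rw [mem_Icc] at hi
    have hir : (0 : ℝ) < i := by exact_mod_cast hi.1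
    rw [← mul_sub, abs_mul, abs_mul, abs_div, abs_pow, abs_neg, abs_one, one_pow, abs_of_pos hir]
    have h2 : |(1 / (n : ℝ)) ^ i - (1 / (u : ℝ)) ^ i| ≤
        (β * N / (u * n)) * i * (1 / (δ * N)) ^ (i - 1) := by
      have h3 := abs_pow_sub_pow_le (1 / (n : ℝ)) (1 / (u : ℝ)) i
      refine h3.trans ?_
      have h4 : |1 / (n : ℝ) - 1 / (u : ℝ)| ≤ β * N / (u * n) := by
        have h5 : 1 / (n : ℝ) - 1 / (u : ℝ) = -((n - u) / (u * n)) := by
          field_simp
          ring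
        rw [h5, abs_neg, abs_of_nonneg (div_nonneg (by linarith) (by positivity))]
        apply div_le_div_of_nonneg_right _ (by positivity)
        linarith
      have h5 : max |1 / (n : ℝ)| |1 / (u : ℝ)| ≤ 1 / (δ * N) := by
        apply max_le
        · rw [abs_of_pos (by positivity)]
          apply one_div_le_one_div_of_le (by positivity)
          linarith
        · rw [abs_of_pos (by positivity)]
          apply one_div_le_one_div_of_le (by positivity) hu
      have h6 : 0 ≤ max |1 / (n : ℝ)| |1 / (u : ℝ)| := le_max_of_le_left (abs_nonneg _)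
      gcongr
    have h3 : β * N / (u * n) ≤ β * N * (1 / (δ * N)) ^ 2 := by
      rw [div_eq_mul_one_div]
      apply mul_le_mul_of_nonneg_left _ (by positivity)
      rw [one_div_pow]
      apply one_div_le_one_div_of_le (by positivity)
      rw [pow_two]
      exact mul_le_mul hu (hu.trans hunr) (by positivity) hu0.le
    have h4 : (1 / (i : ℝ)) * (K * (N : ℝ) ^ i) * ((β * N * (1 / (δ * N)) ^ 2) * i *
        (1 / (δ * N)) ^ (i - 1)) = K * β * (δ⁻¹) ^ (i + 1) := by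
      obtain ⟨j, rfl⟩ : ∃ j, i = j + 1 := ⟨i - 1, by omega⟩
      rw [Nat.add_sub_cancel, one_div_pow, one_div_pow, inv_pow, mul_pow, mul_pow]
      push_cast
      field_simp
      ring
    calc _ ≤ (1 / (i : ℝ)) * (K * (N : ℝ) ^ i) * ((β * N * (1 / (δ * N)) ^ 2) * i *
        (1 / (δ * N)) ^ (i - 1)) := by
          have h5 := h2.trans (mul_le_mul_of_nonneg_right (mul_le_mul_of_nonneg_right h3 hir.le)
            (by positivity : (0 : ℝ) ≤ (1 / (δ * N)) ^ (i - 1)))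
          have h6 : (1 / (i : ℝ)) * |mom a t i| ≤ (1 / (i : ℝ)) * (K * (N : ℝ) ^ i) := by gcongr
          exact mul_le_mul h6 h5 (abs_nonneg _) (by positivity)
      _ = K * β * (δ⁻¹) ^ (i + 1) := h4
      _ ≤ K * β * (δ⁻¹) ^ (I + 1) := by
          apply mul_le_mul_of_nonneg_left _ (by positivity)
          exact pow_le_pow_right₀ hδi (by omega)
      _ = _ := by ring
  refine (sum_le_card_nsmul _ _ _ h1).trans (le_of_eq ?_)
  rw [nsmul_eq_mul, Nat.card_Icc, Nat.add_sub_cancel]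
  ring

/-- expansion of the phase -/
lemma ph_Th {k : ℕ} (I : ℕ) (a : Fin k → ℤ) (t : Fin k → ℝ) {B n : ℕ} {T : ℝ}
    (hB : ∀ j, (a j).natAbs ≤ B) (hn : 2 * B ≤ n) (hn0 : 1 ≤ n) (hT : ∀ j, |t j| ≤ T) :
    |ph a t n - ((∑ j, t j) * Real.log n + Th a t I n)| ≤ k * T * (2 * ((B : ℝ) / n) ^ (I + 1)) := by
  have h1 := ph_exp I a t (r := 1) hB le_rfl hn hn0 hT
  rw [one_mul] at h1
  refine le_trans (le_of_eq ?_) h1
  congr 2
  unfold Th
  simp

/-- the twisted function -/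
noncomputable def gt (g : ArithmeticFunction ℂ) (T : ℝ) : ArithmeticFunction ℂ :=
  ⟨fun n => g n * nit T n, by simp⟩

lemma gt_apply (g : ArithmeticFunction ℂ) (T : ℝ) (n : ℕ) : gt g T n = g n * nit T n := rfl

lemma gt_MB {g : ArithmeticFunction ℂ} (hg : MB g) (T : ℝ) : MB (gt g T) := by
  constructor
  · rw [ArithmeticFunction.IsMultiplicative.iff_ne_zero]
    constructor
    · rw [gt_apply, hg.mult.map_one, Pool.Agent.W690.TL.nit_one, one_mul]
    · intro m n _ _ hmn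
      rw [gt_apply, gt_apply, gt_apply, hg.mult.map_mul_of_coprime hmn,
        Pool.Agent.W690.TL.nit_mul T hmn]
      ring
  · intro n
    rw [gt_apply, norm_mul, Pool.Agent.W690.TL.norm_nit, mul_one]
    exact hg.bdd n

/-- sums of a periodic function times a function with small sums in residue classes -/
lemma per_sum {G ρ : ℕ → ℂ} {D : ℕ} (hD : 1 ≤ D) (hρ : ∀ n, ‖ρ n‖ ≤ 1) (hper : ∀ n, ρ (n + D) = ρ n)
    {u w : ℕ} (huw : u ≤ w) {κ : ℝ}
    (hG : ∀ r, ∀ v, v ≤ w → ‖∑ n ∈ (Ioc 0 v).filter (fun n => n ≡ r [MOD D]), G n‖ ≤ κ) :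
    ‖∑ n ∈ Ioc u w, G n * ρ n‖ ≤ D * (2 * κ) := by
  have h1 : ∀ n ∈ Ioc u w, n % D ∈ range D := fun n _ => mem_range.2 (Nat.mod_lt _ (by omega))
  rw [← sum_fiberwise_of_maps_to h1]
  refine (norm_sum_le _ _).trans ?_
  have h2 : ∀ r ∈ range D, ‖∑ n ∈ (Ioc u w).filter (fun n => n % D = r), G n * ρ n‖ ≤ 2 * κ := by
    intro r hr
    rw [mem_range] at hr
    have h3 : ∑ n ∈ (Ioc u w).filter (fun n => n % D = r), G n * ρ n =
        (∑ n ∈ (Ioc 0 w).filter (fun n => n ≡ r [MOD D]), G n -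
          ∑ n ∈ (Ioc 0 u).filter (fun n => n ≡ r [MOD D]), G n) * ρ r := by
      have h4 : (Ioc 0 w).filter (fun n => n ≡ r [MOD D]) =
          (Ioc 0 u).filter (fun n => n ≡ r [MOD D]) ∪ (Ioc u w).filter (fun n => n % D = r) := by
        ext n
        simp only [mem_union, mem_filter, mem_Ioc]
        unfold Nat.ModEq
        rw [Nat.mod_eq_of_lt hr]
        constructor
        · rintro ⟨⟨h5, h6⟩, h7⟩
          by_cases h8 : n ≤ u
          · exact Or.inl ⟨⟨h5, h8⟩, h7⟩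
          · exact Or.inr ⟨⟨by omega, h6⟩, h7⟩
        · rintro (⟨⟨h5, h6⟩, h7⟩ | ⟨⟨h5, h6⟩, h7⟩)
          · exact ⟨⟨h5, by omega⟩, h7⟩
          · exact ⟨⟨by omega, h6⟩, h7⟩
      have h5 : Disjoint ((Ioc 0 u).filter (fun n => n ≡ r [MOD D]))
          ((Ioc u w).filter (fun n => n % D = r)) := by
        rw [disjoint_left]
        intro n h6 h7
        rw [mem_filter, mem_Ioc] at h6 h7
        omega
      rw [h4, sum_union h5, add_sub_cancel_left, sum_mul]
      apply sum_congr rfl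
      intro n hn
      rw [mem_filter] at hn
      have h6 : ρ n = ρ r := by
        have h7 := per_add hper (n % D) (n / D)
        rw [Nat.mod_add_div] at h7
        rw [h7, hn.2]
      rw [h6]
    rw [h3, norm_mul]
    have h4 := norm_sub_le (∑ n ∈ (Ioc 0 w).filter (fun n => n ≡ r [MOD D]), G n)
      (∑ n ∈ (Ioc 0 u).filter (fun n => n ≡ r [MOD D]), G n)
    have h5 := hG r w le_rfl
    have h6 := hG r u huw
    calc _ ≤ (2 * κ) * 1 := mul_le_mul (by linarith) (hρ r) (norm_nonneg _)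
          (by linarith [(norm_nonneg _).trans h5])
      _ = _ := mul_one _
  refine (sum_le_card_nsmul _ _ _ h2).trans (le_of_eq ?_)
  rw [card_range, nsmul_eq_mul]

end Pool.Agent.V5helper42.EP
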