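import Pool.Agent.V5helper42.EP.Deg

/-!
# The case of bounded moments: conclusion
-/

set_option autoImplicit false

namespace Pool.Agent.V5helper42.EP

open Finset
open Pool.Agent.W208.TL (nit lf)
open Pool.Agent.Y868.VR (MB)

/-- the test function -/
noncomputable def FD {k : ℕ} (a : Fin k → ℤ) (t : Fin k → ℝ) (ρ : ℕ → ℂ) (n : ℕ) : ℂ :=
  ρ n * Complex.exp (Complex.I * (ph a t n : ℝ))

lemma Ioc_range (x : ℕ → ℂ) (u L : ℕ) : ∑ n ∈ Ioc u (u + L), x n = ∑ i ∈ range L, x (u + 1 + i) := by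
  rw [show Ioc u (u + L) = Ico (u + 1) (u + L + 1) by
    ext m
    simp only [mem_Ioc, mem_Ico]
    omega]
  rw [sum_Ico_eq_sum_range]
  rw [show u + L + 1 - (u + 1) = L by omega]

theorem deg {k : ℕ} (a : Fin k → ℤ) (E D I : ℕ) (hD : 1 ≤ D) (hI : E + 1 ≤ I) (K ε : ℝ) (hK : 0 < K)
    (hε : 0 < ε) : ∃ Bd M : ℝ, ∃ N₀ : ℕ, ∀ N : ℕ, N₀ ≤ N → ∀ t : Fin k → ℝ,
      (∀ j, |t j| ≤ (N : ℝ) ^ E) → (∀ i ∈ Icc 1 I, |mom a t i| ≤ K * (N : ℝ) ^ i) →
      ∀ ρ : ℕ → ℂ, (∀ n, ‖ρ n‖ ≤ 1) → (∀ n, ρ (n + D) = ρ n) → ∀ g : ArithmeticFunction ℂ, MB g →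
      Far (gt g (∑ j, t j)) D N Bd M →
      ‖∑ n ∈ Ioc 0 N, g n * FD a t ρ n‖ ≤ ε * N := by
  obtain ⟨B, hBdef⟩ : ∃ B : ℕ, B = ∑ j, (a j).natAbs := ⟨_, rfl⟩
  have hB : ∀ j, (a j).natAbs ≤ B := by
    intro j
    rw [hBdef]
    exact single_le_sum (f := fun j => (a j).natAbs) (fun _ _ => Nat.zero_le _) (mem_univ j)
  have hDr : (1 : ℝ) ≤ D := by exact_mod_cast hD
  have hIr : (1 : ℝ) ≤ I := by exact_mod_cast (by omega : 1 ≤ I)
  obtain ⟨δ, hδ, hδ1, hδε⟩ : ∃ δ : ℝ, 0 < δ ∧ δ ≤ 1 / 2 ∧ δ ≤ ε / 8 :=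
    ⟨min (1 / 2) (ε / 8), lt_min (by norm_num) (by positivity), min_le_left _ _, min_le_right _ _⟩
  obtain ⟨β, hβ, hβ1, hβε⟩ : ∃ β : ℝ, 0 < β ∧ β ≤ 1 ∧ K * I * (δ⁻¹) ^ (I + 1) * (2 * β) ≤ ε / 8 := by
    refine ⟨min 1 (ε / 8 / (2 * (K * I * (δ⁻¹) ^ (I + 1)))), lt_min one_pos (by positivity),
      min_le_left _ _, ?_⟩
    have h1 : min 1 (ε / 8 / (2 * (K * I * (δ⁻¹) ^ (I + 1)))) ≤
      ε / 8 / (2 * (K * I * (δ⁻¹) ^ (I + 1))) := min_le_right _ _
    calc K * I * (δ⁻¹) ^ (I + 1) * (2 * min 1 (ε / 8 / (2 * (K * I * (δ⁻¹) ^ (I + 1))))) ≤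
        K * I * (δ⁻¹) ^ (I + 1) * (2 * (ε / 8 / (2 * (K * I * (δ⁻¹) ^ (I + 1))))) := by gcongr
      _ = ε / 8 := by field_simp
  obtain ⟨Bd, M, N₁, hN₁, hhal⟩ := mult_class D hD (ε * β / (32 * D)) (by positivity)
  obtain ⟨N₂, hN₂⟩ := exists_nat_ge (k * 2 * (B / δ) ^ (I + 1) / (ε / 8))
  obtain ⟨N₃, hN₃⟩ := exists_nat_ge (1 / β + 8 / ε + 2 * B / δ + 4)
  refine ⟨Bd, M, N₁ + N₂ + N₃, ?_⟩
  intro N hN t ht hmom ρ hρ hper g hg hF
  have hN3r : 1 / β + 8 / ε + 2 * B / δ + 4 ≤ N := hN₃.trans (by exact_mod_cast (by omega : N₃ ≤ N))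
  have hN2r : (N₂ : ℝ) ≤ N := by exact_mod_cast (by omega : N₂ ≤ N)
  have h1β : 0 < 1 / β := by positivity
  have h8ε : 0 < 8 / ε := by positivity
  have h2B : 0 ≤ 2 * B / δ := by positivity
  have hNr : (4 : ℝ) ≤ N := by linarith
  have hN4 : 4 ≤ N := by exact_mod_cast hNr
  have hβN : 1 ≤ β * N := by
    have : 1 / β ≤ N := by linarith
    rw [div_le_iff₀ hβ] at this
    linarith
  have hεN : 8 ≤ ε * N := by
    have : 8 / ε ≤ N := by linarith
    rw [div_le_iff₀ hε] at this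
    linarith
  have hδN : 2 * B ≤ δ * N := by
    have : 2 * B / δ ≤ N := by linarith
    rw [div_le_iff₀ hδ] at this
    linarith
  obtain ⟨b, hb⟩ : ∃ b : ℕ, b = ⌈β * N⌉₊ := ⟨_, rfl⟩
  have hb1 : β * N ≤ b := by rw [hb]; exact Nat.le_ceil _
  have hb2 : (b : ℝ) ≤ 2 * β * N := by
    have : (b : ℝ) < β * N + 1 := by rw [hb]; exact Nat.ceil_lt_add_one (by positivity)
    linarith
  have hb0 : 0 < b := by
    have : (0 : ℝ) < b := by linarith
    exact_mod_cast this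
  obtain ⟨M₁, hM₁⟩ : ∃ M₁ : ℕ, M₁ = ⌈δ * N⌉₊ := ⟨_, rfl⟩
  have hM1a : δ * N ≤ M₁ := by rw [hM₁]; exact Nat.le_ceil _
  have hM1b : (M₁ : ℝ) ≤ δ * N + 1 := by
    rw [hM₁]
    exact (Nat.ceil_lt_add_one (by positivity)).le
  have hM1N : M₁ ≤ N := by
    have : (M₁ : ℝ) ≤ N := by nlinarith
    exact_mod_cast this
  have hBM : 2 * B ≤ M₁ := by
    have : (2 : ℝ) * B ≤ M₁ := by linarith
    exact_mod_cast this
  obtain ⟨L, hL⟩ : ∃ L, N = M₁ + L := ⟨N - M₁, by omega⟩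
  obtain ⟨J, hJ⟩ : ∃ J : ℕ, J = L / b + 1 := ⟨_, rfl⟩
  have hLJ : L ≤ J * b := by
    rw [hJ]
    have h1 := Nat.lt_div_mul_add (a := L) (b := b) hb0
    rw [add_mul, one_mul]
    exact h1.le
  have hJr : (J : ℝ) ≤ 2 / β := by
    have h1 : ((L / b : ℕ) : ℝ) ≤ (L : ℝ) / b := Nat.cast_div_le
    have h2 : (L : ℝ) / b ≤ 1 / β := by
      rw [div_le_div_iff₀ (by exact_mod_cast hb0) hβ]
      have : (L : ℝ) ≤ N := by exact_mod_cast (by omega : L ≤ N)
      nlinarith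
    have h3 : (1 : ℝ) ≤ 1 / β := by
      rw [le_div_iff₀ hβ]
      linarith
    have h4 : 2 / β = 1 / β + 1 / β := by ring
    rw [hJ]
    push_cast
    linarith
  obtain ⟨T, hT⟩ : ∃ T : ℝ, T = ∑ j, t j := ⟨_, rfl⟩
  rw [← hT] at hF
  -- one block
  have hblk : ∀ j ∈ range J, ‖∑ n ∈ Ioc (M₁ + j * b) (M₁ + j * b + min b (L - j * b)),
      g n * FD a t ρ n‖ ≤ D * (2 * (ε * β / (32 * D) * N)) + (ε / 4) * (min b (L - j * b) : ℕ) := by
    intro j hj
    obtain ⟨u, hu⟩ : ∃ u, u = M₁ + j * b := ⟨_, rfl⟩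
    obtain ⟨l, hl⟩ : ∃ l, l = min b (L - j * b) := ⟨_, rfl⟩
    rw [← hu, ← hl]
    have hjL : j * b ≤ L := by
      rw [mem_range, hJ] at hj
      calc j * b ≤ L / b * b := Nat.mul_le_mul_right _ (by omega)
        _ ≤ L := Nat.div_mul_le_self _ _
    have hulN : u + l ≤ N := by omega
    have hval : ∀ n ∈ Ioc u (u + l), ‖g n * FD a t ρ n - (gt g T n * ρ n) *
        Complex.exp (Complex.I * (Th a t I u : ℝ))‖ ≤ ε / 4 := by
      intro n hn
      rw [mem_Ioc] at hn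
      have huN : δ * N ≤ u := by
        refine hM1a.trans ?_
        exact_mod_cast (by omega : M₁ ≤ u)
      have hunr : (u : ℝ) ≤ n := by exact_mod_cast hn.1.le
      have hn0 : (0 : ℝ) < n := by
        have : (0 : ℝ) < δ * N := by positivity
        linarith
      have h1 : g n * FD a t ρ n = (g n * ρ n) * Complex.exp (Complex.I * (ph a t n : ℝ)) := by
        unfold FD
        ring
      have h2 : (gt g T n * ρ n) * Complex.exp (Complex.I * (Th a t I u : ℝ)) =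
          (g n * ρ n) * Complex.exp (Complex.I * ((T * Real.log n + Th a t I u : ℝ) : ℂ)) := by
        rw [gt_apply, ← mul_expI]
        unfold nit
        ring
      rw [h1, h2, ← mul_sub, norm_mul]
      have h3 : ‖g n * ρ n‖ ≤ 1 := by
        rw [norm_mul]
        calc ‖g n‖ * ‖ρ n‖ ≤ 1 * 1 := mul_le_mul (hg.bdd _) (hρ _) (norm_nonneg _) zero_le_one
          _ = 1 := one_mul 1
      have h4 := ph_Th I a t (n := n) hB (by omega) (by omega) ht
      rw [← hT] at h4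
      have h5 : |Th a t I n - Th a t I u| ≤ ε / 8 := by
        refine (Th_diff a t I (N := N) (n := n) (u := u) (K := K) (δ := δ) (β := 2 * β) hK.le hδ
          (by linarith) (by positivity) (by omega) hmom huN hn.1.le ?_).trans hβε
        have h6 : (n : ℝ) ≤ u + b := by
          have : n ≤ u + b := by omega
          exact_mod_cast this
        linarith
      have h6 : (k : ℝ) * (N : ℝ) ^ E * (2 * ((B : ℝ) / n) ^ (I + 1)) ≤ ε / 8 := by
        have h7 : (B : ℝ) / n ≤ B / δ / N := by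
          rw [div_div]
          apply div_le_div_of_nonneg_left (Nat.cast_nonneg _) (by positivity)
          linarith
        have h8 : ((B : ℝ) / n) ^ (I + 1) ≤ (B / δ) ^ (I + 1) / (N : ℝ) ^ (I + 1) := by
          rw [← div_pow]
          exact pow_le_pow_left₀ (by positivity) h7 _
        have h9 : (N : ℝ) ^ E * N ≤ (N : ℝ) ^ (I + 1) := by
          rw [← pow_succ]
          exact pow_le_pow_right₀ (by linarith) (by omega)
        have h10 : k * 2 * (B / δ) ^ (I + 1) / (ε / 8) ≤ N := hN₂.trans hN2r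
        rw [div_le_iff₀ (by positivity)] at h10
        calc (k : ℝ) * (N : ℝ) ^ E * (2 * ((B : ℝ) / n) ^ (I + 1)) ≤
            k * (N : ℝ) ^ E * (2 * ((B / δ) ^ (I + 1) / (N : ℝ) ^ (I + 1))) := by gcongr
          _ = (k * 2 * (B / δ) ^ (I + 1)) * (N : ℝ) ^ E / (N : ℝ) ^ (I + 1) := by ring
          _ ≤ (N * (ε / 8)) * (N : ℝ) ^ E / (N : ℝ) ^ (I + 1) := by gcongr
          _ = (ε / 8) * ((N : ℝ) ^ E * N / (N : ℝ) ^ (I + 1)) := by ring
          _ ≤ (ε / 8) * 1 := by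
              apply mul_le_mul_of_nonneg_left _ (by positivity)
              rw [div_le_one (by positivity)]
              exact h9
          _ = ε / 8 := mul_one _
      have h7 : |ph a t n - (T * Real.log n + Th a t I u)| ≤ ε / 4 := by
        obtain ⟨a1, a2⟩ := abs_le.1 h4
        obtain ⟨b1, b2⟩ := abs_le.1 h5
        rw [abs_le]
        constructor <;> linarith
      have h8 := (exp_diff _ _).trans h7
      calc _ ≤ 1 * (ε / 4) := mul_le_mul h3 h8 (norm_nonneg _) zero_le_one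
        _ = _ := one_mul _
    have h1 : ∑ n ∈ Ioc u (u + l), g n * FD a t ρ n =
        (∑ n ∈ Ioc u (u + l), gt g T n * ρ n) * Complex.exp (Complex.I * (Th a t I u : ℝ)) +
        ∑ n ∈ Ioc u (u + l), (g n * FD a t ρ n - (gt g T n * ρ n) *
          Complex.exp (Complex.I * (Th a t I u : ℝ))) := by
      rw [sum_mul, ← sum_add_distrib]
      apply sum_congr rfl
      intro n _
      ring
    rw [h1]
    refine (norm_add_le _ _).trans (add_le_add ?_ ?_)
    · rw [norm_mul, norm_expI, mul_one]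
      exact per_sum hD hρ hper (by omega) (fun r v hv =>
        hhal _ (gt_MB hg T) N (by omega) hF v (by omega) r)
    · refine (norm_sum_le _ _).trans ((sum_le_card_nsmul _ _ _ hval).trans (le_of_eq ?_))
      rw [nsmul_eq_mul, Nat.card_Ioc, Nat.add_sub_cancel_left, mul_comm]
  -- assembly
  have hsplit : ∑ n ∈ Ioc 0 N, g n * FD a t ρ n = ∑ n ∈ Ioc 0 M₁, g n * FD a t ρ n +
      ∑ j ∈ range J, ∑ n ∈ Ioc (M₁ + j * b) (M₁ + j * b + min b (L - j * b)), g n * FD a t ρ n := by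
    have h1 : ∑ n ∈ Ioc 0 N, g n * FD a t ρ n = ∑ n ∈ Ioc 0 M₁, g n * FD a t ρ n +
        ∑ n ∈ Ioc M₁ N, g n * FD a t ρ n := by
      rw [← sum_union]
      · congr 1
        exact (Ioc_union_Ioc_eq_Ioc (Nat.zero_le _) hM1N).symm
      · rw [disjoint_left]
        intro n h1 h2
        rw [mem_Ioc] at h1 h2
        omega
    rw [h1]
    congr 1
    conv_lhs => rw [hL]
    rw [Ioc_range, blocks_sum (fun i => g (M₁ + 1 + i) * FD a t ρ (M₁ + 1 + i)) b L J hLJ]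
    apply sum_congr rfl
    intro j _
    rw [Ioc_range]
    apply sum_congr rfl
    intro n _
    rw [show M₁ + 1 + (j * b + n) = M₁ + j * b + 1 + n by ring]
  rw [hsplit]
  have hone : ∀ n, ‖g n * FD a t ρ n‖ ≤ 1 := by
    intro n
    unfold FD
    rw [norm_mul, norm_mul, norm_expI, mul_one]
    calc ‖g n‖ * ‖ρ n‖ ≤ 1 * 1 := mul_le_mul (hg.bdd _) (hρ _) (norm_nonneg _) zero_le_one
      _ = 1 := one_mul 1
  have h1 : ‖∑ n ∈ Ioc 0 M₁, g n * FD a t ρ n‖ ≤ M₁ := by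
    refine (norm_sum_le _ _).trans ((sum_le_sum fun m _ => hone m).trans ?_)
    simp
  have h2 : ‖∑ j ∈ range J, ∑ n ∈ Ioc (M₁ + j * b) (M₁ + j * b + min b (L - j * b)),
      g n * FD a t ρ n‖ ≤ ε / 8 * N + ε / 4 * N := by
    refine (norm_sum_le _ _).trans ((sum_le_sum hblk).trans ?_)
    rw [sum_add_distrib, sum_const, card_range, nsmul_eq_mul, ← mul_sum]
    apply add_le_add
    · calc (J : ℝ) * (D * (2 * (ε * β / (32 * D) * N))) ≤
          2 / β * (D * (2 * (ε * β / (32 * D) * N))) := by gcongr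
        _ = ε / 8 * N := by field_simp; ring
    · apply mul_le_mul_of_nonneg_left _ (by positivity)
      have h3 := blocks_sum (fun _ => (1 : ℂ)) b L J hLJ
      simp only [sum_const, card_range, nsmul_eq_mul, mul_one] at h3
      have h4 : ((L : ℕ) : ℂ) = ((∑ j ∈ range J, min b (L - j * b) : ℕ) : ℂ) := by
        rw [h3]
        push_cast
        rfl
      have h5 : L = ∑ j ∈ range J, min b (L - j * b) := by exact_mod_cast h4
      have h6 : (∑ j ∈ range J, ((min b (L - j * b) : ℕ) : ℝ)) = L := by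
        rw [← Nat.cast_sum, ← h5]
      rw [h6]
      exact_mod_cast (by omega : L ≤ N)
  refine (norm_add_le _ _).trans ?_
  have h3 : δ * N ≤ ε / 8 * N := by gcongr
  linarith

end Pool.Agent.V5helper42.EP
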