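import Pool.Agent.V5helper42.EP.Blk

/-!
# Exponential sums with phases which are polynomials in `1 / n`: good blocks
-/

set_option autoImplicit false

namespace Pool.Agent.V5helper42.EP

open Finset
open Pool.Agent.H469R2.NK (e norm_e e_add conj_e norm_sum_neg)
open Pool.Agent.N542.PP (Ph block)

/-- decomposition into blocks -/
lemma blocks_sum (x : ℕ → ℂ) (N L J : ℕ) (h : L ≤ J * N) : ∑ n ∈ range L, x n =
    ∑ j ∈ range J, ∑ n ∈ range (min N (L - j * N)), x (j * N + n) := by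
  have h1 : ∀ J : ℕ, ∑ n ∈ range (min L (J * N)), x n =
      ∑ j ∈ range J, ∑ n ∈ range (min N (L - j * N)), x (j * N + n) := by
    intro J
    induction J with
    | zero => simp
    | succ J ih =>
      rw [sum_range_succ, ← ih]
      by_cases hc : J * N ≤ L
      · have h2 : min L ((J + 1) * N) = J * N + min N (L - J * N) := by
          have : (J + 1) * N = J * N + N := by ring
          rw [this]
          omega
        rw [h2, sum_range_add, show min L (J * N) = J * N by omega]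
      · have h2 : min L ((J + 1) * N) = L := by
          have : (J + 1) * N = J * N + N := by ring
          rw [this]
          omega
        rw [h2, show min L (J * N) = L by omega, show min N (L - J * N) = 0 by omega]
        simp
  have h2 := h1 J
  rwa [show min L (J * N) = L by omega] at h2

/-- a continuous function which does not vanish keeps its sign -/
lemma sign_const {f : ℝ → ℝ} {u w : ℝ} (hf : ContinuousOn f (Set.Icc u w))
    (h0 : ∀ t ∈ Set.Icc u w, f t ≠ 0) {t : ℝ} (ht : t ∈ Set.Icc u w) :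
    (0 < f u → 0 < f t) ∧ (f u < 0 → f t < 0) := by
  have hsub : Set.Icc u t ⊆ Set.Icc u w := Set.Icc_subset_Icc_right ht.2
  have hu : u ∈ Set.Icc u w := ⟨le_rfl, ht.1.trans ht.2⟩
  constructor
  · intro h
    by_contra hc
    rw [not_lt] at hc
    have h1 := intermediate_value_Icc' ht.1 (hf.mono hsub)
    obtain ⟨z, hz, hz0⟩ := h1 ⟨hc, h.le⟩
    exact h0 z (hsub hz) hz0
  · intro h
    by_contra hc
    rw [not_lt] at hc
    have h1 := intermediate_value_Icc ht.1 (hf.mono hsub)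
    obtain ⟨z, hz, hz0⟩ := h1 ⟨h.le, hc⟩
    exact h0 z (hsub hz) hz0

lemma good_block (I Q D : ℕ) (hQ : 1 ≤ Q) (hD : 1 ≤ D) (c β δ : ℝ) (hc : 0 < c) (hβ : 0 < β)
    (hβ1 : β ≤ 1) (hδ : 0 < δ) (hδ1 : δ ≤ 1) :
    ∃ η : ℝ, 0 < η ∧ η ≤ 1 ∧ ∃ C : ℝ, 1 ≤ C ∧ ∀ (X N L : ℕ) (u r H : ℝ) (a : ℕ → ℝ),
      1 ≤ N → β / 2 * X ≤ N → (N : ℝ) ≤ β * X → L ≤ N → 0 < H → H ≤ (N : ℝ) ^ Q →
      (∀ i ∈ Icc 1 I, |a i| ≤ H) →
      (∀ t ∈ Set.Icc u (u + L), δ ≤ (r + D * t) / X ∧ (r + D * t) / X ≤ 1) →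
      (∀ m, 1 ≤ m → m ≤ Q + 2 → ∀ t ∈ Set.Icc u (u + L),
        c * H ≤ |(RR a I m).eval ((r + D * t) / X)|) →
      ‖∑ n ∈ range L, e (psi a I 0 ((r + D * (u + n)) / X) / (2 * Real.pi))‖ ≤
        C * (N / H + (N : ℝ) ^ (1 - η)) := by
  have hpi := Real.pi_pos
  set c₁ : ℝ := c * (β / 2) ^ (Q + 2) / (2 * Real.pi) with hc₁
  have hc₁0 : 0 < c₁ := by rw [hc₁]; positivity
  set A : ℝ := ∑ m ∈ range (Q + 3), (∑ i ∈ Icc 1 I, (i.ascFactorial m : ℝ)) with hA
  have hA0 : 0 ≤ A := sum_nonneg fun _ _ => sum_nonneg fun _ _ => Nat.cast_nonneg _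
  set c₂ : ℝ := A * (δ⁻¹) ^ (I + (Q + 2)) * (D : ℝ) ^ (Q + 2) / (2 * Real.pi) + c₁ with hc₂
  obtain ⟨η, hη, hη1, C, hC, h⟩ := block' Q hQ c₁ c₂ hc₁0 (by
    rw [hc₂]
    have : 0 ≤ A * (δ⁻¹) ^ (I + (Q + 2)) * (D : ℝ) ^ (Q + 2) / (2 * Real.pi) := by positivity
    linarith)
  refine ⟨η, hη, hη1, C, hC, ?_⟩
  intro X N L u r H a hN hN1 hN2 hL hH hHQ ha hv hR
  have hNr : (1 : ℝ) ≤ N := by exact_mod_cast hN
  have hX : (0 : ℝ) < X := by
    by_contra hc
    have : (X : ℝ) = 0 := le_antisymm (not_lt.1 hc) (Nat.cast_nonneg _)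
    rw [this, mul_zero] at hN2
    linarith
  have hDr : (1 : ℝ) ≤ D := by exact_mod_cast hD
  set φ : ℕ → ℝ → ℝ := fun m t =>
    ((D : ℝ) / X) ^ m * psi a I m ((r + D * t) / X) / (2 * Real.pi) with hφ
  have hder : ∀ m, ∀ t ∈ Set.Icc u (u + (L : ℝ)), HasDerivAt (φ m) (φ (m + 1) t) t := by
    intro m t ht
    have hv0 : (r + D * t) / X ≠ 0 := by
      have := (hv t ht).1
      intro h0
      rw [h0] at this
      linarith
    have h1 : HasDerivAt (fun t : ℝ => (r + D * t) / X) ((D : ℝ) / X) t := by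
      have h2 := (((hasDerivAt_id t).const_mul (D : ℝ)).const_add r).div_const (X : ℝ)
      simpa using h2
    have h2 := (((psi_deriv a I m hv0).comp t h1).const_mul (((D : ℝ) / X) ^ m)).div_const
      (2 * Real.pi)
    refine h2.congr_deriv ?_
    simp only [hφ]
    rw [pow_succ]
    ring
  have hm1 : ∀ m, 1 ≤ m → m ≤ Q + 2 → ∀ t ∈ Set.Icc u (u + (L : ℝ)),
      c₁ * H / (N : ℝ) ^ m ≤ |φ m t| ∧ |φ m t| ≤ c₂ * H / (N : ℝ) ^ m := by
    intro m h1 h2 t ht
    obtain ⟨v1, v2⟩ := hv t ht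
    have hv0 : 0 < (r + D * t) / X := by linarith
    have h3 := (hR m h1 h2 t ht).trans (psi_ge a I m hv0 v2)
    have h4 := psi_le a I m hδ hδ1 v1 ha
    have habs : |φ m t| = ((D : ℝ) / X) ^ m * |psi a I m ((r + D * t) / X)| / (2 * Real.pi) := by
      simp only [hφ]
      rw [abs_div, abs_mul, abs_of_pos (show 0 < 2 * Real.pi by positivity),
        abs_of_pos (show 0 < ((D : ℝ) / X) ^ m by positivity)]
    have hNm : 0 < (N : ℝ) ^ m := by positivity
    rw [habs]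
    constructor
    · rw [div_le_iff₀ hNm]
      have h5 : (β / 2) ^ (Q + 2) ≤ ((D : ℝ) / X) ^ m * (N : ℝ) ^ m := by
        rw [← mul_pow]
        have h6 : β / 2 ≤ (D : ℝ) / X * N := by
          rw [div_mul_eq_mul_div, le_div_iff₀ hX]
          have h7 : (N : ℝ) ≤ D * N := le_mul_of_one_le_left (by linarith) hDr
          linarith
        calc (β / 2) ^ (Q + 2) ≤ (β / 2) ^ m :=
              pow_le_pow_of_le_one (by positivity) (by linarith) h2
          _ ≤ _ := pow_le_pow_left₀ (by positivity) h6 m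
      calc c₁ * H = (β / 2) ^ (Q + 2) * (c * H) / (2 * Real.pi) := by rw [hc₁]; ring
        _ ≤ (((D : ℝ) / X) ^ m * (N : ℝ) ^ m) * |psi a I m ((r + D * t) / X)| / (2 * Real.pi) := by
          gcongr
        _ = _ := by ring
    · rw [le_div_iff₀ hNm]
      have h5 : ((D : ℝ) / X) ^ m * (N : ℝ) ^ m ≤ (D : ℝ) ^ (Q + 2) := by
        rw [← mul_pow]
        have h6 : (D : ℝ) / X * N ≤ D := by
          rw [div_mul_eq_mul_div, div_le_iff₀ hX]
          have h7 : (N : ℝ) ≤ X := by nlinarith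
          exact mul_le_mul_of_nonneg_left h7 (by linarith)
        calc ((D : ℝ) / X * N) ^ m ≤ (D : ℝ) ^ m := pow_le_pow_left₀ (by positivity) h6 m
          _ ≤ (D : ℝ) ^ (Q + 2) := pow_le_pow_right₀ hDr h2
      have h7 : (∑ i ∈ Icc 1 I, (i.ascFactorial m : ℝ)) ≤ A := by
        rw [hA]
        exact single_le_sum (f := fun m => ∑ i ∈ Icc 1 I, (i.ascFactorial m : ℝ))
          (fun _ _ => sum_nonneg fun _ _ => Nat.cast_nonneg _) (mem_range.2 (by omega))
      have h8 : (δ⁻¹) ^ (I + m) ≤ (δ⁻¹) ^ (I + (Q + 2)) := by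
        apply pow_le_pow_right₀
        · rw [one_le_inv₀ hδ]
          exact hδ1
        · omega
      have h9 : |psi a I m ((r + D * t) / X)| ≤ H * A * (δ⁻¹) ^ (I + (Q + 2)) := by
        refine h4.trans ?_
        have : 0 ≤ ∑ i ∈ Icc 1 I, (i.ascFactorial m : ℝ) := sum_nonneg fun _ _ => Nat.cast_nonneg _
        gcongr
      calc ((D : ℝ) / X) ^ m * |psi a I m ((r + D * t) / X)| / (2 * Real.pi) * (N : ℝ) ^ m
          = (((D : ℝ) / X) ^ m * (N : ℝ) ^ m) * |psi a I m ((r + D * t) / X)| / (2 * Real.pi) := by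
            ring
        _ ≤ (D : ℝ) ^ (Q + 2) * (H * A * (δ⁻¹) ^ (I + (Q + 2))) / (2 * Real.pi) := by gcongr
        _ ≤ c₂ * H := by
            rw [hc₂, add_mul]
            have : 0 ≤ c₁ * H := by positivity
            have h10 : (D : ℝ) ^ (Q + 2) * (H * A * (δ⁻¹) ^ (I + (Q + 2))) / (2 * Real.pi) =
              A * (δ⁻¹) ^ (I + (Q + 2)) * (D : ℝ) ^ (Q + 2) / (2 * Real.pi) * H := by ring
            linarith
  have hm0 : ∀ m, 1 ≤ m → m ≤ Q + 2 → ∀ t ∈ Set.Icc u (u + (L : ℝ)), φ m t ≠ 0 := by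
    intro m h1 h2 t ht h0
    have := (hm1 m h1 h2 t ht).1
    rw [h0, abs_zero] at this
    have h3 : 0 < c₁ * H / (N : ℝ) ^ m := by positivity
    linarith
  set s : ℕ → ℝ := fun m => if 0 < φ m u then 1 else -1 with hs
  have huu : u ∈ Set.Icc u (u + (L : ℝ)) := ⟨le_rfl, by
    have : (0 : ℝ) ≤ L := Nat.cast_nonneg _
    linarith⟩
  have hsabs : ∀ m, 1 ≤ m → m ≤ Q + 2 → ∀ t ∈ Set.Icc u (u + (L : ℝ)), s m * φ m t = |φ m t| := by
    intro m h1 h2 t ht
    have hcont : ContinuousOn (φ m) (Set.Icc u (u + (L : ℝ))) :=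
      fun t ht => (hder m t ht).continuousAt.continuousWithinAt
    have h3 := sign_const hcont (hm0 m h1 h2) ht
    simp only [hs]
    split_ifs with h4
    · rw [one_mul, abs_of_pos (h3.1 h4)]
    · have h5 : φ m u < 0 := lt_of_le_of_ne (not_lt.1 h4) (hm0 m h1 h2 u huu)
      rw [abs_of_neg (h3.2 h5)]
      ring
  have hmain := h N L u H s φ hN hL hH hHQ (by
    intro m
    simp only [hs]
    split_ifs
    · left; rfl
    · right; rfl) ⟨fun m _ t ht => hder m t ht, fun m h1 h2 t ht => by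
      rw [hsabs m h1 h2 t ht]
      exact hm1 m h1 h2 t ht⟩
  refine le_trans (le_of_eq ?_) hmain
  congr 1
  apply sum_congr rfl
  intro n _
  simp only [hφ]
  rw [pow_zero, one_mul]

end Pool.Agent.V5helper42.EP
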