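import Pool.Agent.V5helper42.EP.ExpA

/-!
# Exponential sums with phases which are polynomials in `1 / n`
-/

set_option autoImplicit false

namespace Pool.Agent.V5helper42.EP

open Finset
open Pool.Agent.H469R2.NK (e norm_e e_add conj_e norm_sum_neg)

/-- a polynomial is small on few blocks -/
lemma bad_count (I : ℕ) (β : ℝ) (hβ : 0 < β) : ∃ c : ℝ, 0 < c ∧ ∀ (p : Polynomial ℝ) (H : ℝ), 0 < H →
    p.degree < (I : WithBot ℕ) → (∃ l, H ≤ |p.coeff l|) → ∀ (J : Finset ℕ) (v : ℕ → ℝ),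
    (∀ j ∈ J, |v j| ≤ 1) → (∀ i ∈ J, ∀ j ∈ J, i + 2 ≤ j → β ≤ |v i - v j|) →
    (∀ j ∈ J, |p.eval (v j)| ≤ c * H) → J.card ≤ 2 * I := by
  classical
  obtain ⟨C, hC, h⟩ := lag I β hβ
  refine ⟨1 / (2 * C), by positivity, fun p H hH hp hl J v hv hs he => ?_⟩
  by_contra hc
  rw [not_le] at hc
  have hpar : ∃ b : ℕ, I ≤ (J.filter (fun j => j % 2 = b)).card := by
    by_contra hcon
    push Not at hcon
    have h0 := hcon 0
    have h1 := hcon 1
    have h2 : J = J.filter (fun j => j % 2 = 0) ∪ J.filter (fun j => j % 2 = 1) := by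
      ext j
      rw [mem_union, mem_filter, mem_filter]
      constructor
      · intro hj
        rcases Nat.mod_two_eq_zero_or_one j with h3 | h3
        · exact Or.inl ⟨hj, h3⟩
        · exact Or.inr ⟨hj, h3⟩
      · rintro (h3 | h3)
        · exact h3.1
        · exact h3.1
    have h3 := card_union_le (J.filter (fun j => j % 2 = 0)) (J.filter (fun j => j % 2 = 1))
    rw [← h2] at h3
    omega
  obtain ⟨b, hb⟩ := hpar
  obtain ⟨J', hJ', hcard⟩ := exists_subset_card_eq hb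
  have hJJ : ∀ j ∈ J', j ∈ J ∧ j % 2 = b := fun j hj => mem_filter.1 (hJ' hj)
  obtain ⟨l, hl⟩ := hl
  have h1 := h p hp J' v hcard (fun i hi => hv i (hJJ i hi).1) (fun i hi j hj hij => by
    have hi' := hJJ i hi
    have hj' := hJJ j hj
    rcases Nat.lt_or_ge i j with h2 | h2
    · exact hs i hi'.1 j hj'.1 (by omega)
    · rw [abs_sub_comm]
      exact hs j hj'.1 i hi'.1 (by omega)) (1 / (2 * C) * H) (by positivity)
    (fun i hi => he i (hJJ i hi).1) l
  have h2 : C * (1 / (2 * C) * H) = H / 2 := by field_simp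
  rw [h2] at h1
  linarith

/-- **Exponential sums.** -/
theorem exp_sum (I E D : ℕ) (hD : 1 ≤ D) (δ ε : ℝ) (hδ : 0 < δ) (hδ1 : δ ≤ 1) (hε : 0 < ε) :
    ∃ K : ℝ, 0 < K ∧ ∃ X₀ : ℕ, ∀ X : ℕ, X₀ ≤ X → ∀ a : ℕ → ℝ,
      (∀ i ∈ Icc 1 I, |a i| ≤ (X : ℝ) ^ E) → (∃ i ∈ Icc 1 I, K ≤ |a i|) →
      ∀ r n₀ L : ℕ, δ * X ≤ r + D * n₀ → (r : ℝ) + D * (n₀ + L) ≤ X →
      ‖∑ n ∈ range L, e (psi a I 0 ((r + D * (n₀ + n)) / X) / (2 * Real.pi))‖ ≤ ε * X := by
  classical
  set Q : ℕ := E + 1 with hQ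
  -- the length of the blocks
  obtain ⟨β, hβ, hβ1, hβε⟩ : ∃ β : ℝ, 0 < β ∧ β ≤ 1 ∧ (2 * I * (Q + 2)) * β ≤ ε / 4 := by
    refine ⟨min 1 (ε / 4 / (2 * I * (Q + 2) + 1)), lt_min one_pos (by positivity),
      min_le_left _ _, ?_⟩
    have h1 : min 1 (ε / 4 / (2 * I * (Q + 2) + 1)) ≤ ε / 4 / (2 * (I : ℝ) * (Q + 2) + 1) :=
      min_le_right _ _
    have h2 : (0 : ℝ) ≤ 2 * I * (Q + 2) := by positivity
    calc (2 * (I : ℝ) * (Q + 2)) * min 1 (ε / 4 / (2 * I * (Q + 2) + 1))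
        ≤ (2 * (I : ℝ) * (Q + 2) + 1) * (ε / 4 / (2 * I * (Q + 2) + 1)) := by
          apply mul_le_mul (by linarith) h1 (le_min zero_le_one (by positivity)) (by positivity)
      _ = ε / 4 := by field_simp
  obtain ⟨c, hc, hbad⟩ := bad_count I (β / 2) (by positivity)
  obtain ⟨η, hη, hη1, C, hC, hgood⟩ := good_block I Q D (by omega) hD c β δ hc hβ hβ1 hδ hδ1
  obtain ⟨X₁, hX₁⟩ := exists_nat_ge ((2 / β) ^ (E + 1) + 2 / β)
  have hrp : Filter.Tendsto (fun X : ℕ => (X : ℝ) ^ (-η)) Filter.atTop (nhds 0) :=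
    (tendsto_rpow_neg_atTop hη).comp tendsto_natCast_atTop_atTop
  obtain ⟨X₂, hX₂⟩ := Filter.eventually_atTop.1 (hrp.eventually_le_const
    (show (0 : ℝ) < ε / 4 / (3 / β * C) by positivity))
  refine ⟨3 / β * C / (ε / 4), by positivity, X₁ + X₂ + 1, ?_⟩
  intro X hX a ha hbig r n₀ L hlo hhi
  have hXr : ((2 / β) ^ (E + 1) + 2 / β) ≤ X := hX₁.trans (by exact_mod_cast (by omega : X₁ ≤ X))
  have hX0 : (0 : ℝ) < X := by exact_mod_cast (by omega : 0 < X)
  have hX1 : (1 : ℝ) ≤ X := by exact_mod_cast (by omega : 1 ≤ X)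
  have h2β : 2 / β ≤ X := by
    have : (0 : ℝ) < (2 / β) ^ (E + 1) := by positivity
    linarith
  have hβX : 2 ≤ β * X := by
    rw [div_le_iff₀ hβ] at h2β
    linarith
  obtain ⟨N, hN⟩ : ∃ N : ℕ, N = ⌊β * X⌋₊ := ⟨_, rfl⟩
  have hN2 : (N : ℝ) ≤ β * X := by
    rw [hN]
    exact Nat.floor_le (by positivity)
  have hN1 : β / 2 * X ≤ N := by
    have h1 : β * X < N + 1 := by
      rw [hN]
      exact Nat.lt_floor_add_one _
    linarith
  have hN0 : 1 ≤ N := by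
    have : (1 : ℝ) ≤ N := by linarith
    exact_mod_cast this
  have hNr : (1 : ℝ) ≤ N := by exact_mod_cast hN0
  have hNX : (N : ℝ) ≤ X := by nlinarith
  have hDr : (1 : ℝ) ≤ D := by exact_mod_cast hD
  -- the largest coefficient
  obtain ⟨i₁, hi₁, hK⟩ := hbig
  obtain ⟨i₀, hi₀, hmax⟩ := exists_max_image (Icc 1 I) (fun i => |a i|) ⟨i₁, hi₁⟩
  obtain ⟨H, hH⟩ : ∃ H, H = |a i₀| := ⟨_, rfl⟩
  have hKH : 3 / β * C / (ε / 4) ≤ H := by
    rw [hH]
    exact hK.trans (hmax i₁ hi₁)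
  have hH0 : 0 < H := lt_of_lt_of_le (by positivity) hKH
  have haH : ∀ i ∈ Icc 1 I, |a i| ≤ H := fun i hi => by rw [hH]; exact hmax i hi
  have hHE : H ≤ (N : ℝ) ^ Q := by
    have h1 : H ≤ (X : ℝ) ^ E := by rw [hH]; exact ha i₀ hi₀
    refine h1.trans ?_
    have h2 : (β / 2 * X) ^ (E + 1) ≤ (N : ℝ) ^ Q := pow_le_pow_left₀ (by positivity) hN1 _
    refine le_trans ?_ h2
    rw [mul_pow, pow_succ (X : ℝ) E]
    have h3 : 1 ≤ (β / 2) ^ (E + 1) * X := by
      have h4 : (2 / β) ^ (E + 1) ≤ X := by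
        have : (0 : ℝ) < 2 / β := by positivity
        linarith
      calc (1 : ℝ) = (β / 2) ^ (E + 1) * (2 / β) ^ (E + 1) := by
            rw [← mul_pow, show β / 2 * (2 / β) = 1 by field_simp, one_pow]
        _ ≤ _ := by gcongr
    calc (X : ℝ) ^ E = (X : ℝ) ^ E * 1 := (mul_one _).symm
      _ ≤ (X : ℝ) ^ E * ((β / 2) ^ (E + 1) * X) := by gcongr
      _ = _ := by ring
  -- the blocks
  obtain ⟨J, hJ⟩ : ∃ J : ℕ, J = L / N + 1 := ⟨_, rfl⟩
  have hLJ : L ≤ J * N := by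
    rw [hJ]
    have h1 := Nat.lt_div_mul_add (a := L) (b := N) (by omega)
    rw [add_mul, one_mul]
    exact h1.le
  have hL0 : (0 : ℝ) ≤ L := Nat.cast_nonneg _
  have hn0 : (0 : ℝ) ≤ n₀ := Nat.cast_nonneg _
  have hr0 : (0 : ℝ) ≤ r := Nat.cast_nonneg _
  have hLX : (L : ℝ) ≤ X := by nlinarith
  have hJr : (J : ℝ) ≤ 3 / β := by
    have h1 : ((L / N : ℕ) : ℝ) ≤ (L : ℝ) / N := Nat.cast_div_le
    have h2 : (L : ℝ) / N ≤ 2 / β := by
      rw [div_le_div_iff₀ (by linarith) hβ]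
      nlinarith
    have h3 : (1 : ℝ) ≤ 1 / β := by
      rw [le_div_iff₀ hβ]
      linarith
    have h4 : 3 / β = 2 / β + 1 / β := by ring
    rw [hJ]
    push_cast
    linarith
  obtain ⟨Lj, hLj⟩ : ∃ Lj : ℕ → ℕ, Lj = fun j => min N (L - j * N) := ⟨_, rfl⟩
  have hLjN : ∀ j, Lj j ≤ N := fun j => by rw [hLj]; exact min_le_left _ _
  have hLjL : ∀ j ∈ range J, j * N + Lj j ≤ L := by
    intro j hj
    rw [mem_range, hJ] at hj
    have h1 : j * N ≤ L := by
      calc j * N ≤ L / N * N := Nat.mul_le_mul_right _ (by omega)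
        _ ≤ L := Nat.div_mul_le_self _ _
    rw [hLj]
    simp only
    omega
  obtain ⟨u, hu⟩ : ∃ u : ℕ → ℝ, u = fun j => (n₀ : ℝ) + ((j * N : ℕ) : ℝ) := ⟨_, rfl⟩
  have hvt : ∀ j ∈ range J, ∀ t ∈ Set.Icc (u j) (u j + Lj j),
      δ ≤ (r + D * t) / X ∧ (r + D * t) / X ≤ 1 := by
    intro j hj t ht
    have h1 : ((j * N + Lj j : ℕ) : ℝ) ≤ L := by exact_mod_cast hLjL j hj
    rw [Nat.cast_add] at h1
    rw [hu] at ht
    have h2 : (0 : ℝ) ≤ ((j * N : ℕ) : ℝ) := Nat.cast_nonneg _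
    have h3 : (n₀ : ℝ) ≤ t := by linarith [ht.1]
    have h4 : t ≤ n₀ + L := by linarith [ht.2]
    constructor
    · rw [le_div_iff₀ hX0]
      have : (D : ℝ) * n₀ ≤ D * t := by gcongr
      linarith
    · rw [div_le_one hX0]
      have : (D : ℝ) * t ≤ D * (n₀ + L) := by gcongr
      linarith
  -- the bad blocks
  obtain ⟨Bm, hBm⟩ : ∃ Bm : ℕ → Finset ℕ, Bm = fun m => (range J).filter (fun j =>
      ∃ t ∈ Set.Icc (u j) (u j + Lj j), |(RR a I m).eval ((r + D * t) / X)| < c * H) := ⟨_, rfl⟩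
  have hBcard : ∀ m, (Bm m).card ≤ 2 * I := by
    intro m
    have h1 : ∀ j, ∃ t : ℝ, j ∈ Bm m → t ∈ Set.Icc (u j) (u j + Lj j) ∧
        |(RR a I m).eval ((r + D * t) / X)| < c * H := by
      intro j
      by_cases hj : j ∈ Bm m
      · rw [hBm, mem_filter] at hj
        obtain ⟨t, ht1, ht2⟩ := hj.2
        exact ⟨t, fun _ => ⟨ht1, ht2⟩⟩
      · exact ⟨0, fun h => absurd h hj⟩
    choose t ht using h1
    have hjJ : ∀ j ∈ Bm m, j ∈ range J := by
      intro j hj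
      rw [hBm] at hj
      exact (mem_filter.1 hj).1
    refine hbad (RR a I m) H hH0 (RR_degree a I m) ⟨I - i₀, ?_⟩ (Bm m)
      (fun j => (r + D * t j) / X) ?_ ?_ ?_
    · rw [RR_coeff a I m hi₀, abs_mul, ← hH]
      rw [mem_Icc] at hi₀
      obtain ⟨n, hn⟩ : ∃ n, i₀ = n + 1 := ⟨i₀ - 1, by omega⟩
      have h2 : 1 ≤ i₀.ascFactorial m := by
        rw [hn]
        exact Nat.ascFactorial_pos n m
      have h3 : (1 : ℝ) ≤ (i₀.ascFactorial m : ℝ) := by exact_mod_cast h2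
      rw [abs_of_nonneg (by linarith : (0 : ℝ) ≤ (i₀.ascFactorial m : ℝ))]
      exact le_mul_of_one_le_right hH0.le h3
    · intro j hj
      obtain ⟨h2, h3⟩ := hvt j (hjJ j hj) (t j) (ht j hj).1
      rw [abs_of_nonneg (by linarith)]
      exact h3
    · intro i hi j hj hij
      have h2 := (ht i hi).1.2
      have h3 := (ht j hj).1.1
      rw [hu] at h2 h3
      simp only at h2 h3
      have h4 : ((Lj i : ℕ) : ℝ) ≤ N := by exact_mod_cast hLjN i
      have h5 : ((j * N : ℕ) : ℝ) ≥ ((i * N : ℕ) : ℝ) + 2 * N := by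
        have : i * N + 2 * N ≤ j * N := by
          rw [← add_mul]
          exact Nat.mul_le_mul_right _ hij
        exact_mod_cast this
      have h6 : (N : ℝ) ≤ t j - t i := by linarith
      have h7 : (r + D * t i) / X - (r + D * t j) / X = -(D * (t j - t i) / X) := by ring
      rw [h7, abs_neg, abs_of_nonneg (by
        apply div_nonneg _ hX0.le
        apply mul_nonneg (by linarith)
        linarith), le_div_iff₀ hX0]
      calc β / 2 * X ≤ N := hN1
        _ ≤ 1 * (t j - t i) := by linarith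
        _ ≤ D * (t j - t i) := by
          apply mul_le_mul_of_nonneg_right hDr
          linarith
    · intro j hj
      exact (ht j hj).2.le
  obtain ⟨Bad, hBad⟩ : ∃ Bad : Finset ℕ, Bad = (Icc 1 (Q + 2)).biUnion Bm := ⟨_, rfl⟩
  have hBadc : (Bad.card : ℝ) ≤ 2 * I * (Q + 2) := by
    have h1 : Bad.card ≤ (Q + 2) * (2 * I) := by
      rw [hBad]
      refine card_biUnion_le.trans ?_
      refine (sum_le_card_nsmul _ _ _ fun m _ => hBcard m).trans ?_
      rw [Nat.card_Icc, smul_eq_mul]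
      simp
    have h2 : (Bad.card : ℝ) ≤ ((Q + 2) * (2 * I) : ℕ) := by exact_mod_cast h1
    push_cast at h2
    linarith
  -- the estimate of the blocks
  rw [blocks_sum _ N L J hLJ]
  have hblk : ∀ j ∈ range J, ‖∑ n ∈ range (min N (L - j * N)),
      e (psi a I 0 ((r + D * (n₀ + ((j * N + n : ℕ) : ℝ))) / X) / (2 * Real.pi))‖ ≤
      C * (N / H + (N : ℝ) ^ (1 - η)) + if j ∈ Bad then (N : ℝ) else 0 := by
    intro j hj
    have h0 : 0 ≤ C * (N / H + (N : ℝ) ^ (1 - η)) := by positivity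
    have hLj' : min N (L - j * N) = Lj j := by rw [hLj]
    rw [hLj']
    by_cases hjB : j ∈ Bad
    · rw [if_pos hjB]
      have h1 : ‖∑ n ∈ range (Lj j),
          e (psi a I 0 ((r + D * (n₀ + ((j * N + n : ℕ) : ℝ))) / X) / (2 * Real.pi))‖ ≤ N := by
        refine (norm_sum_le _ _).trans ?_
        simp only [norm_e, sum_const, card_range, nsmul_eq_mul, mul_one]
        exact_mod_cast hLjN j
      linarith
    · rw [if_neg hjB, add_zero]
      have h1 := hgood X N (Lj j) (u j) r H a hN0 hN1 hN2 (hLjN j) hH0 hHE haH (hvt j hj)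
        (fun m h1 h2 t ht => by
          by_contra hcon
          rw [not_le] at hcon
          apply hjB
          rw [hBad, mem_biUnion]
          refine ⟨m, mem_Icc.2 ⟨h1, h2⟩, ?_⟩
          rw [hBm, mem_filter]
          exact ⟨hj, t, ht, hcon⟩)
      refine le_trans (le_of_eq ?_) h1
      congr 1
      apply sum_congr rfl
      intro n _
      rw [hu]
      push_cast
      simp only [add_assoc]
  refine (norm_sum_le _ _).trans ((sum_le_sum hblk).trans ?_)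
  rw [sum_add_distrib, sum_const, card_range, nsmul_eq_mul, ← sum_filter, sum_const, nsmul_eq_mul]
  have hc1 : (((range J).filter (fun j => j ∈ Bad)).card : ℝ) ≤ 2 * I * (Q + 2) := by
    refine le_trans ?_ hBadc
    have : (range J).filter (fun j => j ∈ Bad) ⊆ Bad := fun j hj => (mem_filter.1 hj).2
    exact_mod_cast card_le_card this
  have hb1 : (((range J).filter (fun j => j ∈ Bad)).card : ℝ) * N ≤ ε / 4 * X := by
    calc _ ≤ (2 * (I : ℝ) * (Q + 2)) * (β * X) := by gcongr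
      _ = ((2 * (I : ℝ) * (Q + 2)) * β) * X := by ring
      _ ≤ _ := by gcongr
  have hb2 : (J : ℝ) * (C * (N / H)) ≤ ε / 4 * X := by
    have h1 : (N : ℝ) / H ≤ X / (3 / β * C / (ε / 4)) := by
      gcongr
    calc (J : ℝ) * (C * (N / H)) ≤ 3 / β * (C * (X / (3 / β * C / (ε / 4)))) := by gcongr
      _ = ε / 4 * X := by field_simp
  have hb3 : (J : ℝ) * (C * (N : ℝ) ^ (1 - η)) ≤ ε / 4 * X := by
    have h1 : (N : ℝ) ^ (1 - η) ≤ X * (X : ℝ) ^ (-η) := by
      calc (N : ℝ) ^ (1 - η) ≤ (X : ℝ) ^ (1 - η) :=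
            Real.rpow_le_rpow (by linarith) hNX (by linarith)
        _ = X * (X : ℝ) ^ (-η) := by
            rw [sub_eq_add_neg, Real.rpow_add hX0, Real.rpow_one]
    have h2 := hX₂ X (by omega)
    have h3 : 0 ≤ (X : ℝ) ^ (-η) := by positivity
    calc (J : ℝ) * (C * (N : ℝ) ^ (1 - η)) ≤
        3 / β * (C * (X * (ε / 4 / (3 / β * C)))) := by
          have h4 : (N : ℝ) ^ (1 - η) ≤ X * (ε / 4 / (3 / β * C)) := h1.trans (by gcongr)
          gcongr
      _ = ε / 4 * X := by field_simp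
  have h5 : (J : ℝ) * (C * (N / H + (N : ℝ) ^ (1 - η))) =
      (J : ℝ) * (C * (N / H)) + (J : ℝ) * (C * (N : ℝ) ^ (1 - η)) := by ring
  have h6 : 0 < ε / 4 * X := by positivity
  rw [h5]
  linarith

end Pool.Agent.V5helper42.EP
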