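import Pool.Agent.V5helper42.EP.Pair
import Pool.Agent.W208.TL.All

/-!
# The case of large moments: Katai's criterion
-/

set_option autoImplicit false

namespace Pool.Agent.V5helper42.EP

open Finset
open Pool.Agent.W208.TL (nit lf KF)

/-- the test function -/
noncomputable def FT {k : ℕ} (a : Fin k → ℤ) (t : Fin k → ℝ) (ρ : ℕ → ℂ) (n : ℕ) : ℂ :=
  ρ n * Complex.exp (Complex.I * (ph a t n : ℝ))

lemma FT_norm {k : ℕ} (a : Fin k → ℤ) (t : Fin k → ℝ) {ρ : ℕ → ℂ} (hρ : ∀ n, ‖ρ n‖ ≤ 1) (n : ℕ) :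
    ‖FT a t ρ n‖ ≤ 1 := by
  unfold FT
  rw [norm_mul, norm_expI, mul_one]
  exact hρ n

theorem nondeg {k : ℕ} (a : Fin k → ℤ) (E D I : ℕ) (hD : 1 ≤ D) (hI : E + 1 ≤ I) (ε : ℝ)
    (hε : 0 < ε) : ∃ K : ℝ, 0 < K ∧ ∃ N₀ : ℕ, ∀ N : ℕ, N₀ ≤ N → ∀ t : Fin k → ℝ,
      (∀ j, |t j| ≤ (N : ℝ) ^ E) → (∃ i ∈ Icc 1 I, K * (N : ℝ) ^ i ≤ |mom a t i|) →
      ∀ ρ : ℕ → ℂ, (∀ n, ‖ρ n‖ ≤ 1) → (∀ n, ρ (n + D) = ρ n) → ∀ f : ℕ → ℂ, KF f →
      ‖∑ n ∈ Ioc 0 N, f n * FT a t ρ n‖ ≤ ε * N := by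
  obtain ⟨B, hBdef⟩ : ∃ B : ℕ, B = ∑ j, (a j).natAbs := ⟨_, rfl⟩
  have hB : ∀ j, (a j).natAbs ≤ B := by
    intro j
    rw [hBdef]
    exact single_le_sum (f := fun j => (a j).natAbs) (fun _ _ => Nat.zero_le _) (mem_univ j)
  obtain ⟨P, hP, δ, hδ0, hδ1, N₁, hKat⟩ := Pool.Agent.W699.TLKat.kat ε B hε
  obtain ⟨S, hSdef⟩ : ∃ S : ℕ, S = ∑ p ∈ P, p := ⟨_, rfl⟩
  have hS : ∀ p ∈ P, p ≤ S := by
    intro p hp
    rw [hSdef]
    exact single_le_sum (f := fun p => p) (fun _ _ => Nat.zero_le _) hp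
  obtain ⟨K, hK, X₀, hph⟩ := phase_sum I (E + 1) D hD (δ / 8) (δ / 8) (by positivity) (by linarith)
    (by positivity)
  obtain ⟨N₂, hN₂⟩ := exists_nat_ge (4 * k * (4 * B / δ) ^ (I + 1) / (δ / 8))
  obtain ⟨N₃, hN₃⟩ := exists_nat_ge (8 / δ + 8 * B / δ)
  refine ⟨K * (I * ((S : ℝ) + 1) ^ (2 * I)) * 2 ^ I, ?_, N₁ + N₂ + N₃ + X₀ + D + k + B + 1, ?_⟩
  · have : (1 : ℝ) ≤ I := by exact_mod_cast (by omega : 1 ≤ I)
    positivity
  intro N hN t ht hbig ρ hρ hper f hf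
  have hNr : (1 : ℝ) ≤ N := by exact_mod_cast (by omega : 1 ≤ N)
  have hN2r : (N₂ : ℝ) ≤ N := by exact_mod_cast (by omega : N₂ ≤ N)
  have hN3r : (N₃ : ℝ) ≤ N := by exact_mod_cast (by omega : N₃ ≤ N)
  have hk0 : (0 : ℝ) ≤ k := Nat.cast_nonneg _
  have hB0 : (0 : ℝ) ≤ B := Nat.cast_nonneg _
  have hδN : 8 + 8 * B ≤ δ * N := by
    have h1 : 8 / δ + 8 * B / δ ≤ N := hN₃.trans hN3r
    rw [← add_div, div_le_iff₀ hδ0] at h1
    linarith
  refine hKat N (by omega) (FT a t ρ) (FT_norm a t hρ) ?_ f hf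
  intro p hp q hq hpq M hM1 hM2
  have hp1 := (hP p hp).1.one_le
  have hq1 := (hP q hq).1.one_le
  have hM2r : (M : ℝ) ≤ N := by exact_mod_cast hM2
  -- the starting point
  obtain ⟨M₁, hM₁⟩ : ∃ M₁ : ℕ, M₁ = ⌈δ * N / 4⌉₊ := ⟨_, rfl⟩
  have hM1a : δ * N / 4 ≤ M₁ := by rw [hM₁]; exact Nat.le_ceil _
  have hM1b : (M₁ : ℝ) ≤ δ * N / 4 + 1 := by
    rw [hM₁]
    exact (Nat.ceil_lt_add_one (by positivity)).le
  have hM1M : M₁ ≤ M := by
    have : (M₁ : ℝ) ≤ M := by linarith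
    exact_mod_cast this
  have hBM : 2 * B ≤ M₁ := by
    have : (2 : ℝ) * B ≤ M₁ := by linarith
    exact_mod_cast this
  -- the phase
  obtain ⟨c, hc⟩ : ∃ c : ℂ, c = Complex.exp (Complex.I *
    (((∑ j, t j) * (Real.log p - Real.log q) : ℝ) : ℂ)) := ⟨_, rfl⟩
  have hc1 : ‖c‖ = 1 := by rw [hc]; exact norm_expI _
  obtain ⟨τ, hτ⟩ : ∃ τ : ℕ → ℂ, τ = fun m => ρ (p * m) * star (ρ (q * m)) * c := ⟨_, rfl⟩
  have hτ1 : ∀ m, ‖τ m‖ ≤ 1 := by
    intro m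
    rw [hτ]
    simp only
    rw [norm_mul, norm_mul, hc1, mul_one, norm_star]
    calc ‖ρ (p * m)‖ * ‖ρ (q * m)‖ ≤ 1 * 1 := mul_le_mul (hρ _) (hρ _) (norm_nonneg _) zero_le_one
      _ = 1 := one_mul 1
  have hτ2 : ∀ m, τ (m + D) = τ m := by
    intro m
    rw [hτ]
    simp only
    have h1 : ∀ r : ℕ, ρ (r * (m + D)) = ρ (r * m) := by
      intro r
      rw [mul_add, mul_comm r D]
      exact per_add hper _ _
    rw [h1, h1]
  have hval : ∀ m ∈ Ioc M₁ M, ‖FT a t ρ (p * m) * star (FT a t ρ (q * m)) -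
      τ m * Complex.exp (Complex.I * (psi (bb a t p q (2 * N)) I 0 (m / ((2 * N : ℕ) : ℝ)) : ℝ))‖ ≤
      δ / 8 := by
    intro m hm
    rw [mem_Ioc] at hm
    have hmr : δ * N / 4 ≤ m := hM1a.trans (by exact_mod_cast hm.1.le)
    have hm0 : (0 : ℝ) < m := lt_of_lt_of_le (by positivity) hmr
    have h1 : FT a t ρ (p * m) * star (FT a t ρ (q * m)) = ρ (p * m) * star (ρ (q * m)) *
        Complex.exp (Complex.I * ((ph a t (p * m) - ph a t (q * m) : ℝ) : ℂ)) := by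
      unfold FT
      rw [star_mul', star_expI, sub_eq_add_neg, ← mul_expI]
      ring
    have h2 : τ m * Complex.exp (Complex.I * (psi (bb a t p q (2 * N)) I 0 (m / ((2 * N : ℕ) : ℝ)) : ℝ)) =
        ρ (p * m) * star (ρ (q * m)) * Complex.exp (Complex.I * (((∑ j, t j) *
          (Real.log p - Real.log q) + psi (bb a t p q (2 * N)) I 0 (m / ((2 * N : ℕ) : ℝ)) : ℝ) : ℂ)) := by
      rw [hτ, ← mul_expI, hc]
      ring
    rw [h1, h2, ← mul_sub, norm_mul]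
    have h3 : ‖ρ (p * m) * star (ρ (q * m))‖ ≤ 1 := by
      rw [norm_mul, norm_star]
      calc ‖ρ (p * m)‖ * ‖ρ (q * m)‖ ≤ 1 * 1 := mul_le_mul (hρ _) (hρ _) (norm_nonneg _) zero_le_one
        _ = 1 := one_mul 1
    have h4 := pair_phase I a t (p := p) (q := q) (m := m) (X := 2 * N) hB hp1 hq1 (by omega)
      (by omega) (by omega) ht
    have h5 := (exp_diff _ _).trans h4
    refine (mul_le_mul h3 h5 (norm_nonneg _) zero_le_one).trans ?_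
    rw [one_mul]
    have h6 : (B : ℝ) / m ≤ 4 * B / δ / N := by
      rw [div_div, div_le_div_iff₀ hm0 (by positivity)]
      nlinarith
    have h7 : ((B : ℝ) / m) ^ (I + 1) ≤ (4 * B / δ) ^ (I + 1) / (N : ℝ) ^ (I + 1) := by
      rw [← div_pow]
      exact pow_le_pow_left₀ (by positivity) h6 _
    have h8 : (N : ℝ) ^ E * N ≤ (N : ℝ) ^ (I + 1) := by
      rw [← pow_succ]
      exact pow_le_pow_right₀ hNr (by omega)
    have h9 : 4 * k * (4 * B / δ) ^ (I + 1) / (δ / 8) ≤ N := hN₂.trans hN2r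
    rw [div_le_iff₀ (by positivity)] at h9
    calc (k : ℝ) * (N : ℝ) ^ E * (4 * ((B : ℝ) / m) ^ (I + 1)) ≤
        k * (N : ℝ) ^ E * (4 * ((4 * B / δ) ^ (I + 1) / (N : ℝ) ^ (I + 1))) := by gcongr
      _ = (4 * k * (4 * B / δ) ^ (I + 1)) * (N : ℝ) ^ E / (N : ℝ) ^ (I + 1) := by ring
      _ ≤ (N * (δ / 8)) * (N : ℝ) ^ E / (N : ℝ) ^ (I + 1) := by gcongr
      _ = (δ / 8) * ((N : ℝ) ^ E * N / (N : ℝ) ^ (I + 1)) := by ring
      _ ≤ (δ / 8) * 1 := by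
          apply mul_le_mul_of_nonneg_left _ (by positivity)
          rw [div_le_one (by positivity)]
          exact h8
      _ = δ / 8 := mul_one _
  -- the sum over the phase
  have hmain := hph (2 * N) (by omega) (bb a t p q (2 * N)) (fun i hi => by
      rw [mem_Icc] at hi
      refine (bb_le a t hi.1 hB hp1 hq1 (by omega) (by omega) (by positivity) ht).trans ?_
      have h1 : (k : ℝ) ≤ N := by exact_mod_cast (by omega : k ≤ N)
      have h2 : (N : ℝ) ≤ ((2 * N : ℕ) : ℝ) := by exact_mod_cast (by omega : N ≤ 2 * N)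
      calc 2 * (k : ℝ) * (N : ℝ) ^ E ≤ 2 * (N : ℝ) * (N : ℝ) ^ E := by gcongr
        _ = ((2 * N : ℕ) : ℝ) * (N : ℝ) ^ E := by push_cast; ring
        _ ≤ ((2 * N : ℕ) : ℝ) * ((2 * N : ℕ) : ℝ) ^ E := by gcongr
        _ = _ := by rw [pow_succ]; ring) (by
      obtain ⟨i, hi, hi2⟩ := hbig
      refine ⟨i, hi, ?_⟩
      have h1 : K * (I * ((S : ℝ) + 1) ^ (2 * I)) * (((2 * N : ℕ) : ℝ)) ^ i ≤ |mom a t i| := by
        refine le_trans ?_ hi2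
        rw [mem_Icc] at hi
        push_cast
        rw [mul_pow]
        have h2 : (2 : ℝ) ^ i ≤ 2 ^ I := pow_le_pow_right₀ (by norm_num) hi.2
        calc K * (I * ((S : ℝ) + 1) ^ (2 * I)) * (2 ^ i * (N : ℝ) ^ i)
            ≤ K * (I * ((S : ℝ) + 1) ^ (2 * I)) * (2 ^ I * (N : ℝ) ^ i) := by gcongr
          _ = _ := by ring
      have h2 := bb_ge a t (I := I) (S := S + 1) (p := p) (q := q) (X := 2 * N) hi hp1 hq1 hpq
        ((hS p hp).trans (Nat.le_succ _)) ((hS q hq).trans (Nat.le_succ _)) (by omega)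
        (by positivity) h1
      refine le_trans (le_of_eq ?_) h2
      have : (I : ℝ) ≠ 0 := by exact_mod_cast (by omega : I ≠ 0)
      push_cast
      field_simp) τ hτ1 hτ2 M₁ M hM1M (by push_cast; linarith) (by omega)
  have hsplit : ∑ m ∈ Ioc 0 M, FT a t ρ (p * m) * star (FT a t ρ (q * m)) =
      ∑ m ∈ Ioc 0 M₁, FT a t ρ (p * m) * star (FT a t ρ (q * m)) +
      ∑ m ∈ Ioc M₁ M, FT a t ρ (p * m) * star (FT a t ρ (q * m)) := by
    rw [← sum_union]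
    · congr 1
      exact (Ioc_union_Ioc_eq_Ioc (Nat.zero_le _) hM1M).symm
    · rw [disjoint_left]
      intro n h1 h2
      rw [mem_Ioc] at h1 h2
      omega
  have hone : ∀ m, ‖FT a t ρ (p * m) * star (FT a t ρ (q * m))‖ ≤ 1 := by
    intro m
    rw [norm_mul, norm_star]
    calc _ ≤ (1 : ℝ) * 1 := mul_le_mul (FT_norm a t hρ _) (FT_norm a t hρ _) (norm_nonneg _)
          zero_le_one
      _ = 1 := one_mul 1
  have h1 : ‖∑ m ∈ Ioc 0 M₁, FT a t ρ (p * m) * star (FT a t ρ (q * m))‖ ≤ M₁ := by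
    refine (norm_sum_le _ _).trans ((sum_le_sum fun m _ => hone m).trans ?_)
    simp
  have h2 : ‖∑ m ∈ Ioc M₁ M, FT a t ρ (p * m) * star (FT a t ρ (q * m))‖ ≤
      δ / 8 * N + δ / 8 * (2 * N : ℕ) := by
    have h3 : ∑ m ∈ Ioc M₁ M, FT a t ρ (p * m) * star (FT a t ρ (q * m)) =
        ∑ m ∈ Ioc M₁ M, (FT a t ρ (p * m) * star (FT a t ρ (q * m)) - τ m *
          Complex.exp (Complex.I * (psi (bb a t p q (2 * N)) I 0 (m / ((2 * N : ℕ) : ℝ)) : ℝ))) +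
        ∑ m ∈ Ioc M₁ M, τ m *
          Complex.exp (Complex.I * (psi (bb a t p q (2 * N)) I 0 (m / ((2 * N : ℕ) : ℝ)) : ℝ)) := by
      rw [← sum_add_distrib]
      apply sum_congr rfl
      intro m _
      ring
    rw [h3]
    refine (norm_add_le _ _).trans (add_le_add ?_ hmain)
    refine (norm_sum_le _ _).trans ((sum_le_card_nsmul _ _ _ hval).trans ?_)
    rw [nsmul_eq_mul, Nat.card_Ioc, mul_comm]
    have : ((M - M₁ : ℕ) : ℝ) ≤ N := by exact_mod_cast (by omega : M - M₁ ≤ N)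
    gcongr
  rw [hsplit]
  refine (norm_add_le _ _).trans ?_
  push_cast at h2
  linarith

end Pool.Agent.V5helper42.EP
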