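import Pool.Agent.V5helper42.EP.Near3
import Pool.Agent.V5helper42.EP.Nondeg
import Pool.Agent.V5helper42.EP.Deg2
import Pool.Agent.V5helper42.EP.Lag

/-! # Assembly, first part -/

set_option autoImplicit false

namespace Pool.Agent.V5helper42.EP

open Finset
open Pool.Agent.W208.TL (nit lf KF PP mem_PP Mul1)
open Pool.Agent.Y868.VR (MB)

theorem MB_Mul1 {g : ArithmeticFunction ℂ} (hg : MB g) : Mul1 (fun n => g n) :=
  ⟨hg.bdd, hg.mult.map_one, fun _ _ hmn => hg.mult.map_mul_of_coprime hmn⟩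

theorem MB_KF {g : ArithmeticFunction ℂ} (hg : MB g) : KF (fun n => g n) := by
  refine ⟨hg.bdd, fun n => g n, fun n => g n, hg.bdd, hg.bdd, fun p n hp hd => ?_⟩
  exact hg.mult.map_mul_of_coprime ((Nat.Prime.coprime_iff_not_dvd hp).2 hd)

theorem shift_eq {M : Type*} [AddCommMonoid M] (G : ℕ → M) (N h : ℕ) :
    ∑ n ∈ Icc 1 N, G (n + h) = ∑ m ∈ Ioc h (N + h), G m := by
  refine sum_bij (fun n _ => n + h) ?_ ?_ ?_ ?_
  · intro n hn
    rw [mem_Icc] at hn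
    rw [mem_Ioc]
    omega
  · intro a _ b _ hab
    simpa using hab
  · intro m hm
    rw [mem_Ioc] at hm
    exact ⟨m - h, mem_Icc.2 ⟨by omega, by omega⟩, by omega⟩
  · intro n _
    rfl

/-- shifting a sum of nonnegative terms -/
theorem shift_le {G : ℕ → ℝ} (h0 : ∀ n, 0 ≤ G n) (h2 : ∀ n, G n ≤ 2) (N h : ℕ) :
    ∑ n ∈ Icc 1 N, G (n + h) ≤ ∑ n ∈ Ioc 0 N, G n + 2 * h := by
  rw [shift_eq]
  have h1 : ∑ m ∈ Ioc h (N + h), G m ≤ ∑ m ∈ Ioc 0 (N + h), G m :=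
    sum_le_sum_of_subset_of_nonneg (Ioc_subset_Ioc_left (Nat.zero_le _)) (fun n _ _ => h0 n)
  rw [← sum_Ioc_consecutive G (Nat.zero_le N) (Nat.le_add_right N h)] at h1
  have h3 : ∑ m ∈ Ioc N (N + h), G m ≤ 2 * h := by
    refine (sum_le_sum fun m _ => h2 m).trans ?_
    rw [sum_const, Nat.card_Ioc, nsmul_eq_mul, Nat.add_sub_cancel_left]
    linarith
  linarith

/-- shifting a sum of bounded terms -/
theorem shift_norm {G : ℕ → ℂ} (h1 : ∀ n, ‖G n‖ ≤ 1) (N b : ℕ) :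
    ‖∑ n ∈ Icc 1 N, G (n + b)‖ ≤ ‖∑ n ∈ Ioc 0 N, G n‖ + 2 * b := by
  rw [shift_eq]
  have e1 := sum_Ioc_consecutive G (Nat.zero_le b) (Nat.le_add_left b N)
  have e2 := sum_Ioc_consecutive G (Nat.zero_le N) (Nat.le_add_right N b)
  have e3 : ∑ m ∈ Ioc b (N + b), G m = ∑ n ∈ Ioc 0 N, G n + ∑ n ∈ Ioc N (N + b), G n -
      ∑ n ∈ Ioc 0 b, G n := by
    rw [e2, ← e1]; ring
  rw [e3]
  have h3 : ‖∑ m ∈ Ioc N (N + b), G m‖ ≤ b := by
    refine (norm_sum_le _ _).trans ((sum_le_sum fun m _ => h1 m).trans ?_)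
    rw [sum_const, Nat.card_Ioc, nsmul_eq_mul, Nat.add_sub_cancel_left]
    linarith
  have h4 : ‖∑ m ∈ Ioc 0 b, G m‖ ≤ b := by
    refine (norm_sum_le _ _).trans ((sum_le_sum fun m _ => h1 m).trans ?_)
    rw [sum_const, Nat.card_Ioc, nsmul_eq_mul, Nat.sub_zero]
    linarith
  have h5 := norm_sub_le (∑ n ∈ Ioc 0 N, G n + ∑ n ∈ Ioc N (N + b), G n) (∑ n ∈ Ioc 0 b, G n)
  have h6 := norm_add_le (∑ n ∈ Ioc 0 N, G n) (∑ n ∈ Ioc N (N + b), G n)
  linarith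

theorem cpow_nit {p : ℕ} (hp : p ≠ 0) (t : ℝ) : (p : ℂ) ^ ((t : ℂ) * Complex.I) = nit t p := by
  unfold nit
  rw [Complex.cpow_def_of_ne_zero (by exact_mod_cast hp), ← Complex.natCast_log]
  congr 1
  push_cast
  ring

theorem star_nit (t : ℝ) (n : ℕ) : star (nit t n) = nit (-t) n := by
  unfold nit
  rw [star_expI]
  congr 2
  push_cast
  ring

theorem nit_add (s t : ℝ) (n : ℕ) : nit (s + t) n = nit s n * nit t n := by
  unfold nit
  rw [mul_expI]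
  congr 2
  push_cast
  ring

theorem nit_zero' (n : ℕ) : nit 0 n = 1 := by
  unfold nit
  simp

theorem nit_neg_mul (t : ℝ) (n : ℕ) : nit (-t) n * nit t n = 1 := by
  rw [← nit_add, neg_add_cancel, nit_zero']

/-- the squared distance over the primes of `(P, N]` -/
noncomputable def dsq (f : ArithmeticFunction ℂ) {q : ℕ} (χ : DirichletCharacter ℂ q) (t : ℝ)
    (P N : ℕ) : ℝ :=
  ∑ p ∈ (Ioc P N).filter Nat.Prime,
    (1 - (f p * (starRingEnd ℂ) (χ (p : ZMod q) * (p : ℂ) ^ ((t : ℂ) * Complex.I))).re) / (p : ℝ)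

theorem dsq_eq (f : ArithmeticFunction ℂ) {q : ℕ} (χ : DirichletCharacter ℂ q) (t : ℝ) (P N : ℕ) :
    dsq f χ t P N = ∑ p ∈ PP P N, (1 - (gt f (-t) p * star (χ (p : ZMod q))).re) / (p : ℝ) := by
  unfold dsq
  refine sum_congr rfl fun p hp => ?_
  have hp0 : p ≠ 0 := (mem_filter.1 hp).2.ne_zero
  rw [cpow_nit hp0, gt_apply, ← star_nit]
  congr 3
  rw [map_mul]
  simp only [Complex.star_def]
  ring

/-- the hypothesis of the problem gives the hypothesis of Halasz's theorem -/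
theorem far_of {f : ArithmeticFunction ℂ} {N D : ℕ} {A R T Bd M : ℝ} (hA0 : 0 < A)
    (hyp : ∀ q : ℕ, 1 ≤ q → (q : ℝ) ≤ A → ∀ χ : DirichletCharacter ℂ q, ∀ t : ℝ, |t| ≤ R →
      A ≤ Real.sqrt (dsq f χ t 0 N)) (hD : (D : ℝ) ≤ A) (hM : M ≤ A ^ 2) (hR : Bd + |T| ≤ R) :
    Far (gt f T) D N Bd M := by
  intro q' hq1 hq2 χ y hy
  have h1 : (q' : ℝ) ≤ A := by
    have : (q' : ℝ) ≤ D := by exact_mod_cast hq2
    linarith
  have h2 : |y - T| ≤ R := by
    have := abs_sub y T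
    linarith
  have h3 := hyp q' hq1 h1 χ⁻¹ (y - T) h2
  have h4 : dsq f χ⁻¹ (y - T) 0 N = dist2 (fun n => gt f T n * χ (n : ZMod q')) N y := by
    unfold dsq dist2
    refine sum_congr rfl fun p hp => ?_
    have hp0 : p ≠ 0 := (mem_filter.1 hp).2.ne_zero
    unfold Pool.Agent.Y868.VR.gg
    rw [cpow_nit hp0, add_zero, Real.rpow_neg_one, ← MulChar.star_eq_inv, MulChar.star_apply]
    have e1 : (p : ℂ) ^ (-((y : ℂ) * Complex.I)) = nit (-y) p := by
      rw [← cpow_nit hp0]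
      congr 1
      push_cast
      ring
    have e2 : (starRingEnd ℂ) (star (χ (p : ZMod q')) * nit (y - T) p) =
        χ (p : ZMod q') * (nit (-y) p * nit T p) := by
      rw [map_mul, ← nit_add]
      have e3 : (starRingEnd ℂ) (star (χ (p : ZMod q'))) = χ (p : ZMod q') := star_star _
      have e4 : (starRingEnd ℂ) (nit (y - T) p) = nit (-(y - T)) p := star_nit _ _
      rw [e3, e4]
      congr 2
      ring
    have e5 : (fun n => gt f T n * χ (n : ZMod q')) p = f p * nit T p * χ (p : ZMod q') := rfl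
    rw [e1, e2, e5, div_eq_inv_mul]
    congr 3
    ring
  rw [← h4]
  have h6 : A ^ 2 ≤ dsq f χ⁻¹ (y - T) 0 N := by
    rcases le_or_gt 0 (dsq f χ⁻¹ (y - T) 0 N) with h7 | h7
    · calc A ^ 2 ≤ (Real.sqrt (dsq f χ⁻¹ (y - T) 0 N)) ^ 2 := pow_le_pow_left₀ hA0.le h3 2
        _ = _ := Real.sq_sqrt h7
    · rw [Real.sqrt_eq_zero_of_nonpos h7.le] at h3
      linarith
  linarith

end Pool.Agent.V5helper42.EP
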