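import Pool.Agent.V5helper42.EP.Fin

/-! # Assembly, second part -/

set_option autoImplicit false

namespace Pool.Agent.V5helper42.EP

open Finset
open Pool.Agent.W208.TL (nit lf KF PP mem_PP Mul1)
open Pool.Agent.Y868.VR (MB)

theorem prod_diff' {ι : Type*} [DecidableEq ι] {z w : ι → ℂ} (hz : ∀ l, ‖z l‖ ≤ 1) (hw : ∀ l, ‖w l‖ ≤ 1)
    (S : Finset ι) : ‖∏ l ∈ S, z l - ∏ l ∈ S, w l‖ ≤ ∑ l ∈ S, ‖z l - w l‖ := by
  induction S using Finset.induction_on with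
  | empty => simp
  | insert a S ha ih =>
    rw [prod_insert ha, prod_insert ha, sum_insert ha]
    have e : z a * ∏ l ∈ S, z l - w a * ∏ l ∈ S, w l
        = (z a - w a) * ∏ l ∈ S, w l + z a * (∏ l ∈ S, z l - ∏ l ∈ S, w l) := by ring
    rw [e]
    refine (norm_add_le _ _).trans ?_
    rw [norm_mul, norm_mul]
    have hp : ‖∏ l ∈ S, w l‖ ≤ 1 := by
      rw [norm_prod]
      exact Finset.prod_le_one (fun _ _ => norm_nonneg _) (fun l _ => hw l)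
    have h1 : ‖z a‖ * ‖∏ l ∈ S, z l - ∏ l ∈ S, w l‖ ≤ 1 * ‖∏ l ∈ S, z l - ∏ l ∈ S, w l‖ :=
      mul_le_mul_of_nonneg_right (hz a) (norm_nonneg _)
    have h2 : ‖z a - w a‖ * ‖∏ l ∈ S, w l‖ ≤ ‖z a - w a‖ * 1 :=
      mul_le_mul_of_nonneg_left hp (norm_nonneg _)
    linarith

/-- the shifts relative to `i₀` -/
def ash {k : ℕ} (h : Fin (k + 1) → ℕ) (i₀ : Fin (k + 1)) (j : Fin k) : ℤ :=
  (h (i₀.succAbove j) : ℤ) - h i₀

theorem lf_ash {k : ℕ} (h : Fin (k + 1) → ℕ) (i₀ : Fin (k + 1)) (j : Fin k) (n : ℕ) :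
    lf 1 (ash h i₀ j) (n + h i₀) = n + h (i₀.succAbove j) := by
  unfold lf ash
  push_cast
  have e : (1 : ℤ) * ((n : ℤ) + h i₀) + ((h (i₀.succAbove j) : ℤ) - h i₀) =
      ((n + h (i₀.succAbove j) : ℕ) : ℤ) := by
    push_cast; ring
  rw [e, Int.natAbs_natCast]

/-- the periodic factor -/
noncomputable def perf {k : ℕ} (h : Fin (k + 1) → ℕ) (i₀ : Fin (k + 1)) (D : ℕ) (ρ : Fin k → ℕ → ℂ)
    (m : ℕ) : ℂ := ∏ j, ρ j (((m : ℤ) + ash h i₀ j) % D).toNat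

theorem perf_norm {k : ℕ} (h : Fin (k + 1) → ℕ) (i₀ : Fin (k + 1)) (D : ℕ) {ρ : Fin k → ℕ → ℂ}
    (hρ : ∀ j n, ‖ρ j n‖ ≤ 1) (m : ℕ) : ‖perf h i₀ D ρ m‖ ≤ 1 := by
  unfold perf
  rw [norm_prod]
  exact Finset.prod_le_one (fun _ _ => norm_nonneg _) (fun j _ => hρ j _)

theorem perf_per {k : ℕ} (h : Fin (k + 1) → ℕ) (i₀ : Fin (k + 1)) (D : ℕ) (ρ : Fin k → ℕ → ℂ)
    (m : ℕ) : perf h i₀ D ρ (m + D) = perf h i₀ D ρ m := by
  unfold perf
  refine prod_congr rfl fun j _ => ?_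
  congr 2
  push_cast
  have e : (m : ℤ) + D + ash h i₀ j = (m : ℤ) + ash h i₀ j + D := by ring
  rw [e, Int.add_emod_right]

theorem perf_val {k : ℕ} (h : Fin (k + 1) → ℕ) (i₀ : Fin (k + 1)) (D : ℕ) {ρ : Fin k → ℕ → ℂ}
    (hper : ∀ j n, ρ j (n + D) = ρ j n) (n : ℕ) :
    perf h i₀ D ρ (n + h i₀) = ∏ j, ρ j (n + h (i₀.succAbove j)) := by
  unfold perf
  refine prod_congr rfl fun j _ => ?_
  have e : ((n + h i₀ : ℕ) : ℤ) + ash h i₀ j = ((n + h (i₀.succAbove j) : ℕ) : ℤ) := by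
    unfold ash
    push_cast; ring
  rw [e, ← Int.natCast_mod, Int.toNat_natCast]
  have hp : Function.Periodic (ρ j) D := hper j
  exact hp.map_mod_nat _

/-- replacing the companions by a periodic function -/
theorem approx {k : ℕ} (h : Fin (k + 1) → ℕ) (i₀ : Fin (k + 1)) {N D : ℕ}
    {f : Fin (k + 1) → ArithmeticFunction ℂ} (hf : ∀ i, MB (f i)) (t : Fin k → ℝ)
    {ρ : Fin k → ℕ → ℂ} (hρ : ∀ j n, ‖ρ j n‖ ≤ 1) (hper : ∀ j n, ρ j (n + D) = ρ j n) {κ : ℝ}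
    (hκ : ∀ j, ∑ n ∈ Ioc 0 N, ‖gt (f (i₀.succAbove j)) (-t j) n - ρ j n‖ ≤ κ) :
    ‖∑ n ∈ Icc 1 N, ∏ i, f i (n + h i)‖ ≤
      ‖∑ n ∈ Ioc 0 N, f i₀ n * FT (ash h i₀) t (perf h i₀ D ρ) n‖ + 2 * h i₀ +
        ∑ j : Fin k, (κ + 2 * h (i₀.succAbove j)) := by
  have hF1 : ∀ n, ‖f i₀ n * FT (ash h i₀) t (perf h i₀ D ρ) n‖ ≤ 1 := by
    intro n
    rw [norm_mul]
    calc _ ≤ (1 : ℝ) * 1 := mul_le_mul ((hf i₀).bdd n) (FT_norm _ _ (perf_norm h i₀ D hρ) n)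
          (norm_nonneg _) zero_le_one
      _ = 1 := one_mul 1
  have hsh := shift_norm hF1 N (h i₀)
  -- the difference
  have hpt : ∀ n ∈ Icc 1 N, ‖∏ i, f i (n + h i) -
      f i₀ (n + h i₀) * FT (ash h i₀) t (perf h i₀ D ρ) (n + h i₀)‖ ≤
      ∑ j : Fin k, ‖gt (f (i₀.succAbove j)) (-t j) (n + h (i₀.succAbove j)) -
        ρ j (n + h (i₀.succAbove j))‖ := by
    intro n _
    rw [Fin.prod_univ_succAbove _ i₀]
    have e1 : ∏ j : Fin k, f (i₀.succAbove j) (n + h (i₀.succAbove j)) =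
        (∏ j : Fin k, gt (f (i₀.succAbove j)) (-t j) (n + h (i₀.succAbove j))) *
          Complex.exp (Complex.I * (ph (ash h i₀) t (n + h i₀) : ℝ)) := by
      rw [← prod_nit, ← prod_mul_distrib]
      refine prod_congr rfl fun j _ => ?_
      rw [lf_ash, gt_apply, mul_assoc, nit_neg_mul, mul_one]
    have e2 : f i₀ (n + h i₀) * ∏ j : Fin k, f (i₀.succAbove j) (n + h (i₀.succAbove j)) -
        f i₀ (n + h i₀) * FT (ash h i₀) t (perf h i₀ D ρ) (n + h i₀) =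
        f i₀ (n + h i₀) * ((∏ j : Fin k, gt (f (i₀.succAbove j)) (-t j) (n + h (i₀.succAbove j)) -
          ∏ j : Fin k, ρ j (n + h (i₀.succAbove j))) *
            Complex.exp (Complex.I * (ph (ash h i₀) t (n + h i₀) : ℝ))) := by
      rw [e1]
      unfold FT
      rw [perf_val h i₀ D hper]
      ring
    rw [e2, norm_mul, norm_mul, norm_expI, mul_one]
    have h1 := prod_diff' (z := fun j => gt (f (i₀.succAbove j)) (-t j) (n + h (i₀.succAbove j)))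
      (w := fun j => ρ j (n + h (i₀.succAbove j))) (fun j => (gt_MB (hf _) _).bdd _)
      (fun j => hρ j _) (univ : Finset (Fin k))
    have h2 := mul_le_mul ((hf i₀).bdd (n + h i₀)) h1 (norm_nonneg _) zero_le_one
    rw [one_mul] at h2
    exact h2
  have e3 : ∑ n ∈ Icc 1 N, ∏ i, f i (n + h i) =
      ∑ n ∈ Icc 1 N, f i₀ (n + h i₀) * FT (ash h i₀) t (perf h i₀ D ρ) (n + h i₀) +
      ∑ n ∈ Icc 1 N, (∏ i, f i (n + h i) -
        f i₀ (n + h i₀) * FT (ash h i₀) t (perf h i₀ D ρ) (n + h i₀)) := by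
    rw [← sum_add_distrib]
    exact sum_congr rfl fun n _ => by ring
  have h4 : ‖∑ n ∈ Icc 1 N, (∏ i, f i (n + h i) -
        f i₀ (n + h i₀) * FT (ash h i₀) t (perf h i₀ D ρ) (n + h i₀))‖ ≤
      ∑ j : Fin k, (κ + 2 * h (i₀.succAbove j)) := by
    refine (norm_sum_le _ _).trans ((sum_le_sum hpt).trans ?_)
    rw [sum_comm]
    refine sum_le_sum fun j _ => ?_
    have h5 := shift_le (G := fun n => ‖gt (f (i₀.succAbove j)) (-t j) n - ρ j n‖)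
      (fun n => norm_nonneg _) (fun n => by
        refine (norm_sub_le _ _).trans ?_
        have h6 := (gt_MB (hf (i₀.succAbove j)) (-t j)).bdd n
        have h7 := hρ j n
        linarith) N (h (i₀.succAbove j))
    have h8 := hκ j
    linarith
  rw [e3]
  refine (norm_add_le _ _).trans ?_
  linarith

end Pool.Agent.V5helper42.EP
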