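import Pool.Agent.V5helper42.EP.Fin2

/-! # Assembly, third part -/

set_option autoImplicit false

namespace Pool.Agent.V5helper42.EP

open Finset
open Pool.Agent.W208.TL (nit lf KF PP mem_PP Mul1)
open Pool.Agent.Y868.VR (MB)

theorem dsq_split (f : ArithmeticFunction ℂ) (hf : MB f) {q : ℕ} (χ : DirichletCharacter ℂ q) (t : ℝ)
    {P N : ℕ} (hPN : P ≤ N) : dsq f χ t 0 N ≤ 2 * P + dsq f χ t P N := by
  have e : dsq f χ t 0 N = dsq f χ t 0 P + dsq f χ t P N := by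
    unfold dsq
    rw [← sum_union]
    · congr 1
      rw [← filter_union, Ioc_union_Ioc_eq_Ioc (Nat.zero_le _) hPN]
    · apply disjoint_filter_filter
      rw [disjoint_left]
      intro n h1 h2
      rw [mem_Ioc] at h1 h2
      omega
  rw [e]
  have h1 : dsq f χ t 0 P ≤ 2 * P := by
    rw [dsq_eq]
    have h2 : ∀ p ∈ PP 0 P, (1 - (gt f (-t) p * star (χ (p : ZMod q))).re) / (p : ℝ) ≤ 2 := by
      intro p hp
      have hp1 : (1 : ℝ) ≤ p := by exact_mod_cast (mem_PP.1 hp).2.one_le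
      rw [div_le_iff₀ (by linarith)]
      have h3 : ‖gt f (-t) p * star (χ (p : ZMod q))‖ ≤ 1 := by
        rw [norm_mul, norm_star]
        calc _ ≤ (1 : ℝ) * 1 :=
              mul_le_mul ((gt_MB hf _).bdd _) (DirichletCharacter.norm_le_one χ _) (norm_nonneg _) zero_le_one
          _ = 1 := one_mul 1
      have h4 := (abs_le.1 (Complex.abs_re_le_norm (gt f (-t) p * star (χ (p : ZMod q))))).1
      linarith
    refine (sum_le_sum h2).trans ?_
    rw [sum_const, nsmul_eq_mul]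
    have hcard : ((PP 0 P).card : ℝ) ≤ P := by
      have h : (PP 0 P).card ≤ P := by
        unfold PP
        refine (card_filter_le _ _).trans ?_
        rw [Nat.card_Ioc]; omega
      exact_mod_cast h
    linarith
  linarith

theorem main_one (k : ℕ) (h : Fin (k + 1) → ℕ) (hinj : Function.Injective h) (i₀ : Fin (k + 1))
    (ε : ℝ) (hε : 0 < ε) : ∃ η : ℝ, 0 < η ∧ ∀ C P : ℕ, ∃ A₀ : ℝ, ∀ A : ℝ, A₀ ≤ A → ∀ x : ℝ, A ≤ x →
    ∀ f : Fin (k + 1) → ArithmeticFunction ℂ, (∀ i, MB (f i)) →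
      (∀ q : ℕ, 1 ≤ q → (q : ℝ) ≤ A → ∀ χ : DirichletCharacter ℂ q, ∀ t : ℝ, |t| ≤ A * x ^ k →
        A ≤ Real.sqrt (dsq (f 0) χ t 0 ⌊x⌋₊)) →
      (∀ j, j ≠ i₀ → ∃ q : ℕ, 1 ≤ q ∧ q ≤ P ∧ ∃ χ : DirichletCharacter ℂ q, ∃ t : ℝ, |t| ≤ x ^ C ∧
        dsq (f j) χ t P ⌊x⌋₊ ≤ η) →
      ‖∑ n ∈ Icc 1 ⌊x⌋₊, ∏ i, f i (n + h i)‖ ≤ ε * x := by
  have hk8 : 0 < ε / (8 * (k + 1)) := by positivity
  obtain ⟨η, hη, hnp⟩ := near_per (ε / (8 * (k + 1))) hk8
  refine ⟨η, hη, fun C P => ?_⟩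
  obtain ⟨D, hD, X₀, hX₀⟩ := hnp P
  obtain ⟨I, hI⟩ : ∃ I : ℕ, I = (C + 1) + 1 + k := ⟨_, rfl⟩
  obtain ⟨K, hK, N₁, hN₁⟩ := nondeg (ash h i₀) (C + 1) D I hD (by omega) (ε / 4) (by positivity)
  obtain ⟨Bd, M, N₂, hN₂⟩ := deg (ash h i₀) (C + 1) D I hD (by omega) K (ε / 4) hK (by positivity)
  have hainj : Function.Injective (fun j : Fin k => (ash h i₀ j : ℝ)) := by
    intro j j' hjj
    have h0 : (ash h i₀ j : ℝ) = (ash h i₀ j' : ℝ) := hjj
    have h1 : ash h i₀ j = ash h i₀ j' := by exact_mod_cast h0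
    unfold ash at h1
    have h2 : h (i₀.succAbove j) = h (i₀.succAbove j') := by omega
    exact Fin.succAbove_right_injective (hinj h2)
  have ha0 : ∀ j : Fin k, (ash h i₀ j : ℝ) ≠ 0 := by
    intro j hj
    have h1 : ash h i₀ j = 0 := by exact_mod_cast hj
    unfold ash at h1
    have h2 : h (i₀.succAbove j) = h i₀ := by omega
    exact Fin.succAbove_ne i₀ j (hinj h2)
  obtain ⟨Cm, hCm, hmom⟩ := moments (fun j => (ash h i₀ j : ℝ)) hainj ha0
  obtain ⟨H, hH⟩ : ∃ H : ℕ, H = ∑ i, h i := ⟨_, rfl⟩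
  obtain ⟨N₃, hN₃⟩ := exists_nat_ge (8 * H / ε)
  have hP0 : (0 : ℝ) ≤ P := Nat.cast_nonneg _
  have hk0 : (0 : ℝ) ≤ k := Nat.cast_nonneg _
  have hkCK : 0 ≤ k * (Cm * K) := by positivity
  refine ⟨X₀ + N₁ + N₂ + N₃ + 2 ^ C + 3 + D + |M| + (|Bd| + k * (Cm * K)) + Cm * K + 2 * P + η, ?_⟩
  intro A hA x hx f hf hyp hcomp
  obtain ⟨N, hN⟩ : ∃ N : ℕ, N = ⌊x⌋₊ := ⟨_, rfl⟩
  rw [← hN] at hyp hcomp ⊢
  have hX0r : (0 : ℝ) ≤ X₀ := Nat.cast_nonneg _
  have hN1r : (0 : ℝ) ≤ N₁ := Nat.cast_nonneg _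
  have hN2r : (0 : ℝ) ≤ N₂ := Nat.cast_nonneg _
  have hN3r : (0 : ℝ) ≤ N₃ := Nat.cast_nonneg _
  have hDr : (0 : ℝ) ≤ D := Nat.cast_nonneg _
  have h2C : (0 : ℝ) < 2 ^ C := by positivity
  have hM0 := abs_nonneg M
  have hBd0 := abs_nonneg Bd
  have hCK : 0 < Cm * K := by positivity
  have hx0 : 0 ≤ x := by linarith
  have hNx : (N : ℝ) ≤ x := by rw [hN]; exact Nat.floor_le hx0
  have hxN : x < N + 1 := by rw [hN]; exact Nat.lt_floor_add_one x
  have hNX : X₀ ≤ N := by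
    have : (X₀ : ℝ) ≤ N := by linarith
    exact_mod_cast this
  have hNN1 : N₁ ≤ N := by
    have : (N₁ : ℝ) ≤ N := by linarith
    exact_mod_cast this
  have hNN2 : N₂ ≤ N := by
    have : (N₂ : ℝ) ≤ N := by linarith
    exact_mod_cast this
  have hNN3 : (N₃ : ℝ) ≤ N := by linarith
  have hPN : P ≤ N := by
    have : (P : ℝ) ≤ N := by linarith
    exact_mod_cast this
  have hN1 : (1 : ℝ) ≤ N := by linarith
  have h2CN : (2 : ℝ) ^ C ≤ N := by linarith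
  have hx1 : 1 ≤ x := by linarith
  -- the twists
  have hcomp' : ∀ j : Fin k, ∃ q : ℕ, 1 ≤ q ∧ q ≤ P ∧ ∃ χ : DirichletCharacter ℂ q, ∃ t : ℝ,
      |t| ≤ x ^ C ∧ dsq (f (i₀.succAbove j)) χ t P N ≤ η := fun j => hcomp _ (Fin.succAbove_ne i₀ j)
  choose q hq1 hqP χ t ht hd using hcomp'
  have htN : ∀ j, |t j| ≤ (N : ℝ) ^ (C + 1) := by
    intro j
    refine (ht j).trans ?_
    calc x ^ C ≤ (2 * N) ^ C := pow_le_pow_left₀ hx0 (by linarith) C
      _ = 2 ^ C * N ^ C := mul_pow _ _ _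
      _ ≤ N * N ^ C := mul_le_mul_of_nonneg_right h2CN (by positivity)
      _ = (N : ℝ) ^ (C + 1) := by ring
  have hρ : ∀ j : Fin k, ∃ ρ : ℕ → ℂ, (∀ n, ‖ρ n‖ ≤ 1) ∧ (∀ n, ρ (n + D) = ρ n) ∧
      ∑ n ∈ Ioc 0 N, ‖gt (f (i₀.succAbove j)) (-t j) n - ρ n‖ ≤ ε / (8 * (k + 1)) * N := by
    intro j
    have h1 := hd j
    rw [dsq_eq] at h1
    exact hX₀ N hNX _ (MB_Mul1 (gt_MB (hf _) _)) (q j) (hq1 j) (hqP j) (χ j) h1
  choose ρ hρ1 hρ2 hρ3 using hρ
  have happ := approx h i₀ hf t hρ1 hρ2 hρ3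
  -- the error terms
  have herr : 2 * (h i₀ : ℝ) + ∑ j : Fin k, (ε / (8 * (k + 1)) * N + 2 * h (i₀.succAbove j)) ≤
      ε / 2 * N := by
    rw [sum_add_distrib, sum_const, card_univ, Fintype.card_fin, nsmul_eq_mul, ← mul_sum]
    have h1 : (H : ℝ) = h i₀ + ∑ j : Fin k, (h (i₀.succAbove j) : ℝ) := by
      rw [hH, Fin.sum_univ_succAbove _ i₀]
      push_cast
      ring
    have h2 : (k : ℝ) * (ε / (8 * (k + 1)) * N) ≤ ε / 8 * N := by
      have h3 : (k : ℝ) * (ε / (8 * (k + 1))) ≤ ε / 8 := by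
        rw [mul_div_assoc', div_le_div_iff₀ (by positivity) (by positivity)]
        nlinarith
      calc (k : ℝ) * (ε / (8 * (k + 1)) * N) = (k : ℝ) * (ε / (8 * (k + 1))) * N := by ring
        _ ≤ ε / 8 * N := mul_le_mul_of_nonneg_right h3 (by linarith)
    have h4 : 8 * (H : ℝ) ≤ ε * N := by
      have h5 : 8 * (H : ℝ) / ε ≤ N := hN₃.trans hNN3
      rw [div_le_iff₀ hε] at h5
      linarith
    linarith
  have hfin : ‖∑ n ∈ Ioc 0 N, f i₀ n * FT (ash h i₀) t (perf h i₀ D ρ) n‖ ≤ ε / 4 * N →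
      ‖∑ n ∈ Icc 1 N, ∏ i, f i (n + h i)‖ ≤ ε * x := by
    intro h1
    have h2 : ε * N ≤ ε * x := mul_le_mul_of_nonneg_left hNx hε.le
    have h3 : 0 ≤ ε * N := by positivity
    linarith
  apply hfin
  by_cases hbig : ∃ i ∈ Icc 1 I, K * (N : ℝ) ^ i ≤ |mom (ash h i₀) t i|
  · exact hN₁ N hNN1 t htN hbig _ (perf_norm h i₀ D hρ1) (perf_per h i₀ D ρ) _ (MB_KF (hf i₀))
  · push Not at hbig
    have hsmall : ∀ i ∈ Icc 1 I, |mom (ash h i₀) t i| ≤ K * (N : ℝ) ^ i := fun i hi => (hbig i hi).le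
    have ht2 : ∀ j, |t j| ≤ Cm * (K * (N : ℝ) ^ k) := by
      refine hmom t (K * (N : ℝ) ^ k) (by positivity) fun i hi => ?_
      rw [mem_Icc] at hi
      refine (hsmall i (mem_Icc.2 ⟨hi.1, by omega⟩)).trans ?_
      exact mul_le_mul_of_nonneg_left (pow_le_pow_right₀ hN1 hi.2) hK.le
    have hNk : (N : ℝ) ^ k ≤ x ^ k := pow_le_pow_left₀ (by linarith) hNx k
    have hxk : 1 ≤ x ^ k := one_le_pow₀ hx1
    by_cases hi0 : i₀ = 0
    · have hT : |∑ j, t j| ≤ k * (Cm * K) * x ^ k := by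
        refine (abs_sum_le_sum_abs _ _).trans ((sum_le_sum fun j _ => ht2 j).trans ?_)
        rw [sum_const, card_univ, Fintype.card_fin, nsmul_eq_mul]
        calc (k : ℝ) * (Cm * (K * (N : ℝ) ^ k)) = k * (Cm * K) * (N : ℝ) ^ k := by ring
          _ ≤ k * (Cm * K) * x ^ k := mul_le_mul_of_nonneg_left hNk hkCK
      have hfar : Far (gt (f i₀) (∑ j, t j)) D N Bd M := by
        refine far_of (A := A) (R := A * x ^ k) (by linarith) ?_ (by linarith) ?_ ?_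
        · rw [hi0]
          exact hyp
        · have h1 : M ≤ |M| := le_abs_self M
          have h2 : (1 : ℝ) ≤ A := by linarith
          have h3 : A ≤ A ^ 2 := le_self_pow₀ h2 (by norm_num)
          linarith
        · have h1 : Bd ≤ |Bd| * x ^ k := (le_abs_self Bd).trans (le_mul_of_one_le_right hBd0 hxk)
          have h2 : (|Bd| + k * (Cm * K)) * x ^ k ≤ A * x ^ k :=
            mul_le_mul_of_nonneg_right (by linarith) (by linarith)
          rw [add_mul] at h2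
          linarith
      exact hN₂ N hNN2 t htN hsmall _ (perf_norm h i₀ D hρ1) (perf_per h i₀ D ρ) (f i₀) (hf i₀) hfar
    · exfalso
      obtain ⟨j, hj⟩ := Fin.exists_succAbove_eq (x := (0 : Fin (k + 1))) (y := i₀) (Ne.symm hi0)
      have h1 : (q j : ℝ) ≤ A := by
        have : (q j : ℝ) ≤ P := by exact_mod_cast hqP j
        linarith
      have h2 : |t j| ≤ A * x ^ k := by
        refine (ht2 j).trans ?_
        calc Cm * (K * (N : ℝ) ^ k) = (Cm * K) * (N : ℝ) ^ k := by ring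
          _ ≤ (Cm * K) * x ^ k := mul_le_mul_of_nonneg_left hNk hCK.le
          _ ≤ A * x ^ k := mul_le_mul_of_nonneg_right (by linarith) (by linarith)
      have h3 := hyp (q j) (hq1 j) h1 (χ j) (t j) h2
      have h4 := dsq_split (f 0) (hf 0) (χ j) (t j) hPN
      have h5 := hd j
      rw [hj] at h5
      have h6 : Real.sqrt (dsq (f 0) (χ j) (t j) 0 N) ≤ Real.sqrt (2 * P + η) :=
        Real.sqrt_le_sqrt (by linarith)
      have h7 : Real.sqrt (2 * P + η) < A := by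
        rw [Real.sqrt_lt' (by linarith)]
        have h8 : (1 : ℝ) ≤ A := by linarith
        have h9 : A ≤ A ^ 2 := le_self_pow₀ h8 (by norm_num)
        linarith
      linarith

end Pool.Agent.V5helper42.EP
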