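import Pool.Agent.K7.H83.MA.Hal

/-!
# Halasz's theorem at one scale, for completely multiplicative functions

Adapted from `Pool/Agent/K7/H83/MA/Hal.lean`: the hypothesis is used at one scale only.
-/

set_option autoImplicit false

namespace Pool.Agent.V5helper42.EP

open Finset Filter Topology MeasureTheory
open Pool.Agent.Y122.LT
open scoped ArithmeticFunction.vonMangoldt

/-- mean square of the derivative, at one scale -/
theorem sq_one (η : ℝ) (hη : 0 < η) : ∃ B θ₀ : ℝ, 2 ≤ B ∧ 0 < θ₀ ∧ θ₀ ≤ 1 ∧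
    ∀ a : ℕ → ℂ, CMC a → ∀ θ : ℝ, 0 < θ → θ < θ₀ →
      (∀ y : ℝ, |y| ≤ B → θ * ‖DS (tw a (1 + θ)) y‖ ≤ η) →
      Integrable (fun t => ‖S (al a) t‖ ^ 2 * Real.exp (-(2 * (1 + θ) * t))) ∧
      ∫ t, ‖S (al a) t‖ ^ 2 * Real.exp (-(2 * (1 + θ) * t)) ≤ 2 * CC ^ 2 * η ^ 2 / θ ^ 3 := by
  set B : ℝ := max 2 (16 / η ^ 2) with hB
  have hB2 : 2 ≤ B := le_max_left _ _
  have hB16 : 16 / B ≤ η ^ 2 := by
    rw [div_le_iff₀ (by linarith)]
    have h1 : 16 / η ^ 2 ≤ B := le_max_right _ _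
    rw [div_le_iff₀ (by positivity)] at h1
    linarith
  obtain ⟨θ₁, hθ₁, h1⟩ := Pool.Agent.K7.H83.MA.F_le_u
  refine ⟨B, min 1 θ₁, hB2, lt_min one_pos hθ₁, min_le_left _ _, fun a h θ hθ hθm h0 => ?_⟩
  have hθ' : θ < 1 := lt_of_lt_of_le hθm (min_le_left _ _)
  have hθ'' : θ < θ₁ := lt_of_lt_of_le hθm (min_le_right _ _)
  have hθ1 : θ ≤ 1 := by linarith
  have hσ : 0 < 1 + θ := by linarith
  have hs : 1 < ((1 + θ : ℝ) : ℂ).re := by simpa using hθ
  have hal0 : al a 0 = 0 := by simp [al]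
  have haL0 : aL a 0 = 0 := by simp [aL]
  have sal : Summable fun n => ‖tw (al a) (1 + θ) n‖ :=
    (tw_summable hal0).mpr (al_LSeries h hs).1
  have saL : Summable fun n => ‖tw (aL a) (1 + θ) n‖ :=
    (tw_summable haL0).mpr (aL_summable h.bdd hs)
  refine ⟨(time hal0 hσ sal).1, ?_⟩
  obtain ⟨d1, d2⟩ := D_sq h hθ hθ1 hB2
  have hprod : ∀ y, ‖DS (tw (al a) (1 + θ)) y‖ = ‖DS (tw a (1 + θ)) y‖ *
      ‖DS (tw (aL a) (1 + θ)) y‖ := by
    intro y
    rw [DS_eq hal0, DS_eq haL0, DS_eq h.zero, (al_LSeries h ?_).2, norm_mul]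
    simpa using hθ
  have hpt : ∀ y, ‖DS (tw (al a) (1 + θ)) y‖ ^ 2 * K (1 + θ) y ≤
      (η / θ) ^ 2 * (‖DS (tw (aL a) (1 + θ)) y‖ ^ 2 * K (1 + θ) y) +
      (16 / B / θ ^ 2) * (‖DS (tw (aL a) (1 + θ)) y‖ ^ 2 * K B y) := by
    intro y
    have hK1 := K_nonneg hσ y
    have hK2 := K_nonneg (show 0 < B by linarith) y
    rw [hprod, mul_pow]
    set D := ‖DS (tw (aL a) (1 + θ)) y‖ ^ 2 with hD
    have hD0 : 0 ≤ D := by positivity
    by_cases hy : |y| ≤ B
    · have h2 := h0 y hy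
      have h3 : ‖DS (tw a (1 + θ)) y‖ ≤ η / θ := by
        rw [le_div_iff₀ hθ]; linarith
      have h4 := pow_le_pow_left₀ (norm_nonneg _) h3 2
      have h5 : 0 ≤ (16 / B / θ ^ 2) * (D * K B y) := by positivity
      have h6 := mul_le_mul_of_nonneg_right h4 (show 0 ≤ D * K (1 + θ) y by positivity)
      linarith
    · rw [not_le] at hy
      have h2 := h1 a h θ hθ hθ'' y
      have h3 : ‖DS (tw a (1 + θ)) y‖ ≤ 2 / θ := by
        rw [le_div_iff₀ hθ]; linarith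
      have h4 := pow_le_pow_left₀ (norm_nonneg _) h3 2
      have h5 : 0 ≤ (η / θ) ^ 2 * (D * K (1 + θ) y) := by positivity
      have hyB : B ^ 2 ≤ y ^ 2 := by
        rw [← sq_abs y]; exact pow_le_pow_left₀ (by linarith) hy.le 2
      have h6 : K (1 + θ) y ≤ 4 / B * K B y := by
        have hB0 : 0 < B := by linarith
        unfold K
        rw [div_mul_div_comm, div_le_div_iff₀ (by positivity) (by positivity)]
        have : (1 + θ) * (B * (B ^ 2 + y ^ 2)) ≤ 2 * (B * (2 * y ^ 2)) := by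
          refine mul_le_mul (by linarith) ?_ (by positivity) (by norm_num)
          exact mul_le_mul_of_nonneg_left (by linarith) hB0.le
        have h7 : 2 * (B * (2 * y ^ 2)) ≤ 4 * B * ((1 + θ) ^ 2 + y ^ 2) := by
          have : 0 ≤ B * (1 + θ) ^ 2 := by positivity
          linarith
        linarith
      calc _ ≤ (2 / θ) ^ 2 * D * (4 / B * K B y) := by
            refine mul_le_mul (mul_le_mul_of_nonneg_right h4 hD0) h6 hK1 (by positivity)
        _ = (16 / B / θ ^ 2) * (D * K B y) := by ring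
        _ ≤ _ := by linarith
  have hint1 := DS_int sal hσ
  have hint2 := DS_int saL hσ
  have hint3 := DS_int saL (show 0 < B by linarith)
  have hI : ∫ y, ‖DS (tw (al a) (1 + θ)) y‖ ^ 2 * K (1 + θ) y ≤
      (η / θ) ^ 2 * (2 * Real.pi * CC ^ 2 / θ) + (16 / B / θ ^ 2) * (2 * Real.pi * CC ^ 2 / θ) := by
    calc _ ≤ ∫ y, ((η / θ) ^ 2 * (‖DS (tw (aL a) (1 + θ)) y‖ ^ 2 * K (1 + θ) y) +
      (16 / B / θ ^ 2) * (‖DS (tw (aL a) (1 + θ)) y‖ ^ 2 * K B y)) :=
          integral_mono hint1 ((hint2.const_mul _).add (hint3.const_mul _)) hpt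
      _ = (η / θ) ^ 2 * (∫ y, ‖DS (tw (aL a) (1 + θ)) y‖ ^ 2 * K (1 + θ) y) +
      (16 / B / θ ^ 2) * (∫ y, ‖DS (tw (aL a) (1 + θ)) y‖ ^ 2 * K B y) := by
          rw [integral_add (hint2.const_mul _) (hint3.const_mul _), integral_const_mul,
            integral_const_mul]
      _ ≤ _ := by
          refine add_le_add (mul_le_mul_of_nonneg_left d1 (by positivity))
            (mul_le_mul_of_nonneg_left d2 ?_)
          have : 0 < B := by linarith
          positivity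
  have hP := planch hal0 hσ sal
  change ∫ y, ‖DS (tw (al a) (1 + θ)) y‖ ^ 2 * K (1 + θ) y = _ at hP
  rw [hP] at hI
  have hpi := Real.pi_pos
  have hcc := CC_pos
  set X := ∫ t, ‖S (al a) t‖ ^ 2 * Real.exp (-(2 * (1 + θ) * t)) with hX
  have hX0 : 0 ≤ X := integral_nonneg fun t => by positivity
  have h8 : 2 * Real.pi * X ≤ 2 * Real.pi * (2 * CC ^ 2 * η ^ 2 / θ ^ 3) := by
    calc 2 * Real.pi * X ≤ 2 * Real.pi * (1 + θ) * X := by
          have : 0 ≤ 2 * Real.pi * X * θ := by positivity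
          nlinarith
      _ ≤ _ := hI
      _ = (η ^ 2 + 16 / B) * (2 * Real.pi * CC ^ 2 / θ ^ 3) := by
          have : B ≠ 0 := by linarith
          field_simp
      _ ≤ (η ^ 2 + η ^ 2) * (2 * Real.pi * CC ^ 2 / θ ^ 3) :=
          mul_le_mul_of_nonneg_right (by linarith) (by positivity)
      _ = _ := by ring
  exact le_of_mul_le_mul_left h8 (by positivity)

/-- the mean of the normalised partial sums over the scales is small, at one scale -/
theorem mean_one (ε : ℝ) (hε : 0 < ε) :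
    ∃ B η T₀ : ℝ, 0 < η ∧ 1 ≤ T₀ ∧ ∀ a : ℕ → ℂ, CMC a → ∀ T : ℝ, T₀ ≤ T →
      (∀ y : ℝ, |y| ≤ B → 1 / T * ‖DS (tw a (1 + 1 / T)) y‖ ≤ η) →
      ∫ t in (0 : ℝ)..T, m a t ≤ ε * T := by
  set ρ : ℝ := min (ε / 4) 1 with hρ
  have hρ0 : 0 < ρ := lt_min (by linarith) one_pos
  have hρε : ρ ≤ ε / 4 := min_le_left _ _
  have hρ1 : ρ ≤ 1 := min_le_right _ _
  set c : ℝ := 1 / 2 + Real.exp 2 * CC ^ 2 with hc
  have hc0 : 0 < c := by have := CC_pos; positivity
  set η : ℝ := ρ * (ε / 4) / c with hη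
  have hη0 : 0 < η := by positivity
  obtain ⟨B, δ₀, hB2, hδ₀, hδ₁, h1⟩ := sq_one η hη0
  refine ⟨B, η, max (2 / δ₀) (4 / (ρ * ε) + 1), hη0, le_max_of_le_right ?_,
    fun a h T hT h0 => ?_⟩
  · have : 0 < 4 / (ρ * ε) := by positivity
    linarith
  have hT1 : 2 / δ₀ ≤ T := (le_max_left _ _).trans hT
  have hT2 : 4 / (ρ * ε) + 1 ≤ T := (le_max_right _ _).trans hT
  have hT0 : 0 < T := by
    have : 0 < 4 / (ρ * ε) := by positivity
    linarith
  have hδT : 1 / T < δ₀ := by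
    rw [div_lt_iff₀ hT0]
    rw [div_le_iff₀ hδ₀] at hT1
    linarith
  obtain ⟨hi, hb⟩ := h1 a h (1 / T) (by positivity) hδT h0
  set q : ℝ → ℝ := fun t => ‖S (al a) t‖ ^ 2 * Real.exp (-(2 * (1 + 1 / T) * t)) with hq
  have hq0 : ∀ t, 0 ≤ q t := fun t => by rw [hq]; positivity
  have hqT : ∫ t in (0 : ℝ)..T, q t ≤ 2 * CC ^ 2 * η ^ 2 * T ^ 3 := by
    rw [intervalIntegral.integral_of_le hT0.le]
    refine (setIntegral_le_integral hi (Eventually.of_forall hq0)).trans (hb.trans (le_of_eq ?_))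
    field_simp
  have hsplit : ∫ t in (0 : ℝ)..T, m a t = (∫ t in (0 : ℝ)..(ρ * T), m a t) +
      ∫ t in (ρ * T)..T, m a t :=
    (intervalIntegral.integral_add_adjacent_intervals (m_ii h.bdd _ _) (m_ii h.bdd _ _)).symm
  have hρT : ρ * T ≤ T := by nlinarith
  have hρT0 : 0 < ρ * T := by positivity
  have hI1 : ∫ t in (0 : ℝ)..(ρ * T), m a t ≤ ρ * T := by
    have : ∫ t in (0 : ℝ)..(ρ * T), m a t ≤ ∫ t in (0 : ℝ)..(ρ * T), (1 : ℝ) :=
      intervalIntegral.integral_mono_on hρT0.le (m_ii h.bdd _ _) intervalIntegrable_const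
        fun t _ => m_le h.bdd t
    simpa using this
  have hqi : ∀ x y, IntervalIntegrable q volume x y := fun x y => hi.intervalIntegrable
  have hI2 : ∫ t in (ρ * T)..T, m a t ≤
      ∫ t in (ρ * T)..T, ((η / (2 * ρ) + 1 / (ρ * T)) + Real.exp 2 / (2 * η * ρ * T ^ 2) * q t) := by
    refine intervalIntegral.integral_mono_on hρT (m_ii h.bdd _ _)
      (intervalIntegrable_const.add ((hqi _ _).const_mul _)) fun t ht => ?_
    have ht0 : 0 < t := lt_of_lt_of_le hρT0 ht.1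
    have h2 := log_cmp h.bdd ht0.le
    set X := ‖S (al a) t‖ * Real.exp (-t) with hX
    have hX0 : 0 ≤ X := by positivity
    have h3 : ρ * T * m a t ≤ X + 1 :=
      (mul_le_mul_of_nonneg_right ht.1 (m_nonneg a t)).trans h2
    have h4 : X ≤ (η * T + X ^ 2 / (η * T)) / 2 := by
      have h5 : 0 < η * T := by positivity
      rw [le_div_iff₀ (by norm_num : (0 : ℝ) < 2), ← sub_nonneg]
      have : η * T + X ^ 2 / (η * T) - X * 2 = (η * T - X) ^ 2 / (η * T) := by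
        field_simp; ring
      rw [this]; positivity
    have h5 : X ^ 2 ≤ Real.exp 2 * q t := by
      rw [hX, hq, mul_pow]
      simp only
      have h6 : Real.exp (-t) ^ 2 ≤ Real.exp 2 * Real.exp (-(2 * (1 + 1 / T) * t)) := by
        rw [← Real.exp_nat_mul, ← Real.exp_add, Real.exp_le_exp]
        have h7 : t / T ≤ 1 := by rw [div_le_one hT0]; exact ht.2
        have h8 : 2 * (1 + 1 / T) * t = 2 * t + 2 * (t / T) := by ring
        rw [h8]; push_cast; linarith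
      calc _ ≤ ‖S (al a) t‖ ^ 2 * (Real.exp 2 * Real.exp (-(2 * (1 + 1 / T) * t))) :=
            mul_le_mul_of_nonneg_left h6 (by positivity)
        _ = _ := by ring
    have h6 : ρ * T * m a t ≤ η * T / 2 + 1 + Real.exp 2 * q t / (2 * (η * T)) := by
      have h7 : X ^ 2 / (η * T) ≤ Real.exp 2 * q t / (η * T) :=
        div_le_div_of_nonneg_right h5 (by positivity)
      have h8 : Real.exp 2 * q t / (2 * (η * T)) = Real.exp 2 * q t / (η * T) / 2 := by
        field_simp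
      rw [h8]; linarith
    have h7 : m a t ≤ (η * T / 2 + 1 + Real.exp 2 * q t / (2 * (η * T))) / (ρ * T) := by
      rw [le_div_iff₀ hρT0]; linarith
    refine h7.trans (le_of_eq ?_)
    field_simp
  have hI3 : ∫ t in (ρ * T)..T, ((η / (2 * ρ) + 1 / (ρ * T)) +
      Real.exp 2 / (2 * η * ρ * T ^ 2) * q t) ≤
      T * (η / (2 * ρ)) + 1 / ρ + Real.exp 2 / (2 * η * ρ * T ^ 2) *
        (2 * CC ^ 2 * η ^ 2 * T ^ 3) := by
    rw [intervalIntegral.integral_add intervalIntegrable_const ((hqi _ _).const_mul _),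
      intervalIntegral.integral_const, intervalIntegral.integral_const_mul, smul_eq_mul]
    have h2 : ∫ t in (ρ * T)..T, q t ≤ 2 * CC ^ 2 * η ^ 2 * T ^ 3 := by
      refine le_trans ?_ hqT
      have h3 : ∫ t in (0 : ℝ)..T, q t = (∫ t in (0 : ℝ)..(ρ * T), q t) +
        ∫ t in (ρ * T)..T, q t :=
        (intervalIntegral.integral_add_adjacent_intervals (hqi _ _) (hqi _ _)).symm
      have h4 : 0 ≤ ∫ t in (0 : ℝ)..(ρ * T), q t :=
        intervalIntegral.integral_nonneg hρT0.le fun t _ => hq0 t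
      linarith
    have h3 : (T - ρ * T) * (η / (2 * ρ) + 1 / (ρ * T)) ≤ T * (η / (2 * ρ)) + 1 / ρ := by
      calc _ ≤ T * (η / (2 * ρ) + 1 / (ρ * T)) :=
            mul_le_mul_of_nonneg_right (by linarith) (by positivity)
        _ = _ := by field_simp
    exact add_le_add h3 (mul_le_mul_of_nonneg_left h2 (by positivity))
  have hfin : T * (η / (2 * ρ)) + 1 / ρ + Real.exp 2 / (2 * η * ρ * T ^ 2) *
        (2 * CC ^ 2 * η ^ 2 * T ^ 3) = T * (η * c / ρ) + 1 / ρ := by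
    rw [hc]; field_simp; ring
  have hηc : η * c / ρ = ε / 4 := by rw [hη]; field_simp
  have h1ρ : 1 / ρ ≤ ε / 4 * T := by
    have h2 : 4 / (ρ * ε) ≤ T := by linarith
    rw [div_le_iff₀ (by positivity)] at h2
    rw [div_le_iff₀ hρ0]
    nlinarith
  have h5 : ρ * T ≤ ε / 4 * T := mul_le_mul_of_nonneg_right hρε hT0.le
  rw [hsplit]
  rw [hfin, hηc] at hI3
  have h6 : 0 < ε * T := by positivity
  linarith [hI1, hI2, hI3]

/-- the normalised partial sum at one scale -/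
theorem point_one (ε : ℝ) (hε : 0 < ε) :
    ∃ B η T₁ : ℝ, 0 < η ∧ 1 ≤ T₁ ∧ ∀ a : ℕ → ℂ, CMC a → ∀ t : ℝ, T₁ ≤ t →
      (∀ y : ℝ, |y| ≤ B → 1 / (t + 2) * ‖DS (tw a (1 + 1 / (t + 2))) y‖ ≤ η) →
      m a t ≤ ε := by
  set E : ℝ := Real.exp 1 * CC with hE
  have hE0 : 0 < E := mul_pos (Real.exp_pos _) CC_pos
  set δ : ℝ := min 1 (ε / (32 * E)) with hδ
  have hδ0 : 0 < δ := lt_min one_pos (by positivity)
  have hδ1 : δ ≤ 1 := min_le_left _ _
  have hδE : E * δ ≤ ε / 32 := by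
    have h1 : δ ≤ ε / (32 * E) := min_le_right _ _
    calc E * δ ≤ E * (ε / (32 * E)) := mul_le_mul_of_nonneg_left h1 hE0.le
      _ = ε / 32 := by field_simp
  obtain ⟨B, η, T₀, hη, hT₀, h2⟩ := mean_one (ε * δ / (32 * E)) (by positivity)
  refine ⟨B, η, max T₀ (4 * (1 + 2 * E) / ε), hη, le_max_of_le_left hT₀, fun a h t ht h0 => ?_⟩
  have ht1 : T₀ ≤ t := (le_max_left _ _).trans ht
  have ht2 : 4 * (1 + 2 * E) / ε ≤ t := (le_max_right _ _).trans ht
  have ht0 : 1 ≤ t := hT₀.trans ht1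
  have h3 := Pool.Agent.Y868.VR.m_point h (t := t) (by linarith) hδ0 hδ1
  rw [← hE] at h3
  have h4 := h2 a h (t + 2) (by linarith) h0
  have h5 : (2 / δ) * (∫ v in (0 : ℝ)..(t + 2), m a v) ≤ (2 / δ) * (ε * δ / (32 * E) * (t + 2)) :=
    mul_le_mul_of_nonneg_left h4 (by positivity)
  have e5 : E * ((2 / δ) * (ε * δ / (32 * E) * (t + 2))) = ε / 16 * (t + 2) := by
    field_simp; ring
  have h6 : E * ((2 / δ) * (∫ v in (0 : ℝ)..(t + 2), m a v)) ≤ ε / 16 * (t + 2) := by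
    rw [← e5]; exact mul_le_mul_of_nonneg_left h5 hE0.le
  have h7 : E * (4 * δ * (t + 1)) ≤ ε / 8 * (t + 1) := by
    have : E * (4 * δ * (t + 1)) = (E * δ) * (4 * (t + 1)) := by ring
    rw [this]
    calc _ ≤ ε / 32 * (4 * (t + 1)) := mul_le_mul_of_nonneg_right hδE (by linarith)
      _ = _ := by ring
  have h8 : 4 * (1 + 2 * E) ≤ t * ε := by rwa [div_le_iff₀ hε] at ht2
  have h9 : t * m a t ≤ t * ε := by
    have e9 : E * ((2 / δ) * (∫ v in (0 : ℝ)..(t + 2), m a v) + 4 * δ * (t + 1) + 2) =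
      E * ((2 / δ) * (∫ v in (0 : ℝ)..(t + 2), m a v)) + E * (4 * δ * (t + 1)) + 2 * E := by ring
    rw [e9] at h3
    have h10 : ε ≤ t * ε := by
      have := mul_le_mul_of_nonneg_right ht0 hε.le
      linarith
    linarith
  exact le_of_mul_le_mul_left h9 (by linarith)

end Pool.Agent.V5helper42.EP
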