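import Pool.Agent.V5helper42.EP.HalA

/-!
# Halasz's theorem at one scale in terms of the pretentious distance
-/

set_option autoImplicit false

namespace Pool.Agent.V5helper42.EP

open Finset Filter Topology
open Pool.Agent.Y122.LT (CMC DS tw DS_eq m S)
open Pool.Agent.Y290.LT.Sup (K pt pt_re pt_ne norm_pow rpow_le_inv cpow_split norm_u zeta_up upper
  summ_re)
open Pool.Agent.Y868.VR (gg gg_nonneg gg_eq Ph Ph_summ Ph_prime DS_Ph)

/-- the square of the distance from `a` to `n ^ (i y)` over the primes up to `N` -/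
noncomputable def dist2 (a : ℕ → ℂ) (N : ℕ) (y : ℝ) : ℝ :=
  ∑ p ∈ (Ioc 0 N).filter Nat.Prime, gg a p 0 y

theorem exp_bd {a : ℕ → ℂ} (h : CMC a) {θ y : ℝ} (hθ : 0 < θ)
    (hz : θ * Real.exp (∑' p : Nat.Primes, ((p : ℕ) : ℝ) ^ (-(1 + θ)) - K) ≤ 2)
    (s : Finset ℕ) (hs : ∀ p ∈ s, p.Prime) :
    θ * ‖DS (tw a (1 + θ)) y‖ ≤ 2 * Real.exp (2 * K - ∑ p ∈ s, gg a p θ y) := by
  classical
  rw [DS_Ph h]
  have h5 := upper (Ph h θ y) (Ph_summ h y hθ) (Ph_prime h y hθ)
  have h6 := summ_re (Ph h θ y) (Ph_summ h y hθ) (Ph_prime h y hθ)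
  have hsP : Summable (fun p : Nat.Primes => ((p : ℕ) : ℝ) ^ (-(1 + θ))) :=
    Nat.Primes.summable_rpow.2 (by linarith)
  have e : ∀ p : Nat.Primes, gg a p θ y = ((p : ℕ) : ℝ) ^ (-(1 + θ)) -
      (Ph h θ y (p : ℕ)).re := fun p => gg_eq h p.2.pos _ _
  have h7 : Summable (fun p : Nat.Primes => gg a p θ y) := by
    simp only [e]; exact hsP.sub h6
  have h8 : ∑' p : Nat.Primes, gg a p θ y = ∑' p : Nat.Primes, ((p : ℕ) : ℝ) ^ (-(1 + θ)) -
      ∑' p : Nat.Primes, (Ph h θ y (p : ℕ)).re := by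
    simp only [e]; exact hsP.tsum_sub h6
  have h9 : ∑ p ∈ s, gg a p θ y ≤ ∑' p : Nat.Primes, gg a p θ y := by
    obtain ⟨S, hS⟩ : ∃ S : Finset Nat.Primes, S = s.subtype Nat.Prime := ⟨_, rfl⟩
    have h10 := h7.sum_le_tsum S (fun p _ => gg_nonneg h.bdd p.2.pos θ y)
    refine le_trans (le_of_eq ?_) h10
    symm
    rw [hS]
    have h11 := Finset.sum_subtype_eq_sum_filter (s := s) (p := Nat.Prime)
      (f := fun p : ℕ => gg a p θ y)
    rw [filter_true_of_mem hs] at h11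
    exact h11
  calc θ * ‖∑' n, Ph h θ y n‖
        ≤ θ * Real.exp (∑' p : Nat.Primes, (Ph h θ y (p : ℕ)).re + K) :=
          mul_le_mul_of_nonneg_left h5 hθ.le
      _ = (θ * Real.exp (∑' p : Nat.Primes, ((p : ℕ) : ℝ) ^ (-(1 + θ)) - K)) *
          Real.exp (2 * K - ∑' p : Nat.Primes, gg a p θ y) := by
          rw [mul_assoc, ← Real.exp_add]
          congr 2
          rw [h8]
          ring
      _ ≤ 2 * Real.exp (2 * K - ∑' p : Nat.Primes, gg a p θ y) :=
          mul_le_mul_of_nonneg_right hz (Real.exp_pos _).le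
      _ ≤ 2 * Real.exp (2 * K - ∑ p ∈ s, gg a p θ y) := by
          have : Real.exp (2 * K - ∑' p : Nat.Primes, gg a p θ y) ≤
              Real.exp (2 * K - ∑ p ∈ s, gg a p θ y) := Real.exp_le_exp.2 (by linarith)
          linarith

/-- Halasz's theorem at one scale for completely multiplicative functions -/
theorem halasz_cm (ε : ℝ) (hε : 0 < ε) : ∃ B M : ℝ, ∃ N₀ : ℕ, 1 ≤ N₀ ∧ ∀ a : ℕ → ℂ, CMC a →
    ∀ N : ℕ, N₀ ≤ N → (∀ y : ℝ, |y| ≤ B → M ≤ dist2 a N y) →
      ‖∑ n ∈ Ioc 0 N, a n‖ ≤ ε * N := by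
  obtain ⟨B, η, T₁, hη, hT₁, h1⟩ := point_one ε hε
  obtain ⟨r, hr, hball⟩ := Metric.eventually_nhds_iff.1 (eventually_nhdsWithin_iff.1 zeta_up)
  refine ⟨B, Real.exp 1 * (2 * K - Real.log (η / 2)), ⌈Real.exp (T₁ + 1 / r)⌉₊ + 1,
    by omega, fun a h N hN h2 => ?_⟩
  have hN0 : 0 < N := by omega
  have hNr : (0 : ℝ) < N := by exact_mod_cast hN0
  have hlog : T₁ + 1 / r ≤ Real.log N := by
    rw [Real.le_log_iff_exp_le hNr]
    exact (Nat.le_ceil _).trans (by exact_mod_cast (by omega : ⌈Real.exp (T₁ + 1 / r)⌉₊ ≤ N))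
  have hr1 : 0 < 1 / r := by positivity
  have hT : T₁ ≤ Real.log N := by linarith
  have hθ0 : 0 < 1 / (Real.log N + 2) := by
    apply one_div_pos.2
    linarith
  have hθr : 1 / (Real.log N + 2) < r := by
    rw [div_lt_iff₀ (by linarith)]
    have h3 : 1 / r < Real.log N + 2 := by linarith
    rw [div_lt_iff₀ hr] at h3
    linarith
  have hz := hball (y := 1 / (Real.log N + 2)) (by
    rw [Real.dist_eq, sub_zero, abs_of_pos hθ0]
    exact hθr) hθ0
  have h3 := h1 a h (Real.log N) hT (fun y hy => by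
    refine (exp_bd h hθ0 hz ((Ioc 0 N).filter Nat.Prime) (fun p hp => (mem_filter.1 hp).2)).trans ?_
    have h4 : Real.exp (-1) * dist2 a N y ≤
        ∑ p ∈ (Ioc 0 N).filter Nat.Prime, gg a p (1 / (Real.log N + 2)) y := by
      unfold dist2
      rw [mul_sum]
      apply sum_le_sum
      intro p hp
      rw [mem_filter, mem_Ioc] at hp
      have hp0 : (0 : ℝ) < p := by exact_mod_cast hp.1.1
      have hpN : Real.log p ≤ Real.log N := Real.log_le_log hp0 (by exact_mod_cast hp.1.2)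
      unfold gg
      rw [← mul_assoc]
      have h5 := (Complex.re_le_norm _).trans (Pool.Agent.Y868.VR.bn h.bdd hp.1.1 y)
      apply mul_le_mul_of_nonneg_right _ (by linarith)
      rw [Real.rpow_def_of_pos hp0, Real.rpow_def_of_pos hp0, ← Real.exp_add, Real.exp_le_exp]
      have h6 : Real.log p * (1 / (Real.log N + 2)) ≤ 1 := by
        rw [mul_one_div, div_le_one (by linarith)]
        linarith
      linarith
    have h5 := h2 y hy
    have h6 : 2 * K - Real.log (η / 2) ≤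
        ∑ p ∈ (Ioc 0 N).filter Nat.Prime, gg a p (1 / (Real.log N + 2)) y := by
      refine le_trans ?_ h4
      have h7 := mul_le_mul_of_nonneg_left h5 (Real.exp_pos (-1)).le
      rw [← mul_assoc, ← Real.exp_add] at h7
      norm_num at h7
      linarith
    have h7 : Real.exp (2 * K - ∑ p ∈ (Ioc 0 N).filter Nat.Prime, gg a p (1 / (Real.log N + 2)) y) ≤
        η / 2 := by
      rw [← Real.exp_log (show 0 < η / 2 by positivity)]
      apply Real.exp_le_exp.2
      linarith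
    linarith)
  have h4 : m a (Real.log N) = ‖∑ n ∈ Ioc 0 N, a n‖ / N := by
    unfold m S
    rw [Real.exp_log hNr, Nat.floor_natCast, Real.exp_neg, Real.exp_log hNr]
    rfl
  rw [h4, div_le_iff₀ hNr] at h3
  exact h3

end Pool.Agent.V5helper42.EP
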