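import Pool.Agent.V5helper42.EP.HalB

/-!
# Halasz's theorem at one scale in residue classes, for completely multiplicative functions
-/

set_option autoImplicit false

namespace Pool.Agent.V5helper42.EP

open Finset
open Pool.Agent.Y122.LT (CMC)
open Pool.Agent.Y868.VR (gg gg_nonneg)

theorem gg_le {a : ℕ → ℂ} (ha : ∀ n, ‖a n‖ ≤ 1) {p : ℕ} (hp : 0 < p) (y : ℝ) :
    gg a p 0 y ≤ 2 / p := by
  unfold gg
  have h1 := Pool.Agent.Y868.VR.bn ha hp y
  have h2 := (abs_le.1 (Complex.abs_re_le_norm (a p * (p : ℂ) ^ (-(y * Complex.I))))).1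
  have h3 : 1 - (a p * (p : ℂ) ^ (-(y * Complex.I))).re ≤ 2 := by linarith
  rw [add_zero, Real.rpow_neg_one, div_eq_inv_mul]
  exact mul_le_mul_of_nonneg_left h3 (by positivity)

theorem dist2_down {a : ℕ → ℂ} (ha : ∀ n, ‖a n‖ ≤ 1) {δ : ℝ} (hδ : 0 < δ) {M N : ℕ} (hM : 1 ≤ M)
    (hMN : M ≤ N) (h : δ * N ≤ M) (y : ℝ) : dist2 a N y - 2 / δ ≤ dist2 a M y := by
  have hMr : (0 : ℝ) < M := by exact_mod_cast hM
  have hsplit : (Ioc 0 N).filter Nat.Prime = (Ioc 0 M).filter Nat.Prime ∪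
      (Ioc M N).filter Nat.Prime := by
    rw [← filter_union]
    congr 1
    exact (Ioc_union_Ioc_eq_Ioc (Nat.zero_le _) hMN).symm
  have hdis : Disjoint ((Ioc 0 M).filter Nat.Prime) ((Ioc M N).filter Nat.Prime) := by
    apply disjoint_filter_filter
    rw [disjoint_left]
    intro n h1 h2
    rw [mem_Ioc] at h1 h2
    omega
  unfold dist2
  rw [hsplit, sum_union hdis]
  have h1 : ∑ p ∈ (Ioc M N).filter Nat.Prime, gg a p 0 y ≤ 2 / δ := by
    have h2 : ∑ p ∈ (Ioc M N).filter Nat.Prime, gg a p 0 y ≤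
        ∑ p ∈ (Ioc M N).filter Nat.Prime, 2 / (M : ℝ) := by
      apply sum_le_sum
      intro p hp
      rw [mem_filter, mem_Ioc] at hp
      refine (gg_le ha hp.2.pos y).trans ?_
      have : (M : ℝ) ≤ p := by exact_mod_cast hp.1.1.le
      gcongr
    refine h2.trans ?_
    rw [sum_const, nsmul_eq_mul]
    have h3 : (((Ioc M N).filter Nat.Prime).card : ℝ) ≤ N := by
      have : ((Ioc M N).filter Nat.Prime).card ≤ N := by
        refine (card_filter_le _ _).trans ?_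
        rw [Nat.card_Ioc]
        omega
      exact_mod_cast this
    calc (((Ioc M N).filter Nat.Prime).card : ℝ) * (2 / M) ≤ N * (2 / M) := by gcongr
      _ ≤ 2 / δ := by
        rw [mul_div_assoc', div_le_div_iff₀ hMr hδ]
        linarith
  linarith

theorem sum_le_card {a : ℕ → ℂ} (ha : ∀ n, ‖a n‖ ≤ 1) (M : ℕ) (P : ℕ → Prop) [DecidablePred P] :
    ‖∑ n ∈ (Ioc 0 M).filter P, a n‖ ≤ M := by
  refine (norm_sum_le _ _).trans ((sum_le_sum fun n _ => ha n).trans ?_)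
  rw [sum_const, nsmul_eq_mul, mul_one]
  have : ((Ioc 0 M).filter P).card ≤ M := by
    refine (card_filter_le _ _).trans ?_
    rw [Nat.card_Ioc]
    omega
  exact_mod_cast this

theorem cmc_twist {a : ℕ → ℂ} (h : CMC a) {q : ℕ} (χ : DirichletCharacter ℂ q) :
    CMC (fun n => a n * χ (n : ZMod q)) := by
  refine ⟨by simp [h.zero], by simp [h.one], fun m n => ?_, fun n => ?_⟩
  · rw [h.mul, Nat.cast_mul, map_mul]
    ring
  · rw [norm_mul]
    have h1 := h.bdd n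
    have h2 := DirichletCharacter.norm_le_one χ (n : ZMod q)
    calc ‖a n‖ * ‖χ (n : ZMod q)‖ ≤ 1 * 1 := mul_le_mul h1 h2 (norm_nonneg _) zero_le_one
      _ = 1 := one_mul 1

/-- Halasz's theorem for all lengths up to `N` -/
theorem halasz_cm' (ε : ℝ) (hε : 0 < ε) : ∃ B M : ℝ, ∃ N₀ : ℕ, 1 ≤ N₀ ∧ ∀ a : ℕ → ℂ, CMC a →
    ∀ N : ℕ, N₀ ≤ N → (∀ y : ℝ, |y| ≤ B → M ≤ dist2 a N y) →
      ∀ N' : ℕ, N' ≤ N → ‖∑ n ∈ Ioc 0 N', a n‖ ≤ ε * N := by
  obtain ⟨B, M, N₀, hN₀, h⟩ := halasz_cm ε hε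
  obtain ⟨N₁, hN₁⟩ := exists_nat_ge ((N₀ : ℝ) / ε)
  refine ⟨B, M + 2 / ε, N₁ + 1, by omega, fun a ha N hN hd N' hN' => ?_⟩
  by_cases hc : (N' : ℝ) ≤ ε * N
  · have h1 := sum_le_card ha.bdd N' (fun _ => True)
    simp only [filter_true] at h1
    exact h1.trans hc
  · rw [not_le] at hc
    have hNr : (N₁ : ℝ) ≤ N := by exact_mod_cast (by omega : N₁ ≤ N)
    have h1 : (N₀ : ℝ) ≤ ε * N := by
      rw [div_le_iff₀ hε] at hN₁
      nlinarith
    have h2 : N₀ ≤ N' := by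
      have : (N₀ : ℝ) ≤ N' := by linarith
      exact_mod_cast this
    have h3 := h a ha N' h2 (fun y hy => by
      have h4 := hd y hy
      have h5 := dist2_down ha.bdd hε (by omega) hN' hc.le y
      linarith)
    have h4 : (N' : ℝ) ≤ N := by exact_mod_cast hN'
    calc _ ≤ ε * N' := h3
      _ ≤ ε * N := by gcongr

/-- all twists by characters of modulus at most `q` are far from `n ^ (i y)` -/
def Far (b : ℕ → ℂ) (q N : ℕ) (B M : ℝ) : Prop := ∀ q' : ℕ, 1 ≤ q' → q' ≤ q →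
  ∀ χ : DirichletCharacter ℂ q', ∀ y : ℝ, |y| ≤ B → M ≤ dist2 (fun n => b n * χ (n : ZMod q')) N y

theorem cop_class (ε : ℝ) (hε : 0 < ε) : ∃ B M : ℝ, ∃ N₀ : ℕ, 1 ≤ N₀ ∧ ∀ q : ℕ, 1 ≤ q →
    ∀ a : ℕ → ℂ, CMC a → ∀ N : ℕ, N₀ ≤ N → Far a q N B M → ∀ N' : ℕ, N' ≤ N →
      ∀ c : ℕ, Nat.Coprime c q → ‖∑ n ∈ (Ioc 0 N').filter (fun n => n ≡ c [MOD q]), a n‖ ≤ ε * N := by
  obtain ⟨B, M, N₀, hN₀, h⟩ := halasz_cm' ε hε
  refine ⟨B, M, N₀, hN₀, fun q hq a ha N hN hF N' hN' c hc => ?_⟩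
  haveI : NeZero q := ⟨by omega⟩
  have hu : IsUnit (c : ZMod q) := (ZMod.isUnit_iff_coprime c q).2 hc
  have h1 : ∀ n : ℕ, ∑ χ : DirichletCharacter ℂ q, χ (c : ZMod q)⁻¹ * χ (n : ZMod q) =
      if n ≡ c [MOD q] then (q.totient : ℂ) else 0 := by
    intro n
    rw [DirichletCharacter.sum_char_inv_mul_char_eq ℂ hu]
    have h2 : ((c : ZMod q) = (n : ZMod q)) ↔ n ≡ c [MOD q] := by
      rw [ZMod.natCast_eq_natCast_iff]
      exact ⟨Nat.ModEq.symm, Nat.ModEq.symm⟩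
    simp only [h2]
  have htot : (0 : ℝ) < q.totient := by exact_mod_cast Nat.totient_pos.2 (by omega)
  have h2 : (q.totient : ℂ) * ∑ n ∈ (Ioc 0 N').filter (fun n => n ≡ c [MOD q]), a n =
      ∑ χ : DirichletCharacter ℂ q, χ (c : ZMod q)⁻¹ * ∑ n ∈ Ioc 0 N', a n * χ (n : ZMod q) := by
    simp only [mul_sum]
    rw [sum_comm, sum_filter]
    apply sum_congr rfl
    intro n _
    have h3 := congrArg (fun z => z * a n) (h1 n)
    simp only [sum_mul] at h3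
    by_cases hn : n ≡ c [MOD q]
    · rw [if_pos hn] at h3 ⊢
      rw [← h3]
      apply sum_congr rfl
      intro χ _
      ring
    · rw [if_neg hn] at h3 ⊢
      rw [zero_mul] at h3
      rw [← h3]
      apply sum_congr rfl
      intro χ _
      ring
  have h3 : ‖∑ χ : DirichletCharacter ℂ q, χ (c : ZMod q)⁻¹ *
      ∑ n ∈ Ioc 0 N', a n * χ (n : ZMod q)‖ ≤ q.totient * (ε * N) := by
    refine (norm_sum_le _ _).trans ?_
    have h4 : ∀ χ ∈ (univ : Finset (DirichletCharacter ℂ q)), ‖χ (c : ZMod q)⁻¹ *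
        ∑ n ∈ Ioc 0 N', a n * χ (n : ZMod q)‖ ≤ ε * N := by
      intro χ _
      rw [norm_mul]
      have h5 := DirichletCharacter.norm_le_one χ (c : ZMod q)⁻¹
      have h6 := h _ (cmc_twist ha χ) N hN (fun y hy => hF q hq le_rfl χ y hy) N' hN'
      calc _ ≤ 1 * (ε * N) := mul_le_mul h5 h6 (norm_nonneg _) zero_le_one
        _ = _ := one_mul _
    refine (sum_le_card_nsmul _ _ _ h4).trans (le_of_eq ?_)
    rw [nsmul_eq_mul, card_univ, ← Nat.card_eq_fintype_card,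
      DirichletCharacter.card_eq_totient_of_hasEnoughRootsOfUnity ℂ q]
  rw [← h2, norm_mul, Complex.norm_natCast] at h3
  exact le_of_mul_le_mul_left h3 htot

theorem far_mono {b : ℕ → ℂ} {q q' N : ℕ} {B M : ℝ} (h : Far b q N B M) (hq : q' ≤ q) :
    Far b q' N B M := fun r hr hrq => h r hr (hrq.trans hq)

/-- all residue classes -/
theorem cm_class (ε : ℝ) (hε : 0 < ε) : ∃ B M : ℝ, ∃ N₀ : ℕ, 1 ≤ N₀ ∧ ∀ q : ℕ, 1 ≤ q →
    ∀ a : ℕ → ℂ, CMC a → ∀ N : ℕ, N₀ ≤ N → Far a q N B M → ∀ N' : ℕ, N' ≤ N →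
      ∀ c : ℕ, ‖∑ n ∈ (Ioc 0 N').filter (fun n => n ≡ c [MOD q]), a n‖ ≤ ε * N := by
  obtain ⟨B, M, N₀, hN₀, h⟩ := cop_class ε hε
  refine ⟨B, M, N₀, hN₀, fun q hq a ha N hN hF N' hN' c => ?_⟩
  obtain ⟨d, hd⟩ : ∃ d, d = Nat.gcd c q := ⟨_, rfl⟩
  have hd0 : 0 < d := by rw [hd]; exact Nat.gcd_pos_of_pos_right _ (by omega)
  obtain ⟨c', hc'⟩ : d ∣ c := by rw [hd]; exact Nat.gcd_dvd_left _ _
  obtain ⟨q', hq'⟩ : d ∣ q := by rw [hd]; exact Nat.gcd_dvd_right _ _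
  have hcop : Nat.Coprime c' q' := by
    have h1 := Nat.coprime_div_gcd_div_gcd (m := c) (n := q) (by rw [← hd]; exact hd0)
    rw [← hd, hc', hq', Nat.mul_div_cancel_left _ hd0, Nat.mul_div_cancel_left _ hd0] at h1
    exact h1
  have hq'1 : 1 ≤ q' := by
    rcases Nat.eq_zero_or_pos q' with h0 | h0
    · rw [h0, mul_zero] at hq'
      omega
    · exact h0
  have hq'q : q' ≤ q := by rw [hq']; exact Nat.le_mul_of_pos_left _ hd0
  have h1 : ∑ n ∈ (Ioc 0 N').filter (fun n => n ≡ c [MOD q]), a n =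
      a d * ∑ n ∈ (Ioc 0 (N' / d)).filter (fun n => n ≡ c' [MOD q']), a n := by
    rw [mul_sum]
    symm
    refine sum_nbij' (i := fun n => d * n) (j := fun n => n / d) ?_ ?_ ?_ ?_ ?_
    · intro n hn
      rw [mem_filter, mem_Ioc] at hn
      simp only [mem_filter, mem_Ioc]
      refine ⟨⟨Nat.mul_pos hd0 hn.1.1, ?_⟩, ?_⟩
      · have := (Nat.le_div_iff_mul_le hd0).1 hn.1.2
        rwa [mul_comm] at this
      · rw [hc', hq']
        exact hn.2.mul_left' d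
    · intro n hn
      rw [mem_filter, mem_Ioc] at hn
      have hdn : d ∣ n := by
        have h2 : n ≡ c [MOD d] := hn.2.of_dvd ⟨q', hq'⟩
        exact (Nat.ModEq.dvd_iff h2 dvd_rfl).2 ⟨c', hc'⟩
      obtain ⟨k, rfl⟩ := hdn
      simp only [mem_filter, mem_Ioc]
      rw [Nat.mul_div_cancel_left _ hd0]
      refine ⟨⟨?_, ?_⟩, ?_⟩
      · exact Nat.pos_of_mul_pos_left hn.1.1
      · rw [Nat.le_div_iff_mul_le hd0, mul_comm]
        exact hn.1.2
      · have h2 := hn.2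
        rw [hc', hq'] at h2
        exact Nat.ModEq.mul_left_cancel' hd0.ne' h2
    · intro n _
      exact Nat.mul_div_cancel_left _ hd0
    · intro n hn
      rw [mem_filter, mem_Ioc] at hn
      have hdn : d ∣ n := by
        have h2 : n ≡ c [MOD d] := hn.2.of_dvd ⟨q', hq'⟩
        exact (Nat.ModEq.dvd_iff h2 dvd_rfl).2 ⟨c', hc'⟩
      exact Nat.mul_div_cancel' hdn
    · intro n _
      exact (ha.mul d n).symm
  rw [h1, norm_mul]
  have h2 := h q' hq'1 a ha N hN (far_mono hF hq'q) (N' / d) ((Nat.div_le_self _ _).trans hN') c' hcop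
  calc _ ≤ 1 * (ε * N) := mul_le_mul (ha.bdd d) h2 (norm_nonneg _) zero_le_one
    _ = _ := one_mul _

end Pool.Agent.V5helper42.EP
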