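import Pool.Agent.V5helper42.EP.HalC

/-!
# Halasz's theorem at one scale in residue classes, for multiplicative functions
-/

set_option autoImplicit false

namespace Pool.Agent.V5helper42.EP

open Finset
open Pool.Agent.Y122.LT (CMC)
open Pool.Agent.Y868.VR

lemma conv_filter (h a : ArithmeticFunction ℂ) (N : ℕ) (P : ℕ → Prop) [DecidablePred P] :
    ∑ n ∈ (Ioc 0 N).filter P, (h * a) n =
      ∑ d ∈ Ioc 0 N, h d * ∑ m ∈ (Ioc 0 (N / d)).filter (fun m => P (d * m)), a m := by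
  have h1 : ∀ n ∈ (Ioc 0 N).filter P, (h * a) n =
      ∑ x ∈ Ioc 0 N ×ˢ Ioc 0 N, if x.1 * x.2 = n then h x.1 * a x.2 else 0 := by
    intro n hn
    rw [mem_filter, mem_Ioc] at hn
    rw [ArithmeticFunction.mul_apply,
      Nat.divisorsAntidiagonal_eq_prod_filter_of_le hn.1.1.ne' hn.1.2, sum_filter]
  rw [sum_congr rfl h1, sum_comm, sum_product]
  apply sum_congr rfl
  intro d hd
  rw [mem_Ioc] at hd
  rw [mul_sum, sum_filter, ← sum_filter]
  have h2 : ∀ m : ℕ, (∑ n ∈ (Ioc 0 N).filter P, if d * m = n then h d * a m else 0) =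
      if (0 < d * m ∧ d * m ≤ N) ∧ P (d * m) then h d * a m else 0 := by
    intro m
    rw [sum_ite_eq]
    simp only [mem_filter, mem_Ioc]
  simp only [h2]
  rw [← sum_filter]
  apply sum_congr _ fun _ _ => rfl
  ext m
  simp only [mem_filter, mem_Ioc]
  constructor
  · rintro ⟨⟨h3, h4⟩, ⟨h5, h6⟩, h7⟩
    refine ⟨⟨h3, ?_⟩, h7⟩
    rw [Nat.le_div_iff_mul_le hd.1, mul_comm]
    exact h6
  · rintro ⟨⟨h3, h4⟩, h5⟩
    rw [Nat.le_div_iff_mul_le hd.1, mul_comm] at h4
    refine ⟨⟨h3, (Nat.le_mul_of_pos_left _ hd.1).trans h4⟩, ⟨Nat.mul_pos hd.1 h3, h4⟩, h5⟩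

/-- weight of a prime power -/
def wt (k : ℕ) : ℝ := if k = 0 then 1 else if k = 1 then 0 else 2

lemma wt_nonneg (k : ℕ) : 0 ≤ wt k := by
  unfold wt
  split_ifs <;> norm_num

/-- majorant of the quotients -/
noncomputable def VV (n : ℕ) : ℝ := n.factorization.prod fun _ k => wt k

lemma VV_nonneg (n : ℕ) : 0 ≤ VV n := by
  unfold VV Finsupp.prod
  exact prod_nonneg fun _ _ => wt_nonneg _

lemma VV_one : VV 1 = 1 := by
  unfold VV
  simp

lemma VV_mul {m n : ℕ} (h : Nat.Coprime m n) : VV (m * n) = VV m * VV n := by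
  unfold VV
  rw [Nat.factorization_mul_of_coprime h, Finsupp.prod_add_index_of_disjoint]
  rw [Nat.support_factorization, Nat.support_factorization]
  exact h.disjoint_primeFactors

lemma VV_pow {p : ℕ} (hp : p.Prime) (k : ℕ) : VV (p ^ k) = wt k := by
  unfold VV
  rw [hp.factorization_pow, Finsupp.prod_single_index]
  rfl

/-- the majorant is summable -/
lemma VV_summ : Summable (fun n : ℕ => if n = 0 then 0 else VV n / n) := by
  have hval : ∀ p : ℕ, p.Prime → ∀ k : ℕ, (if p ^ k = 0 then 0 else VV (p ^ k) / ((p ^ k : ℕ) : ℝ)) =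
      wt k / (p : ℝ) ^ k := by
    intro p hp k
    rw [if_neg (pow_ne_zero _ hp.ne_zero), VV_pow hp, Nat.cast_pow]
  have hgeo := fun (p : ℕ) (hp : p.Prime) => geo_tail hp
  have hs1 : ∀ p : ℕ, p.Prime → Summable (fun k : ℕ =>
      (if p ^ (k + 1 + 1) = 0 then 0 else VV (p ^ (k + 1 + 1)) / ((p ^ (k + 1 + 1) : ℕ) : ℝ))) := by
    intro p hp
    refine (hgeo p hp).summable.congr fun k => ?_
    rw [hval p hp]
    unfold wt
    rw [if_neg (by omega), if_neg (by omega)]
  have hs2 : ∀ p : ℕ, p.Prime → Summable (fun k : ℕ =>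
      (if p ^ k = 0 then 0 else VV (p ^ k) / ((p ^ k : ℕ) : ℝ))) := by
    intro p hp
    rw [← summable_nat_add_iff 2]
    exact hs1 p hp
  refine summ_mult (fun n : ℕ => if n = 0 then 0 else VV n / n) (fun n => ?_) ?_ (by simp) ?_ hs2
    (fun p : ℕ => 4 / (p : ℝ) ^ 2) (fun p => by positivity) ?_ ?_
  · split_ifs
    · exact le_rfl
    · have := VV_nonneg n
      positivity
  · simp [VV_one]
  · intro m n hmn
    rcases Nat.eq_zero_or_pos m with h0 | hm
    · subst h0
      simp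
    rcases Nat.eq_zero_or_pos n with h0 | hn
    · subst h0
      simp
    rw [if_neg (by positivity), if_neg (by omega), if_neg (by omega), VV_mul hmn, Nat.cast_mul,
      mul_div_mul_comm]
  · exact ((Real.summable_one_div_nat_pow (p := 2)).2 one_lt_two).mul_left 4 |>.congr
      fun p => by ring
  · intro p hp
    have hp2 : (2 : ℝ) ≤ p := by exact_mod_cast hp.two_le
    rw [(hs2 p hp).tsum_eq_zero_add, ((summable_nat_add_iff 1).2 (hs2 p hp)).tsum_eq_zero_add]
    have e0 : (if p ^ 0 = 0 then 0 else VV (p ^ 0) / ((p ^ 0 : ℕ) : ℝ)) = 1 := by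
      rw [hval p hp]
      simp [wt]
    have e1 : (if p ^ (0 + 1) = 0 then 0 else VV (p ^ (0 + 1)) / ((p ^ (0 + 1) : ℕ) : ℝ)) = 0 := by
      rw [hval p hp]
      simp [wt]
    have e2 : ∑' k : ℕ, (if p ^ (k + 1 + 1) = 0 then 0 else
        VV (p ^ (k + 1 + 1)) / ((p ^ (k + 1 + 1) : ℕ) : ℝ)) ≤ 4 / (p : ℝ) ^ 2 := by
      have e3 : ∀ k : ℕ, (if p ^ (k + 1 + 1) = 0 then 0 else
        VV (p ^ (k + 1 + 1)) / ((p ^ (k + 1 + 1) : ℕ) : ℝ)) = 2 / ((p : ℝ) ^ (k + 2)) := by
        intro k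
        rw [hval p hp]
        unfold wt
        rw [if_neg (by omega), if_neg (by omega)]
      simp only [e3]
      rw [(hgeo p hp).tsum_eq]
      rw [div_le_div_iff₀ (by nlinarith) (by positivity)]
      nlinarith
    rw [e0, e1]
    linarith

lemma quo_le {b : ArithmeticFunction ℂ} (hb : MB b) (n : ℕ) (hn : n ≠ 0) :
    ‖Pool.Agent.Y868.VR.quo b (cm b) n‖ ≤ VV n := by
  have ha := cm_cma (b := b) hb.bdd
  have hq := quo_mult hb.mult ha
  rw [Nat.multiplicative_factorization (fun n => ‖Pool.Agent.Y868.VR.quo b (cm b) n‖)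
    (fun x y hxy => by simp only [hq.map_mul_of_coprime hxy, norm_mul])
    (by simp only [hq.map_one, norm_one]) hn]
  unfold VV Finsupp.prod
  apply Finset.prod_le_prod (fun _ _ => norm_nonneg _)
  intro p hp
  rw [Nat.support_factorization] at hp
  have hpp := Nat.prime_of_mem_primeFactors hp
  have hk : 1 ≤ n.factorization p := by
    rw [Nat.mem_primeFactors] at hp
    exact (hpp.dvd_iff_one_le_factorization hn).1 hp.2.1
  obtain ⟨k, hk'⟩ : ∃ k, n.factorization p = k + 1 := ⟨n.factorization p - 1, by omega⟩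
  rw [hk']
  show ‖Pool.Agent.Y868.VR.quo b (cm b) (p ^ (k + 1))‖ ≤
    if k + 1 = 0 then (1 : ℝ) else if k + 1 = 1 then 0 else 2
  rw [if_neg (by omega)]
  split_ifs with h1
  · have h2 : k = 0 := by omega
    subst h2
    rw [quo_pp ha hpp, cm_prime b hpp]
    simp [hb.mult.map_one]
  · exact quo_pp_le hb.bdd ha hpp k

/-- uniform tail -/
lemma VV_tail (ε : ℝ) (hε : 0 < ε) : ∃ D : ℕ, ∀ T : Finset ℕ, (∀ n ∈ T, D < n) →
    ∑ n ∈ T, VV n / n ≤ ε := by
  obtain ⟨s, hs⟩ := summable_iff_vanishing_norm.1 VV_summ ε hε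
  refine ⟨s.sup id, fun T hT => ?_⟩
  have h1 := hs T (by
    rw [disjoint_left]
    intro n hn hns
    have h2 := hT n hn
    have h3 : n ≤ s.sup id := Finset.le_sup (f := id) hns
    omega)
  have h2 : ∑ n ∈ T, (if n = 0 then 0 else VV n / n) = ∑ n ∈ T, VV n / n := by
    apply sum_congr rfl
    intro n hn
    have := hT n hn
    rw [if_neg (by omega)]
  rw [h2] at h1
  exact (le_abs_self _).trans h1.le

lemma VV_total : ∃ C : ℝ, 0 < C ∧ ∀ T : Finset ℕ, (∀ n ∈ T, 0 < n) → ∑ n ∈ T, VV n / n ≤ C := by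
  refine ⟨∑' n : ℕ, (if n = 0 then 0 else VV n / n) + 1, ?_, fun T hT => ?_⟩
  · have : 0 ≤ ∑' n : ℕ, (if n = 0 then 0 else VV n / (n : ℝ)) := by
      apply tsum_nonneg
      intro n
      split_ifs
      · exact le_rfl
      · have := VV_nonneg n
        positivity
    linarith
  · have h1 := VV_summ.sum_le_tsum T (fun n _ => by
      split_ifs
      · exact le_rfl
      · have := VV_nonneg n
        positivity)
    have h2 : ∑ n ∈ T, (if n = 0 then 0 else VV n / n) = ∑ n ∈ T, VV n / n := by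
      apply sum_congr rfl
      intro n hn
      have := hT n hn
      rw [if_neg (by omega)]
    rw [h2] at h1
    linarith

end Pool.Agent.V5helper42.EP
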