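import Pool.Agent.W290.TL.Near
import Pool.Agent.W208.TL.Basic

/-! # A multiplicative function close to `1` at the primes above `P` is close to a constant times its value at the
`P`-smooth part (Turán–Kubilius) -/

set_option autoImplicit false

namespace Pool.Agent.V5helper42.EP

open Finset Pool.Agent.W208.TL Pool.Agent.W290.TL

theorem prod_diff {z w : ℕ → ℂ} (hz : ∀ l, ‖z l‖ ≤ 1) (hw : ∀ l, ‖w l‖ ≤ 1) (S : Finset ℕ) :
    ‖∏ l ∈ S, z l - ∏ l ∈ S, w l‖ ≤ ∑ l ∈ S, ‖z l - w l‖ := by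
  induction S using Finset.induction_on with
  | empty => simp
  | insert a S ha ih =>
    rw [prod_insert ha, prod_insert ha, sum_insert ha]
    have e : z a * ∏ l ∈ S, z l - w a * ∏ l ∈ S, w l
        = (z a - w a) * ∏ l ∈ S, w l + z a * (∏ l ∈ S, z l - ∏ l ∈ S, w l) := by ring
    rw [e]
    refine (norm_add_le _ _).trans ?_
    rw [norm_mul, norm_mul]
    have hp : ‖∏ l ∈ S, w l‖ ≤ 1 := by
      rw [norm_prod]
      exact prod_le_one (fun _ _ => norm_nonneg _) (fun l _ => hw l)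
    have h1 : ‖z a‖ * ‖∏ l ∈ S, z l - ∏ l ∈ S, w l‖ ≤ 1 * ‖∏ l ∈ S, z l - ∏ l ∈ S, w l‖ :=
      mul_le_mul_of_nonneg_right (hz a) (norm_nonneg _)
    have h2 : ‖z a - w a‖ * ‖∏ l ∈ S, w l‖ ≤ ‖z a - w a‖ * 1 :=
      mul_le_mul_of_nonneg_left hp (norm_nonneg _)
    linarith

/-- `e ^ {i b}` -/
noncomputable def ei (b : ℝ) : ℂ := Complex.exp (Complex.I * (b : ℂ))

theorem norm_ei (b : ℝ) : ‖ei b‖ = 1 := by
  unfold ei
  rw [mul_comm]
  exact Complex.norm_exp_ofReal_mul_I b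

theorem ei_zero : ei 0 = 1 := by
  unfold ei; simp

theorem ei_add (a b : ℝ) : ei (a + b) = ei a * ei b := by
  unfold ei
  rw [← Complex.exp_add]
  push_cast
  ring_nf

theorem ei_sum (b : ℕ → ℝ) (S : Finset ℕ) : ∏ l ∈ S, ei (b l) = ei (∑ l ∈ S, b l) := by
  induction S using Finset.induction_on with
  | empty => simp [ei_zero]
  | insert a S ha ih => rw [prod_insert ha, sum_insert ha, ih, ei_add]

theorem ei_sub_one (b : ℝ) : ‖ei b - 1‖ ≤ |b| := by
  have h := Real.norm_exp_I_mul_ofReal_sub_one_le (x := b)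
  unfold ei
  rw [Real.norm_eq_abs] at h
  exact h

theorem ei_diff (a b : ℝ) : ‖ei a - ei b‖ ≤ |a - b| := by
  have e : ei a - ei b = ei b * (ei (a - b) - 1) := by
    rw [mul_sub, ← ei_add, mul_one]
    congr 2
    ring
  rw [e, norm_mul, norm_ei, one_mul]
  exact ei_sub_one _

theorem im_sq_le {z : ℂ} (hz : ‖z‖ ≤ 1) : z.im ^ 2 ≤ 2 * (1 - z.re) := by
  have h2 : z.re ^ 2 + z.im ^ 2 ≤ 1 := by
    have : ‖z‖ ^ 2 ≤ 1 := pow_le_one₀ (norm_nonneg _) hz
    rw [← Complex.normSq_eq_norm_sq, Complex.normSq_apply] at this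
    nlinarith
  nlinarith [sq_nonneg (z.re - 1)]

theorem re_le_one' {z : ℂ} (hz : ‖z‖ ≤ 1) : 0 ≤ 1 - z.re := by
  have := Complex.re_le_norm z
  linarith

/-- second order -/
theorem ei_im {z : ℂ} (hz : ‖z‖ ≤ 1) : ‖z - ei z.im‖ ≤ 3 * (1 - z.re) := by
  have h1 := im_sq_le hz
  have h0 := re_le_one' hz
  have him : |z.im| ≤ 1 := (Complex.abs_im_le_norm z).trans hz
  have hn : ‖Complex.I * (z.im : ℂ)‖ = |z.im| := by simp
  have h2 := Complex.norm_exp_sub_one_sub_id_le (x := Complex.I * (z.im : ℂ)) (by rw [hn]; exact him)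
  rw [hn, sq_abs] at h2
  have e : z - ei z.im = -((1 - z.re : ℝ) : ℂ) -
      (Complex.exp (Complex.I * (z.im : ℂ)) - 1 - Complex.I * (z.im : ℂ)) := by
    unfold ei
    apply Complex.ext <;> simp
  rw [e]
  refine (norm_sub_le _ _).trans ?_
  rw [norm_neg, Complex.norm_real, Real.norm_eq_abs, abs_of_nonneg h0]
  linarith

/-- a value at a prime power -/
theorem pow_ei {u : ℕ → ℂ} (hu : Mul1 u) (n l : ℕ) (hn0 : n ≠ 0) (hl : l.Prime) :
    ‖u (l ^ n.factorization l) - ei (if l ∣ n then (u l).im else 0)‖ ≤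
      (if l ∣ n then 3 * (1 - (u l).re) else 0) + (if l ^ 2 ∣ n then 2 else 0) := by
  rcases Nat.lt_or_ge (n.factorization l) 2 with h | h
  · have h01 : n.factorization l = 0 ∨ n.factorization l = 1 := by omega
    rcases h01 with h0 | h1
    · have hd : ¬ l ∣ n := by
        intro hd
        have := (hl.dvd_iff_one_le_factorization hn0).mp hd
        omega
      rw [h0, pow_zero, hu.2.1, if_neg hd, if_neg hd, ei_zero, sub_self, norm_zero]
      positivity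
    · have hd : l ∣ n := (hl.dvd_iff_one_le_factorization hn0).mpr (by omega)
      rw [h1, pow_one, if_pos hd, if_pos hd]
      have : (0 : ℝ) ≤ (if l ^ 2 ∣ n then 2 else 0) := by positivity
      have := ei_im (hu.1 l)
      linarith
  · have hd : l ^ 2 ∣ n := (hl.pow_dvd_iff_le_factorization hn0).mpr h
    rw [if_pos hd]
    have h1 : ‖u (l ^ n.factorization l) - ei (if l ∣ n then (u l).im else 0)‖ ≤ 2 := by
      refine (norm_sub_le _ _).trans ?_
      rw [norm_ei]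
      have := hu.1 (l ^ n.factorization l)
      linarith
    have h0 := re_le_one' (hu.1 l)
    have h2 : (0 : ℝ) ≤ (if l ∣ n then 3 * (1 - (u l).re) else 0) := by
      split_ifs <;> linarith
    linarith

/-- the part of `n` with the primes of `(P, y]` -/
theorem sm_ei {u : ℕ → ℂ} (hu : Mul1 u) {P y n : ℕ} (hn0 : n ≠ 0) :
    ‖u (sm P y n) - ei (∑ l ∈ PP P y, (if l ∣ n then (u l).im else 0))‖ ≤ ∑ l ∈ PP P y,
      ((if l ∣ n then 3 * (1 - (u l).re) else 0) + (if l ^ 2 ∣ n then 2 else 0)) := by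
  have e : u (sm P y n) = ∏ l ∈ PP P y, u (l ^ n.factorization l) := by
    unfold sm
    exact mul_prod hu _ _ (fun p hp => (Pool.Agent.W290.TL.mem_PP.mp hp).2)
  rw [e, ← ei_sum]
  refine (prod_diff (fun l => hu.1 _) (fun l => (norm_ei _).le) _).trans ?_
  exact sum_le_sum fun l hl => pow_ei hu n l hn0 (Pool.Agent.W290.TL.mem_PP.mp hl).2

/-- covariance -/
theorem cov {X p q : ℕ} (hp : 0 < p) (hq : 0 < q) (hpq : Nat.Coprime p q) :
    |∑ n ∈ Ioc 0 X, ((if p ∣ n then (1 : ℝ) else 0) - 1 / p) * ((if q ∣ n then (1 : ℝ) else 0) - 1 / q)| ≤ 3 := by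
  have hc : ∀ m : ℕ, 0 < m → ∃ θ : ℝ, 0 ≤ θ ∧ θ ≤ 1 ∧
      ∑ n ∈ Ioc 0 X, (if m ∣ n then (1 : ℝ) else 0) = X / m - θ := by
    intro m hm
    have h1 : ∑ n ∈ Ioc 0 X, (if m ∣ n then (1 : ℝ) else 0) = ((X / m : ℕ) : ℝ) := by
      rw [← sum_filter, sum_const, nsmul_eq_mul, mul_one, Nat.Ioc_filter_dvd_card_eq_div]
    have hm' : (0 : ℝ) < m := by exact_mod_cast hm
    refine ⟨X / m - ((X / m : ℕ) : ℝ), ?_, ?_, ?_⟩
    · have := @Nat.cast_div_le ℝ _ _ _ X m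
      linarith
    · have h2 : X < m * (X / m + 1) := Nat.lt_mul_div_succ X hm
      have h3 : (X : ℝ) < m * (((X / m : ℕ) : ℝ) + 1) := by exact_mod_cast h2
      have h4 : (X : ℝ) / m < ((X / m : ℕ) : ℝ) + 1 := by
        rw [div_lt_iff₀ hm']; linarith
      linarith
    · rw [h1]; ring
  obtain ⟨θ, h1, h2, h3⟩ := hc (p * q) (Nat.mul_pos hp hq)
  obtain ⟨θp, hp1, hp2, hp3⟩ := hc p hp
  obtain ⟨θq, hq1, hq2, hq3⟩ := hc q hq
  have hp' : (1 : ℝ) ≤ p := by exact_mod_cast hp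
  have hq' : (1 : ℝ) ≤ q := by exact_mod_cast hq
  have e : ∑ n ∈ Ioc 0 X, ((if p ∣ n then (1 : ℝ) else 0) - 1 / p) * ((if q ∣ n then (1 : ℝ) else 0) - 1 / q)
      = (X / (p * q : ℕ) - θ) - (1 / q) * (X / p - θp) - (1 / p) * (X / q - θq) + X * (1 / p * (1 / q)) := by
    rw [← h3, ← hp3, ← hq3, mul_sum, mul_sum]
    have hX : (X : ℝ) * (1 / p * (1 / q)) = ∑ n ∈ Ioc 0 X, (1 / (p : ℝ) * (1 / q)) := by
      rw [sum_const, Nat.card_Ioc, nsmul_eq_mul, Nat.sub_zero]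
    rw [hX, ← sum_sub_distrib, ← sum_sub_distrib, ← sum_add_distrib]
    refine sum_congr rfl fun n _ => ?_
    by_cases hpn : p ∣ n
    · by_cases hqn : q ∣ n
      · rw [if_pos hpn, if_pos hqn, if_pos (hpq.mul_dvd_of_dvd_of_dvd hpn hqn)]
        ring
      · rw [if_pos hpn, if_neg hqn, if_neg (fun h => hqn (dvd_trans (dvd_mul_left _ _) h))]
        ring
    · by_cases hqn : q ∣ n
      · rw [if_neg hpn, if_pos hqn, if_neg (fun h => hpn (dvd_trans (dvd_mul_right _ _) h))]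
        ring
      · rw [if_neg hpn, if_neg hqn, if_neg (fun h => hpn (dvd_trans (dvd_mul_right _ _) h))]
        ring
  rw [e]
  have e2 : (X / (p * q : ℕ) - θ) - (1 / q) * (X / p - θp) - (1 / p) * (X / q - θq) + X * (1 / p * (1 / q))
      = -θ + θp / q + θq / (p : ℝ) := by
    push_cast
    field_simp
    ring
  rw [e2]
  have h5 : θp / (q : ℝ) ≤ 1 := by
    rw [div_le_one (by linarith)]; linarith
  have h6 : θq / (p : ℝ) ≤ 1 := by
    rw [div_le_one (by linarith)]; linarith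
  have h7 : 0 ≤ θp / (q : ℝ) := by positivity
  have h8 : 0 ≤ θq / (p : ℝ) := by positivity
  rw [abs_le]
  constructor <;> linarith

/-- variance of one prime -/
theorem var1 {X p : ℕ} (hp : 0 < p) :
    ∑ n ∈ Ioc 0 X, ((if p ∣ n then (1 : ℝ) else 0) - 1 / p) * ((if p ∣ n then (1 : ℝ) else 0) - 1 / p)
      ≤ 2 * (X / p) := by
  have hp' : (1 : ℝ) ≤ p := by exact_mod_cast hp
  have h1 : ∑ n ∈ Ioc 0 X, (if p ∣ n then (1 : ℝ) else 0) ≤ X / p := by
    rw [← sum_filter, sum_const, nsmul_eq_mul, mul_one]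
    exact count_dvd X p hp
  have h2 : ∑ n ∈ Ioc 0 X, (1 / (p : ℝ)) = X / p := by
    rw [sum_const, Nat.card_Ioc, nsmul_eq_mul, Nat.sub_zero]
    ring
  calc _ ≤ ∑ n ∈ Ioc 0 X, ((if p ∣ n then (1 : ℝ) else 0) + 1 / p) := by
        refine sum_le_sum fun n _ => ?_
        have h0 : 0 < 1 / (p : ℝ) := by positivity
        have h1 : 1 / (p : ℝ) ≤ 1 := by
          rw [div_le_one (by linarith)]; exact hp'
        split_ifs
        · nlinarith
        · nlinarith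
    _ = ∑ n ∈ Ioc 0 X, (if p ∣ n then (1 : ℝ) else 0) + ∑ n ∈ Ioc 0 X, (1 / (p : ℝ)) := sum_add_distrib
    _ ≤ 2 * (X / p) := by rw [h2]; linarith

/-- Turán–Kubilius -/
theorem tk (b : ℕ → ℝ) (hb : ∀ l, |b l| ≤ 1) (P y X : ℕ) :
    ∑ n ∈ Ioc 0 X, (∑ l ∈ PP P y, (if l ∣ n then b l else 0) - ∑ l ∈ PP P y, b l / l) ^ 2 ≤
      2 * X * ∑ l ∈ PP P y, (b l) ^ 2 / l + 3 * (y : ℝ) ^ 2 := by
  have e : ∀ n, (∑ l ∈ PP P y, (if l ∣ n then b l else 0) - ∑ l ∈ PP P y, b l / l) ^ 2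
      = ∑ p ∈ PP P y, ∑ q ∈ PP P y, b p * b q *
        (((if p ∣ n then (1 : ℝ) else 0) - 1 / p) * ((if q ∣ n then (1 : ℝ) else 0) - 1 / q)) := by
    intro n
    have e1 : ∑ l ∈ PP P y, (if l ∣ n then b l else 0) - ∑ l ∈ PP P y, b l / l
        = ∑ l ∈ PP P y, b l * ((if l ∣ n then (1 : ℝ) else 0) - 1 / l) := by
      rw [← sum_sub_distrib]
      refine sum_congr rfl fun l _ => ?_
      split_ifs <;> ring
    rw [e1, sq, sum_mul_sum]
    refine sum_congr rfl fun p _ => sum_congr rfl fun q _ => ?_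
    ring
  simp_rw [e]
  rw [sum_comm]
  have hcard : ((PP P y).card : ℝ) ≤ y := by
    have h : (PP P y).card ≤ y := by
      unfold PP
      refine (card_filter_le _ _).trans ?_
      rw [Nat.card_Ioc]; omega
    exact_mod_cast h
  calc ∑ p ∈ PP P y, ∑ n ∈ Ioc 0 X, ∑ q ∈ PP P y, b p * b q *
        (((if p ∣ n then (1 : ℝ) else 0) - 1 / p) * ((if q ∣ n then (1 : ℝ) else 0) - 1 / q))
      = ∑ p ∈ PP P y, ∑ q ∈ PP P y, b p * b q * ∑ n ∈ Ioc 0 X,
        (((if p ∣ n then (1 : ℝ) else 0) - 1 / p) * ((if q ∣ n then (1 : ℝ) else 0) - 1 / q)) := by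
        refine sum_congr rfl fun p _ => ?_
        rw [sum_comm]
        refine sum_congr rfl fun q _ => ?_
        rw [mul_sum]
    _ ≤ ∑ p ∈ PP P y, ∑ q ∈ PP P y, ((if p = q then 2 * X * ((b p) ^ 2 / p) else 0) + 3) := by
        refine sum_le_sum fun p hp => sum_le_sum fun q hq => ?_
        have hpp := (Pool.Agent.W290.TL.mem_PP.mp hp).2
        have hqp := (Pool.Agent.W290.TL.mem_PP.mp hq).2
        by_cases hpq : p = q
        · subst hpq
          rw [if_pos rfl]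
          have h1 := var1 (X := X) hpp.pos
          have h2 : b p * b p * ∑ n ∈ Ioc 0 X, ((if p ∣ n then (1 : ℝ) else 0) - 1 / p) *
              ((if p ∣ n then (1 : ℝ) else 0) - 1 / p) ≤ b p * b p * (2 * (X / p)) :=
            mul_le_mul_of_nonneg_left h1 (mul_self_nonneg _)
          have e3 : b p * b p * (2 * ((X : ℝ) / p)) = 2 * X * ((b p) ^ 2 / p) := by ring
          linarith
        · rw [if_neg hpq]
          have h1 := cov (X := X) hpp.pos hqp.pos ((Nat.coprime_primes hpp hqp).2 hpq)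
          have h2 : |b p * b q * ∑ n ∈ Ioc 0 X, ((if p ∣ n then (1 : ℝ) else 0) - 1 / p) *
              ((if q ∣ n then (1 : ℝ) else 0) - 1 / q)| ≤ 1 * 3 := by
            rw [abs_mul, abs_mul]
            refine mul_le_mul ?_ h1 (abs_nonneg _) zero_le_one
            calc |b p| * |b q| ≤ 1 * 1 := mul_le_mul (hb p) (hb q) (abs_nonneg _) zero_le_one
              _ = 1 := one_mul 1
          have := (le_abs_self _).trans h2
          linarith
    _ = 2 * X * ∑ l ∈ PP P y, (b l) ^ 2 / l + 3 * ((PP P y).card : ℝ) ^ 2 := by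
        have e4 : ∀ p ∈ PP P y, ∑ q ∈ PP P y, ((if p = q then 2 * X * ((b p) ^ 2 / p) else 0) + 3)
            = 2 * X * ((b p) ^ 2 / p) + 3 * ((PP P y).card : ℝ) := by
          intro p hp
          rw [sum_add_distrib, sum_ite_eq, if_pos hp, sum_const, nsmul_eq_mul]
          ring
        rw [sum_congr rfl e4, sum_add_distrib, sum_const, nsmul_eq_mul, mul_sum]
        ring
    _ ≤ 2 * X * ∑ l ∈ PP P y, (b l) ^ 2 / l + 3 * (y : ℝ) ^ 2 := by
        have h := pow_le_pow_left₀ (Nat.cast_nonneg _) hcard 2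
        linarith

/-- the sum over `n` of the pointwise bounds -/
theorem sum_pt (a : ℕ → ℝ) (ha : ∀ l, 0 ≤ a l) {P y X : ℕ} (hP : P ≠ 0) (hPy : P ≤ y) :
    ∑ n ∈ Ioc 0 X, ∑ l ∈ PP P y, ((if l ∣ n then a l else 0) + (if l ^ 2 ∣ n then 2 else 0)) ≤
      X * (∑ l ∈ PP P y, a l / l) + X * (2 / P) := by
  calc ∑ n ∈ Ioc 0 X, ∑ l ∈ PP P y, ((if l ∣ n then a l else 0) + (if l ^ 2 ∣ n then 2 else 0))
      = ∑ l ∈ PP P y, (((Ioc 0 X).filter (fun n => l ∣ n)).card * a l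
          + ((Ioc 0 X).filter (fun n => l ^ 2 ∣ n)).card * 2) := by
        rw [sum_comm]
        refine sum_congr rfl fun l _ => ?_
        rw [sum_add_distrib, ← sum_filter, ← sum_filter, sum_const, sum_const, nsmul_eq_mul,
          nsmul_eq_mul]
    _ ≤ ∑ l ∈ PP P y, ((X : ℝ) / l * a l + (X : ℝ) / (l ^ 2 : ℕ) * 2) := by
        refine sum_le_sum fun l hl => ?_
        have hl0 := (Pool.Agent.W290.TL.mem_PP.mp hl).2.pos
        refine add_le_add ?_ ?_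
        · exact mul_le_mul_of_nonneg_right (count_dvd X l hl0) (ha l)
        · exact mul_le_mul_of_nonneg_right (count_dvd X (l ^ 2) (pow_pos hl0 2)) (by norm_num)
    _ = X * (∑ l ∈ PP P y, a l / l) + X * (2 * ∑ l ∈ PP P y, ((l : ℝ) ^ 2)⁻¹) := by
        rw [sum_add_distrib, mul_sum, mul_sum, mul_sum]
        congr 1
        · refine sum_congr rfl fun l _ => ?_
          ring
        · refine sum_congr rfl fun l _ => ?_
          push_cast
          ring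
    _ ≤ X * (∑ l ∈ PP P y, a l / l) + X * (2 / P) := by
        have h1 : ∑ l ∈ PP P y, ((l : ℝ) ^ 2)⁻¹ ≤ ∑ l ∈ Ioc P y, ((l : ℝ) ^ 2)⁻¹ := by
          unfold PP
          exact sum_le_sum_of_subset_of_nonneg (filter_subset _ _) (fun _ _ _ => by positivity)
        have h2 := sum_Ioc_inv_sq_le_sub (α := ℝ) hP hPy
        have h3 : (0 : ℝ) ≤ (y : ℝ)⁻¹ := by positivity
        have h4 : 2 * ∑ l ∈ PP P y, ((l : ℝ) ^ 2)⁻¹ ≤ 2 / P := by
          rw [div_eq_mul_inv]; linarith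
        have h5 : (X : ℝ) * (2 * ∑ l ∈ PP P y, ((l : ℝ) ^ 2)⁻¹) ≤ X * (2 / P) :=
          mul_le_mul_of_nonneg_left h4 (Nat.cast_nonneg _)
        linarith

theorem sm_cop (P y n : ℕ) : Nat.Coprime (sm 0 P n) (sm P y n) := by
  unfold sm
  apply Nat.Coprime.prod_left
  intro p hp
  apply Nat.Coprime.prod_right
  intro q hq
  apply Nat.Coprime.pow
  rw [Nat.coprime_primes (Pool.Agent.W290.TL.mem_PP.mp hp).2 (Pool.Agent.W290.TL.mem_PP.mp hq).2]
  rintro rfl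
  have := (Pool.Agent.W290.TL.mem_PP.mp hp).1.2
  have := (Pool.Agent.W290.TL.mem_PP.mp hq).1.1
  omega

/-- A multiplicative function that is close to `1` at the primes of `(P, X]` in the pretentious sense is close on
average to a constant times its value at the `P`-smooth part. -/
theorem tkm : ∀ ε : ℝ, 0 < ε → ∃ η : ℝ, 0 < η ∧ ∃ P₁ : ℕ, 1 ≤ P₁ ∧ ∀ P : ℕ, P₁ ≤ P → ∃ X₀ : ℕ, ∀ X : ℕ, X₀ ≤ X →
    ∀ u : ℕ → ℂ, Mul1 u → ∑ p ∈ PP P X, (1 - (u p).re) / p ≤ η →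
      ∃ c : ℂ, ‖c‖ ≤ 1 ∧ ∑ n ∈ Ioc 0 X, ‖u n - c * u (sm 0 P n)‖ ≤ ε * X := by
  intro ε hε
  obtain ⟨δ, hδ, y0, hnear⟩ := Pool.Agent.W290.TL.near 5 (ε / 2) (by norm_num) (by positivity)
  obtain ⟨P₁, hP₁⟩ := exists_nat_ge (16 / ε)
  obtain ⟨Y1, hY1⟩ := exists_nat_ge (10 / ε)
  refine ⟨min δ (min (ε / 24) (ε ^ 2 / 128)), by positivity, max P₁ 1, le_max_right _ _, fun P hP => ?_⟩
  have hP1 : 1 ≤ P := (le_max_right _ _).trans hP
  have hPP : P₁ ≤ P := (le_max_left _ _).trans hP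
  set Y := max (max 6 Y1) (max y0 P) with hY
  refine ⟨Y ^ 4, fun X hX u hu hη => ?_⟩
  have hη1 : ∑ p ∈ PP P X, (1 - (u p).re) / p ≤ δ := hη.trans (min_le_left _ _)
  have hη2 : ∑ p ∈ PP P X, (1 - (u p).re) / p ≤ ε / 24 :=
    hη.trans ((min_le_right _ _).trans (min_le_left _ _))
  have hη3 : ∑ p ∈ PP P X, (1 - (u p).re) / p ≤ ε ^ 2 / 128 :=
    hη.trans ((min_le_right _ _).trans (min_le_right _ _))
  set y := Nat.sqrt (Nat.sqrt X) with hy
  have hYy : Y ≤ y := by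
    rw [hy, Nat.le_sqrt', Nat.le_sqrt', ← pow_mul]
    exact hX
  have hy6 : 6 ≤ y := le_trans (le_trans (le_max_left _ _) (le_max_left _ _)) hYy
  have hyY1 : Y1 ≤ y := le_trans (le_trans (le_max_right _ _) (le_max_left _ _)) hYy
  have hyy0 : y0 ≤ y := le_trans (le_trans (le_max_left _ _) (le_max_right _ _)) hYy
  have hPy : P ≤ y := le_trans (le_trans (le_max_right _ _) (le_max_right _ _)) hYy
  have hy4 : y ^ 4 ≤ X := by
    have h1 : y ^ 2 ≤ Nat.sqrt X := Nat.sqrt_le' _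
    have h2 : (Nat.sqrt X) ^ 2 ≤ X := Nat.sqrt_le' _
    calc y ^ 4 = (y ^ 2) ^ 2 := by ring
      _ ≤ (Nat.sqrt X) ^ 2 := Nat.pow_le_pow_left h1 2
      _ ≤ X := h2
  have hyX : y ≤ X := le_trans (Nat.le_self_pow (by norm_num) y) hy4
  have hX5 : X ≤ y ^ 5 := by
    have h1 : Nat.sqrt X < (y + 1) ^ 2 := Nat.lt_succ_sqrt' _
    have h2 : X < (Nat.sqrt X + 1) ^ 2 := Nat.lt_succ_sqrt' _
    have h3 : X < (y + 1) ^ 4 := by
      calc X < (Nat.sqrt X + 1) ^ 2 := h2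
        _ ≤ ((y + 1) ^ 2) ^ 2 := Nat.pow_le_pow_left h1 2
        _ = (y + 1) ^ 4 := by ring
    have h4 : 6 ^ 4 * (y + 1) ^ 4 ≤ 7 ^ 4 * y ^ 4 := by
      rw [← mul_pow, ← mul_pow]
      exact Nat.pow_le_pow_left (by omega) 4
    have h5 : 6 * y ^ 4 ≤ y * y ^ 4 := Nat.mul_le_mul_right _ hy6
    have h6 : y ^ 5 = y * y ^ 4 := by ring
    rw [h6]
    omega
  have hyr : (6 : ℝ) ≤ y := by exact_mod_cast hy6
  have hXr : (0 : ℝ) < X := by
    have : 0 < X := lt_of_lt_of_le (by omega) hyX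
    exact_mod_cast this
  have ha0 : ∀ l, 0 ≤ 1 - (u l).re := fun l => re_le_one' (hu.1 l)
  -- monotonicity
  have hsubset1 : PP y X ⊆ PP P X := by
    intro l hl
    rw [Pool.Agent.W290.TL.mem_PP] at hl ⊢
    exact ⟨⟨by omega, hl.1.2⟩, hl.2⟩
  have hsubset2 : PP P y ⊆ PP P X := by
    intro l hl
    rw [Pool.Agent.W290.TL.mem_PP] at hl ⊢
    exact ⟨⟨hl.1.1, by omega⟩, hl.2⟩
  have hsy : ∑ p ∈ PP y X, (1 - (u p).re) / p ≤ δ :=
    (sum_le_sum_of_subset_of_nonneg hsubset1 (fun l _ _ => div_nonneg (ha0 l) (Nat.cast_nonneg _))).trans hη1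
  have hsp : ∑ p ∈ PP P y, (1 - (u p).re) / p ≤ ∑ p ∈ PP P X, (1 - (u p).re) / p :=
    sum_le_sum_of_subset_of_nonneg hsubset2 (fun l _ _ => div_nonneg (ha0 l) (Nat.cast_nonneg _))
  have hA := hnear y X hyy0 hyX hX5 u hu hsy
  set S : ℝ := ∑ l ∈ PP P y, (u l).im / l with hS
  refine ⟨ei S, (norm_ei _).le, ?_⟩
  -- pointwise
  have hpt : ∀ n ∈ Ioc 0 X, ‖u n - ei S * u (sm 0 P n)‖ ≤ ‖u n - u (sm 0 y n)‖ +
      (∑ l ∈ PP P y, ((if l ∣ n then 3 * (1 - (u l).re) else 0) + (if l ^ 2 ∣ n then 2 else 0))) +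
      |∑ l ∈ PP P y, (if l ∣ n then (u l).im else 0) - S| := by
    intro n hn
    rw [mem_Ioc] at hn
    have e1 : u (sm 0 y n) = u (sm 0 P n) * u (sm P y n) := by
      rw [Pool.Agent.W208.TL.sm_split hPy n]
      exact hu.2.2 _ _ (sm_cop P y n)
    have e2 : u n - ei S * u (sm 0 P n) = (u n - u (sm 0 y n)) +
        u (sm 0 P n) * ((u (sm P y n) - ei (∑ l ∈ PP P y, (if l ∣ n then (u l).im else 0))) +
          (ei (∑ l ∈ PP P y, (if l ∣ n then (u l).im else 0)) - ei S)) := by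
      rw [e1]; ring
    rw [e2]
    refine (norm_add_le _ _).trans ?_
    rw [norm_mul]
    have h1 := sm_ei hu (P := P) (y := y) (n := n) (by omega)
    have h2 := ei_diff (∑ l ∈ PP P y, (if l ∣ n then (u l).im else 0)) S
    have h3 := norm_add_le (u (sm P y n) - ei (∑ l ∈ PP P y, (if l ∣ n then (u l).im else 0)))
      (ei (∑ l ∈ PP P y, (if l ∣ n then (u l).im else 0)) - ei S)
    have h4 := mul_le_mul (hu.1 (sm 0 P n)) (h3.trans (add_le_add h1 h2)) (norm_nonneg _) zero_le_one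
    rw [one_mul] at h4
    linarith
  refine (sum_le_sum hpt).trans ?_
  rw [sum_add_distrib, sum_add_distrib]
  have hB := sum_pt (fun l => 3 * (1 - (u l).re)) (fun l => by have := ha0 l; linarith) (X := X)
    (by omega : P ≠ 0) hPy
  have hB1 : ∑ l ∈ PP P y, 3 * (1 - (u l).re) / l ≤ ε / 8 := by
    have e : ∑ l ∈ PP P y, 3 * (1 - (u l).re) / l = 3 * ∑ l ∈ PP P y, (1 - (u l).re) / l := by
      rw [mul_sum]
      exact sum_congr rfl fun l _ => by ring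
    rw [e]
    linarith
  have hB2 : 2 / (P : ℝ) ≤ ε / 8 := by
    have h6 : 16 / ε ≤ P := hP₁.trans (by exact_mod_cast hPP)
    have hP0 : (0 : ℝ) < P := by exact_mod_cast hP1
    rw [div_le_iff₀ hε] at h6
    rw [div_le_iff₀ hP0]
    linarith
  -- Turán–Kubilius
  have hC := tk (fun l => (u l).im) (fun l => (Complex.abs_im_le_norm _).trans (hu.1 l)) P y X
  have hC1 : ∑ l ∈ PP P y, (u l).im ^ 2 / l ≤ ε ^ 2 / 64 := by
    have h1 : ∑ l ∈ PP P y, (u l).im ^ 2 / l ≤ 2 * ∑ l ∈ PP P y, (1 - (u l).re) / l := by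
      rw [mul_sum]
      refine sum_le_sum fun l _ => ?_
      rw [← mul_div_assoc]
      exact div_le_div_of_nonneg_right (im_sq_le (hu.1 l)) (Nat.cast_nonneg _)
    linarith
  have hC2 : 3 * (y : ℝ) ^ 2 ≤ ε ^ 2 / 32 * X := by
    have h1 : 10 / ε ≤ y := hY1.trans (by exact_mod_cast hyY1)
    rw [div_le_iff₀ hε] at h1
    have h2 : (y : ℝ) ^ 4 ≤ X := by exact_mod_cast hy4
    have h3 : 100 ≤ (y * ε) ^ 2 := by nlinarith
    have h4 : ε ^ 2 / 32 * (y : ℝ) ^ 4 ≤ ε ^ 2 / 32 * X := mul_le_mul_of_nonneg_left h2 (by positivity)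
    have h5 : ε ^ 2 / 32 * (y : ℝ) ^ 4 = ((y * ε) ^ 2 / 32) * (y : ℝ) ^ 2 := by ring
    have h6 : 3 * (y : ℝ) ^ 2 ≤ ((y * ε) ^ 2 / 32) * (y : ℝ) ^ 2 :=
      mul_le_mul_of_nonneg_right (by linarith) (sq_nonneg _)
    linarith
  have hD : ∑ n ∈ Ioc 0 X, |∑ l ∈ PP P y, (if l ∣ n then (u l).im else 0) - S| ≤ ε / 4 * X := by
    have h1 := sq_sum_le_card_mul_sum_sq (s := Ioc 0 X)
      (f := fun n => |∑ l ∈ PP P y, (if l ∣ n then (u l).im else 0) - S|)
    rw [Nat.card_Ioc, Nat.sub_zero] at h1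
    simp_rw [sq_abs] at h1
    have h2 : (X : ℝ) * ∑ n ∈ Ioc 0 X, (∑ l ∈ PP P y, (if l ∣ n then (u l).im else 0) - S) ^ 2 ≤
        (ε / 4 * X) ^ 2 := by
      have h3 : ∑ n ∈ Ioc 0 X, (∑ l ∈ PP P y, (if l ∣ n then (u l).im else 0) - S) ^ 2 ≤
          2 * X * (ε ^ 2 / 64) + ε ^ 2 / 32 * X := by
        refine hC.trans (add_le_add ?_ hC2)
        exact mul_le_mul_of_nonneg_left hC1 (by positivity)
      have h4 := mul_le_mul_of_nonneg_left h3 hXr.le
      have e : (X : ℝ) * (2 * X * (ε ^ 2 / 64) + ε ^ 2 / 32 * X) = (ε / 4 * X) ^ 2 := by ring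
      linarith
    exact le_of_sq_le_sq (h1.trans h2) (by positivity)
  have h7 := mul_le_mul_of_nonneg_left hB1 hXr.le
  have h8 := mul_le_mul_of_nonneg_left hB2 hXr.le
  have h9 : ∑ n ∈ Ioc 0 X, ∑ l ∈ PP P y, ((if l ∣ n then 3 * (1 - (u l).re) else 0) +
      (if l ^ 2 ∣ n then 2 else 0)) ≤ X * (ε / 8) + X * (ε / 8) := by linarith
  linarith

end Pool.Agent.V5helper42.EP
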