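import Pool.Agent.V5helper42.EP.Near

/-! # A multiplicative function close to a character at the primes above `P` is nearly periodic -/

set_option autoImplicit false

namespace Pool.Agent.V5helper42.EP

open Finset Pool.Agent.W208.TL

theorem sm_mul (w y : ℕ) {m n : ℕ} (hm : m ≠ 0) (hn : n ≠ 0) : sm w y (m * n) = sm w y m * sm w y n := by
  unfold sm
  rw [← prod_mul_distrib]
  refine prod_congr rfl fun l _ => ?_
  rw [Nat.factorization_mul hm hn, Finsupp.add_apply, pow_add]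

theorem sm_one (w y : ℕ) : sm w y 1 = 1 := by
  unfold sm
  simp

theorem sm_zero (w y : ℕ) : sm w y 0 = 1 := by
  unfold sm
  simp

theorem sm_prime {P X p : ℕ} (hp : p ∈ PP P X) : sm P X p = p := by
  unfold sm
  rw [prod_eq_single p]
  · rw [Nat.Prime.factorization_self (mem_PP.1 hp).2, pow_one]
  · intro m _ hne
    rw [Nat.Prime.factorization (mem_PP.1 hp).2, Finsupp.single_apply, if_neg (Ne.symm hne), pow_zero]
  · intro h
    exact absurd hp h

theorem sm_sm (P X n : ℕ) : sm P X (sm 0 P n) = 1 := by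
  unfold sm
  refine prod_eq_one fun l hl => ?_
  have h : (∏ l ∈ PP 0 P, l ^ n.factorization l).factorization l = 0 := by
    apply Nat.factorization_eq_zero_of_not_dvd
    intro hd
    rw [(mem_PP.1 hl).2.prime.dvd_finsetProd_iff] at hd
    obtain ⟨m, hm, hd⟩ := hd
    have h1 := (mem_PP.1 hl).2.dvd_of_dvd_pow hd
    rw [Nat.prime_dvd_prime_iff_eq (mem_PP.1 hl).2 (mem_PP.1 hm).2] at h1
    have := (mem_PP.1 hl).1.1
    have := (mem_PP.1 hm).1.2
    omega
  rw [h, pow_zero]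

theorem sm_sm0 (P n : ℕ) : sm 0 P (sm 0 P n) = sm 0 P n := by
  conv_lhs => unfold sm
  conv_rhs => unfold sm
  refine prod_congr rfl fun l hl => ?_
  congr 1
  have h0 : ∀ m ∈ PP 0 P, m ^ n.factorization m ≠ 0 := fun m hm => pow_ne_zero _ (mem_PP.1 hm).2.ne_zero
  rw [Nat.factorization_prod h0]
  simp only [Finsupp.coe_finsetSum, Finset.sum_apply, Nat.factorization_pow, Finsupp.coe_smul,
    Pi.smul_apply, smul_eq_mul]
  rw [sum_eq_single l]
  · rw [Nat.Prime.factorization_self (mem_PP.1 hl).2, mul_one]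
  · intro m hm hne
    rw [Nat.Prime.factorization (mem_PP.1 hm).2, Finsupp.single_apply, if_neg hne, mul_zero]
  · intro h
    exact absurd hl h

theorem sm_coprime {P X n q : ℕ} (hq : 1 ≤ q) (hqP : q ≤ P) : Nat.Coprime (sm P X n) q := by
  unfold sm
  apply Nat.Coprime.prod_left
  intro l hl
  apply Nat.Coprime.pow_left
  rw [Nat.Prime.coprime_iff_not_dvd (mem_PP.1 hl).2]
  intro hd
  have := Nat.le_of_dvd hq hd
  have := (mem_PP.1 hl).1.1
  omega

/-- the auxiliary multiplicative function -/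
noncomputable def uu (v : ℕ → ℂ) {q : ℕ} (χ : DirichletCharacter ℂ q) (P X : ℕ) (n : ℕ) : ℂ :=
  v n * star (χ ((sm P X n : ℕ) : ZMod q))

theorem uu_mul1 {v : ℕ → ℂ} (hv : Mul1 v) {q : ℕ} (χ : DirichletCharacter ℂ q) (P X : ℕ) :
    Mul1 (uu v χ P X) := by
  refine ⟨fun n => ?_, ?_, fun m n hmn => ?_⟩
  · unfold uu
    rw [norm_mul, norm_star]
    calc ‖v n‖ * ‖χ ((sm P X n : ℕ) : ZMod q)‖ ≤ 1 * 1 :=
          mul_le_mul (hv.1 n) (DirichletCharacter.norm_le_one χ _) (norm_nonneg _) zero_le_one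
      _ = 1 := one_mul 1
  · unfold uu
    rw [hv.2.1, sm_one, Nat.cast_one, map_one, star_one, mul_one]
  · unfold uu
    rw [hv.2.2 m n hmn]
    have hs : sm P X (m * n) = sm P X m * sm P X n := by
      by_cases hm : m = 0
      · subst hm
        rw [Nat.coprime_zero_left] at hmn
        rw [hmn, mul_one, sm_one, mul_one]
      · by_cases hn : n = 0
        · subst hn
          rw [Nat.coprime_zero_right] at hmn
          rw [hmn, one_mul, sm_one, one_mul]
        · exact sm_mul P X hm hn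
    rw [hs, Nat.cast_mul, map_mul, star_mul']
    ring

theorem chi_unit {q n : ℕ} (χ : DirichletCharacter ℂ q) (h : Nat.Coprime n q) :
    χ (n : ZMod q) * star (χ (n : ZMod q)) = 1 := by
  have hu : IsUnit (n : ZMod q) := (ZMod.isUnit_iff_coprime n q).2 h
  obtain ⟨u, hu⟩ := hu
  have h1 : ‖χ (n : ZMod q)‖ = 1 := by
    rw [← hu]
    exact DirichletCharacter.unit_norm_eq_one χ u
  have h2 : χ (n : ZMod q) * star (χ (n : ZMod q)) = (Complex.normSq (χ (n : ZMod q)) : ℂ) :=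
    Complex.mul_conj _
  rw [h2, Complex.normSq_eq_norm_sq, h1]
  simp

/-- the periodic model -/
noncomputable def rr (v : ℕ → ℂ) {q : ℕ} (χ : DirichletCharacter ℂ q) (P V : ℕ) (n : ℕ) : ℂ :=
  v (Nat.gcd n (QQ P V)) * χ ((n / Nat.gcd n (QQ P V) : ℕ) : ZMod q)

theorem rr_norm {v : ℕ → ℂ} (hv : Mul1 v) {q : ℕ} (χ : DirichletCharacter ℂ q) (P V n : ℕ) :
    ‖rr v χ P V n‖ ≤ 1 := by
  unfold rr
  rw [norm_mul]
  calc _ ≤ (1 : ℝ) * 1 :=
        mul_le_mul (hv.1 _) (DirichletCharacter.norm_le_one χ _) (norm_nonneg _) zero_le_one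
    _ = 1 := one_mul 1

theorem rr_per (v : ℕ → ℂ) {q : ℕ} (χ : DirichletCharacter ℂ q) (P V : ℕ) {F : ℕ} (hF : q ∣ F) (n : ℕ) :
    rr v χ P V (n + QQ P V * F) = rr v χ P V n := by
  have hg : Nat.gcd (n + QQ P V * F) (QQ P V) = Nat.gcd n (QQ P V) := by
    rw [Nat.gcd_add_mul_left_left]
  unfold rr
  rw [hg]
  congr 2
  obtain ⟨c, hc⟩ := Nat.gcd_dvd_right n (QQ P V)
  obtain ⟨e, he⟩ := hF
  have hg0 : 0 < Nat.gcd n (QQ P V) := Nat.gcd_pos_of_pos_right _ (QQ_pos P V)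
  have h1 : (n + QQ P V * F) / Nat.gcd n (QQ P V) = n / Nat.gcd n (QQ P V) + c * F := by
    have h2 : QQ P V * F = Nat.gcd n (QQ P V) * (c * F) := by
      conv_lhs => rw [hc]
      ring
    rw [h2, Nat.add_mul_div_left _ _ hg0]
  rw [h1, Nat.cast_add]
  have h2 : ((c * F : ℕ) : ZMod q) = 0 := by
    rw [ZMod.natCast_eq_zero_iff]
    exact ⟨c * e, by rw [he]; ring⟩
  rw [h2, add_zero]

/-- the comparison at a typical `n` -/
theorem rr_eq {v : ℕ → ℂ} {q : ℕ} (hq : 1 ≤ q) (χ : DirichletCharacter ℂ q) {P V X n : ℕ} (hqP : q ≤ P) (hPX : P ≤ X)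
    (hn0 : n ≠ 0) (hnX : n ≤ X) (h : ∀ l ∈ PP 0 P, ¬ l ^ V ∣ n) (c : ℂ) :
    ‖v n - c * rr v χ P V n‖ = ‖uu v χ P X n - c * uu v χ P X (sm 0 P n)‖ := by
  have hsm := Pool.Agent.W290.TL.eq_sm_mul hPX hn0 hnX
  have hs0 : 0 < sm 0 P n := by
    rcases Nat.eq_zero_or_pos (sm 0 P n) with h0 | h0
    · rw [h0, zero_mul] at hsm; exact absurd hsm hn0
    · exact h0
  have hdiv : n / sm 0 P n = sm P X n := Nat.div_eq_of_eq_mul_right hs0 hsm
  have hcop : Nat.Coprime (sm P X n) q := sm_coprime hq hqP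
  have hu := chi_unit χ hcop
  unfold rr uu
  rw [gcd_QQ h, hdiv, sm_sm, Nat.cast_one, map_one, star_one, mul_one]
  have e : v n - c * (v (sm 0 P n) * χ ((sm P X n : ℕ) : ZMod q)) =
      χ ((sm P X n : ℕ) : ZMod q) * (v n * star (χ ((sm P X n : ℕ) : ZMod q)) - c * v (sm 0 P n)) := by
    calc _ = v n * (χ ((sm P X n : ℕ) : ZMod q) * star (χ ((sm P X n : ℕ) : ZMod q))) -
          c * (v (sm 0 P n) * χ ((sm P X n : ℕ) : ZMod q)) := by rw [hu, mul_one]
      _ = _ := by ring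
  rw [e, norm_mul]
  have h1 : ‖χ ((sm P X n : ℕ) : ZMod q)‖ = 1 := by
    have h2 : ‖χ ((sm P X n : ℕ) : ZMod q)‖ * ‖χ ((sm P X n : ℕ) : ZMod q)‖ = 1 := by
      have := congrArg norm hu
      rwa [norm_mul, norm_star, norm_one] at this
    nlinarith [norm_nonneg (χ ((sm P X n : ℕ) : ZMod q))]
  rw [h1, one_mul]

end Pool.Agent.V5helper42.EP
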