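import Pool.Agent.V5helper42.EP.Near2

/-! # A multiplicative function close to a character at the primes above `P` is nearly periodic: conclusion -/

set_option autoImplicit false

namespace Pool.Agent.V5helper42.EP

open Finset Pool.Agent.W208.TL

open Classical in
/-- few integers are divisible by a high power of a small prime -/
theorem count_pow (P V X : ℕ) :
    (((Ioc 0 X).filter (fun n => ¬ ∀ l ∈ PP 0 P, ¬ l ^ V ∣ n)).card : ℝ) ≤ P * (X / 2 ^ V) := by
  have h1 : (Ioc 0 X).filter (fun n => ¬ ∀ l ∈ PP 0 P, ¬ l ^ V ∣ n) ⊆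
      (PP 0 P).biUnion (fun l => (Ioc 0 X).filter (fun n => l ^ V ∣ n)) := by
    intro n hn
    rw [mem_filter] at hn
    obtain ⟨hn1, hn2⟩ := hn
    push Not at hn2
    obtain ⟨l, hl, hd⟩ := hn2
    rw [mem_biUnion]
    exact ⟨l, hl, mem_filter.2 ⟨hn1, hd⟩⟩
  have h2 : (((Ioc 0 X).filter (fun n => ¬ ∀ l ∈ PP 0 P, ¬ l ^ V ∣ n)).card : ℝ) ≤
      ∑ l ∈ PP 0 P, (((Ioc 0 X).filter (fun n => l ^ V ∣ n)).card : ℝ) := by
    have := (card_le_card h1).trans card_biUnion_le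
    exact_mod_cast this
  refine h2.trans ?_
  have h3 : ∀ l ∈ PP 0 P, (((Ioc 0 X).filter (fun n => l ^ V ∣ n)).card : ℝ) ≤ X / 2 ^ V := by
    intro l hl
    have hl2 := (mem_PP.1 hl).2.two_le
    refine (Pool.Agent.W290.TL.count_dvd X (l ^ V) (pow_pos (by omega) V)).trans ?_
    have h4 : (2 : ℝ) ^ V ≤ ((l ^ V : ℕ) : ℝ) := by
      exact_mod_cast Nat.pow_le_pow_left hl2 V
    exact div_le_div_of_nonneg_left (Nat.cast_nonneg _) (by positivity) h4
  refine (sum_le_sum h3).trans ?_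
  rw [sum_const, nsmul_eq_mul]
  have hcard : ((PP 0 P).card : ℝ) ≤ P := by
    have h : (PP 0 P).card ≤ P := by
      unfold PP
      refine (card_filter_le _ _).trans ?_
      rw [Nat.card_Ioc]; omega
    exact_mod_cast h
  exact mul_le_mul_of_nonneg_right hcard (by positivity)

/-- A multiplicative function that is close to a Dirichlet character of modulus `≤ P` at the primes of `(P, X]` is
close on average to a periodic function with a period that depends only on `P` and the precision. -/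
theorem near_per : ∀ ε : ℝ, 0 < ε → ∃ η : ℝ, 0 < η ∧ ∀ P : ℕ, ∃ D : ℕ, 1 ≤ D ∧ ∃ X₀ : ℕ, ∀ X : ℕ, X₀ ≤ X →
    ∀ v : ℕ → ℂ, Mul1 v → ∀ q : ℕ, 1 ≤ q → q ≤ P → ∀ χ : DirichletCharacter ℂ q,
      ∑ p ∈ PP P X, (1 - (v p * star (χ (p : ZMod q))).re) / p ≤ η →
      ∃ ρ : ℕ → ℂ, (∀ n, ‖ρ n‖ ≤ 1) ∧ (∀ n, ρ (n + D) = ρ n) ∧ ∑ n ∈ Ioc 0 X, ‖v n - ρ n‖ ≤ ε * X := by
  classical
  intro ε hε
  obtain ⟨η, hη, P₁, hP₁, h⟩ := tkm (ε / 2) (by positivity)
  refine ⟨η, hη, fun P => ?_⟩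
  set P' := max P P₁ with hP'
  obtain ⟨X₀, hX₀⟩ := h P' (le_max_right _ _)
  -- the exponent
  obtain ⟨V, hV⟩ := pow_unbounded_of_one_lt (4 * P' / ε) (by norm_num : (1 : ℝ) < 2)
  refine ⟨QQ P' V * P'.factorial, Nat.mul_pos (QQ_pos _ _) (Nat.factorial_pos _), max X₀ P', ?_⟩
  intro X hX v hv q hq hqP χ hs
  have hX1 : X₀ ≤ X := (le_max_left _ _).trans hX
  have hX2 : P' ≤ X := (le_max_right _ _).trans hX
  have hqP' : q ≤ P' := hqP.trans (le_max_left _ _)
  have hu := uu_mul1 hv χ P' X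
  have hsum : ∑ p ∈ PP P' X, (1 - (uu v χ P' X p).re) / p ≤ η := by
    refine le_trans ?_ hs
    have h1 : ∑ p ∈ PP P' X, (1 - (uu v χ P' X p).re) / p =
        ∑ p ∈ PP P' X, (1 - (v p * star (χ (p : ZMod q))).re) / p := by
      refine sum_congr rfl fun p hp => ?_
      unfold uu
      rw [sm_prime hp]
    rw [h1]
    refine sum_le_sum_of_subset_of_nonneg ?_ ?_
    · intro l hl
      rw [mem_PP] at hl ⊢
      have : P ≤ P' := le_max_left _ _
      exact ⟨⟨by omega, hl.1.2⟩, hl.2⟩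
    · intro l _ _
      refine div_nonneg ?_ (Nat.cast_nonneg _)
      have h2 : ‖v l * star (χ (l : ZMod q))‖ ≤ 1 := by
        rw [norm_mul, norm_star]
        calc _ ≤ (1 : ℝ) * 1 :=
              mul_le_mul (hv.1 _) (DirichletCharacter.norm_le_one χ _) (norm_nonneg _) zero_le_one
          _ = 1 := one_mul 1
      exact re_le_one' h2
  obtain ⟨c, hc, hcs⟩ := hX₀ X hX1 _ hu hsum
  refine ⟨fun n => c * rr v χ P' V n, fun n => ?_, fun n => ?_, ?_⟩
  · rw [norm_mul]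
    calc _ ≤ (1 : ℝ) * 1 := mul_le_mul hc (rr_norm hv χ P' V n) (norm_nonneg _) zero_le_one
      _ = 1 := one_mul 1
  · show c * rr v χ P' V (n + QQ P' V * P'.factorial) = c * rr v χ P' V n
    rw [rr_per v χ P' V (Nat.dvd_factorial hq hqP')]
  · have hpt : ∀ n ∈ Ioc 0 X, ‖v n - c * rr v χ P' V n‖ ≤
        ‖uu v χ P' X n - c * uu v χ P' X (sm 0 P' n)‖ +
          (if ¬ ∀ l ∈ PP 0 P', ¬ l ^ V ∣ n then 2 else 0) := by
      intro n hn
      rw [mem_Ioc] at hn
      by_cases hb : ∀ l ∈ PP 0 P', ¬ l ^ V ∣ n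
      · rw [if_neg (not_not.2 hb), add_zero]
        exact (rr_eq hq χ hqP' hX2 (by omega) hn.2 hb c).le
      · rw [if_pos hb]
        have h1 : ‖v n - c * rr v χ P' V n‖ ≤ 2 := by
          refine (norm_sub_le _ _).trans ?_
          rw [norm_mul]
          have h2 := hv.1 n
          have h3 : ‖c‖ * ‖rr v χ P' V n‖ ≤ 1 * 1 :=
            mul_le_mul hc (rr_norm hv χ P' V n) (norm_nonneg _) zero_le_one
          linarith
        have h4 := norm_nonneg (uu v χ P' X n - c * uu v χ P' X (sm 0 P' n))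
        linarith
    refine (sum_le_sum hpt).trans ?_
    rw [sum_add_distrib]
    have h2 : ∑ n ∈ Ioc 0 X, (if ¬ ∀ l ∈ PP 0 P', ¬ l ^ V ∣ n then (2 : ℝ) else 0) ≤ ε / 2 * X := by
      rw [← sum_filter, sum_const, nsmul_eq_mul]
      have h3 := count_pow P' V X
      have h4 : (P' : ℝ) * (X / 2 ^ V) ≤ ε / 4 * X := by
        have h5 : (P' : ℝ) / 2 ^ V ≤ ε / 4 := by
          rw [div_lt_iff₀ hε] at hV
          rw [div_le_iff₀ (by positivity)]
          linarith
        have h6 := mul_le_mul_of_nonneg_right h5 (Nat.cast_nonneg X : (0 : ℝ) ≤ X)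
        calc (P' : ℝ) * (X / 2 ^ V) = P' / 2 ^ V * X := by ring
          _ ≤ ε / 4 * X := h6
      linarith
    linarith

end Pool.Agent.V5helper42.EP
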