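import Pool.Agent.V5helper42.EP.Phase
import Pool.Agent.W208.TL.Basic

/-!
# The phase attached to a pair of primes
-/

set_option autoImplicit false

namespace Pool.Agent.V5helper42.EP

open Finset
open Pool.Agent.W208.TL (nit lf)

/-- the moments -/
noncomputable def mom {k : ℕ} (a : Fin k → ℤ) (t : Fin k → ℝ) (i : ℕ) : ℝ := ∑ j, t j * (a j : ℝ) ^ i

/-- the coefficients of the phase of a pair -/
noncomputable def bb {k : ℕ} (a : Fin k → ℤ) (t : Fin k → ℝ) (p q X i : ℕ) : ℝ :=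
  (-1) ^ (i + 1) / i * mom a t i * ((1 / (p : ℝ)) ^ i - (1 / (q : ℝ)) ^ i) * (1 / (X : ℝ)) ^ i

/-- the phase at `r m` -/
noncomputable def ph {k : ℕ} (a : Fin k → ℤ) (t : Fin k → ℝ) (n : ℕ) : ℝ :=
  ∑ j, t j * Real.log (lf 1 (a j) n)

lemma prod_nit {k : ℕ} (a : Fin k → ℤ) (t : Fin k → ℝ) (n : ℕ) :
    ∏ j, nit (t j) (lf 1 (a j) n) = Complex.exp (Complex.I * (ph a t n : ℝ)) := by
  unfold ph nit
  rw [← Complex.exp_sum]
  congr 1
  push_cast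
  rw [mul_sum]

lemma norm_expI (x : ℝ) : ‖Complex.exp (Complex.I * (x : ℝ))‖ = 1 := by
  rw [mul_comm, Complex.norm_exp_ofReal_mul_I]

lemma star_expI (x : ℝ) : star (Complex.exp (Complex.I * (x : ℝ))) =
    Complex.exp (Complex.I * ((-x : ℝ) : ℂ)) := by
  rw [Complex.star_def, ← Complex.exp_conj, map_mul, Complex.conj_I, Complex.conj_ofReal]
  congr 1
  push_cast
  ring

lemma mul_expI (x y : ℝ) : Complex.exp (Complex.I * (x : ℝ)) * Complex.exp (Complex.I * (y : ℝ)) =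
    Complex.exp (Complex.I * ((x + y : ℝ) : ℂ)) := by
  rw [← Complex.exp_add]
  congr 1
  push_cast
  ring

/-- the phase of one point -/
lemma ph_exp {k : ℕ} (I : ℕ) (a : Fin k → ℤ) (t : Fin k → ℝ) {B r m : ℕ} {T : ℝ}
    (hB : ∀ j, (a j).natAbs ≤ B) (hr : 1 ≤ r) (hm : 2 * B ≤ m) (hm0 : 1 ≤ m) (hT : ∀ j, |t j| ≤ T) :
    |ph a t (r * m) - ((∑ j, t j) * (Real.log r + Real.log m) +
      ∑ i ∈ Icc 1 I, (-1) ^ (i + 1) / (i : ℝ) * mom a t i * (1 / (r : ℝ)) ^ i * (1 / (m : ℝ)) ^ i)| ≤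
      k * T * (2 * ((B : ℝ) / m) ^ (I + 1)) := by
  have h1 : (∑ j, t j) * (Real.log r + Real.log m) +
      ∑ i ∈ Icc 1 I, (-1) ^ (i + 1) / (i : ℝ) * mom a t i * (1 / (r : ℝ)) ^ i * (1 / (m : ℝ)) ^ i =
      ∑ j, t j * (Real.log r + Real.log m +
        ∑ i ∈ Icc 1 I, (-1) ^ (i + 1) * ((a j : ℝ) / (r * m)) ^ i / i) := by
    have h2 : ∀ j, t j * (Real.log r + Real.log m +
        ∑ i ∈ Icc 1 I, (-1) ^ (i + 1) * ((a j : ℝ) / (r * m)) ^ i / i) =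
        t j * (Real.log r + Real.log m) + ∑ i ∈ Icc 1 I, (-1) ^ (i + 1) / (i : ℝ) * (t j * (a j : ℝ) ^ i)
          * (1 / (r : ℝ)) ^ i * (1 / (m : ℝ)) ^ i := by
      intro j
      rw [mul_add, mul_sum]
      congr 1
      apply sum_congr rfl
      intro i _
      rw [div_pow, mul_pow, one_div_pow, one_div_pow]
      ring
    simp only [h2]
    rw [sum_add_distrib, ← sum_mul, sum_comm]
    congr 1
    apply sum_congr rfl
    intro i _
    unfold mom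
    rw [mul_sum, sum_mul, sum_mul]
  rw [h1]
  unfold ph
  rw [← sum_sub_distrib]
  refine (abs_sum_le_sum_abs _ _).trans ?_
  have h2 : ∀ j ∈ (univ : Finset (Fin k)), |t j * Real.log (lf 1 (a j) (r * m)) - t j * (Real.log r + Real.log m +
        ∑ i ∈ Icc 1 I, (-1) ^ (i + 1) * ((a j : ℝ) / (r * m)) ^ i / i)| ≤
      T * (2 * ((B : ℝ) / m) ^ (I + 1)) := by
    intro j _
    rw [← mul_sub, abs_mul]
    exact mul_le_mul (hT j) (log_lf I hr hm hm0 (hB j)) (abs_nonneg _)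
      ((abs_nonneg _).trans (hT j))
  refine (sum_le_card_nsmul _ _ _ h2).trans (le_of_eq ?_)
  rw [card_univ, Fintype.card_fin, nsmul_eq_mul]
  ring

/-- the phase of a pair -/
lemma pair_phase {k : ℕ} (I : ℕ) (a : Fin k → ℤ) (t : Fin k → ℝ) {B p q m X : ℕ} {T : ℝ}
    (hB : ∀ j, (a j).natAbs ≤ B) (hp : 1 ≤ p) (hq : 1 ≤ q) (hm : 2 * B ≤ m) (hm0 : 1 ≤ m)
    (hX : 1 ≤ X) (hT : ∀ j, |t j| ≤ T) :
    |(ph a t (p * m) - ph a t (q * m)) - ((∑ j, t j) * (Real.log p - Real.log q) +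
      psi (bb a t p q X) I 0 (m / X))| ≤ k * T * (4 * ((B : ℝ) / m) ^ (I + 1)) := by
  have h1 := ph_exp I a t hB hp hm hm0 hT
  have h2 := ph_exp I a t hB hq hm hm0 hT
  have hmr : (m : ℝ) ≠ 0 := by exact_mod_cast (by omega : m ≠ 0)
  have hXr : (X : ℝ) ≠ 0 := by exact_mod_cast (by omega : X ≠ 0)
  have h3 : psi (bb a t p q X) I 0 (m / X) =
      ∑ i ∈ Icc 1 I, (-1) ^ (i + 1) / (i : ℝ) * mom a t i * (1 / (p : ℝ)) ^ i * (1 / (m : ℝ)) ^ i -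
      ∑ i ∈ Icc 1 I, (-1) ^ (i + 1) / (i : ℝ) * mom a t i * (1 / (q : ℝ)) ^ i * (1 / (m : ℝ)) ^ i := by
    unfold psi bb
    rw [pow_zero, one_mul, ← sum_sub_distrib]
    apply sum_congr rfl
    intro i _
    rw [Nat.ascFactorial_zero, add_zero, inv_div]
    have h4 : (1 / (X : ℝ)) ^ i * ((X : ℝ) / m) ^ i = (1 / (m : ℝ)) ^ i := by
      rw [← mul_pow]
      congr 1
      field_simp
    calc _ = (-1) ^ (i + 1) / (i : ℝ) * mom a t i * ((1 / (p : ℝ)) ^ i - (1 / (q : ℝ)) ^ i) *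
          ((1 / (X : ℝ)) ^ i * ((X : ℝ) / m) ^ i) := by push_cast; ring
      _ = _ := by rw [h4]; ring
  rw [h3]
  obtain ⟨a1, a2⟩ := abs_le.1 h1
  obtain ⟨b1, b2⟩ := abs_le.1 h2
  rw [abs_le]
  constructor <;> linarith

/-- the coefficients are not too large -/
lemma bb_le {k : ℕ} (a : Fin k → ℤ) (t : Fin k → ℝ) {B p q X i : ℕ} {T : ℝ} (hi : 1 ≤ i)
    (hB : ∀ j, (a j).natAbs ≤ B) (hp : 1 ≤ p) (hq : 1 ≤ q) (hX : 1 ≤ X) (hBX : B ≤ X)
    (hT0 : 0 ≤ T) (hT : ∀ j, |t j| ≤ T) : |bb a t p q X i| ≤ 2 * k * T := by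
  have hpr : (1 : ℝ) ≤ p := by exact_mod_cast hp
  have hqr : (1 : ℝ) ≤ q := by exact_mod_cast hq
  have hXr : (1 : ℝ) ≤ X := by exact_mod_cast hX
  have hir : (1 : ℝ) ≤ i := by exact_mod_cast hi
  have hBXr : (B : ℝ) ≤ X := by exact_mod_cast hBX
  unfold bb
  rw [abs_mul, abs_mul, abs_mul, abs_div, abs_pow, abs_neg, abs_one, one_pow,
    abs_of_pos (by linarith : (0 : ℝ) < i), abs_of_pos (by positivity : (0 : ℝ) < (1 / (X : ℝ)) ^ i)]
  have h1 : |mom a t i| ≤ k * T * (B : ℝ) ^ i := by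
    unfold mom
    refine (abs_sum_le_sum_abs _ _).trans ?_
    have h2 : ∀ j ∈ (univ : Finset (Fin k)), |t j * (a j : ℝ) ^ i| ≤ T * (B : ℝ) ^ i := by
      intro j _
      rw [abs_mul, abs_pow]
      have haB : |(a j : ℝ)| ≤ B := by
        rw [← Int.cast_abs, Int.abs_eq_natAbs]
        exact_mod_cast hB j
      exact mul_le_mul (hT j) (pow_le_pow_left₀ (abs_nonneg _) haB i) (by positivity) hT0
    refine (sum_le_card_nsmul _ _ _ h2).trans (le_of_eq ?_)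
    rw [card_univ, Fintype.card_fin, nsmul_eq_mul]
    ring
  have h2 : |(1 / (p : ℝ)) ^ i - (1 / (q : ℝ)) ^ i| ≤ 2 := by
    have h3 : (1 / (p : ℝ)) ^ i ≤ 1 := pow_le_one₀ (by positivity) (by
      rw [div_le_one (by linarith)]; exact hpr)
    have h4 : (1 / (q : ℝ)) ^ i ≤ 1 := pow_le_one₀ (by positivity) (by
      rw [div_le_one (by linarith)]; exact hqr)
    have h5 : (0 : ℝ) ≤ (1 / (p : ℝ)) ^ i := by positivity
    have h6 : (0 : ℝ) ≤ (1 / (q : ℝ)) ^ i := by positivity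
    rw [abs_le]
    constructor <;> linarith
  have h3 : 1 / (i : ℝ) ≤ 1 := by
    rw [div_le_one (by linarith)]
    exact hir
  have h4 : (B : ℝ) ^ i * (1 / (X : ℝ)) ^ i ≤ 1 := by
    rw [← mul_pow]
    apply pow_le_one₀ (by positivity)
    rw [mul_one_div, div_le_one (by linarith)]
    exact hBXr
  have hk0 : (0 : ℝ) ≤ k := Nat.cast_nonneg _
  calc 1 / (i : ℝ) * |mom a t i| * |(1 / (p : ℝ)) ^ i - (1 / (q : ℝ)) ^ i| * (1 / (X : ℝ)) ^ i
      ≤ 1 * (k * T * (B : ℝ) ^ i) * 2 * (1 / (X : ℝ)) ^ i := by gcongr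
    _ = 2 * k * T * ((B : ℝ) ^ i * (1 / (X : ℝ)) ^ i) := by ring
    _ ≤ 2 * k * T * 1 := by gcongr
    _ = _ := mul_one _

/-- the coefficients are large when the moments are -/
lemma bb_ge {k : ℕ} (a : Fin k → ℤ) (t : Fin k → ℝ) {I S p q X i : ℕ} {K : ℝ} (hi : i ∈ Icc 1 I)
    (hp : 1 ≤ p) (hq : 1 ≤ q) (hpq : p ≠ q) (hpS : p ≤ S) (hqS : q ≤ S) (hX : 1 ≤ X)
    (hK0 : 0 ≤ K) (hK : K * (X : ℝ) ^ i ≤ |mom a t i|) :
    K / (I * (S : ℝ) ^ (2 * I)) ≤ |bb a t p q X i| := by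
  rw [mem_Icc] at hi
  have hpr : (1 : ℝ) ≤ p := by exact_mod_cast hp
  have hqr : (1 : ℝ) ≤ q := by exact_mod_cast hq
  have hXr : (1 : ℝ) ≤ X := by exact_mod_cast hX
  have hir : (1 : ℝ) ≤ i := by exact_mod_cast hi.1
  have hiI : (i : ℝ) ≤ I := by exact_mod_cast hi.2
  have hpSr : (p : ℝ) ≤ S := by exact_mod_cast hpS
  have hqSr : (q : ℝ) ≤ S := by exact_mod_cast hqS
  have hSr : (1 : ℝ) ≤ S := by linarith
  unfold bb
  rw [abs_mul, abs_mul, abs_mul, abs_div, abs_pow, abs_neg, abs_one, one_pow,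
    abs_of_pos (by linarith : (0 : ℝ) < i), abs_of_pos (by positivity : (0 : ℝ) < (1 / (X : ℝ)) ^ i)]
  have h1 : 1 / (S : ℝ) ^ (2 * I) ≤ |(1 / (p : ℝ)) ^ i - (1 / (q : ℝ)) ^ i| := by
    have h2 : (1 / (p : ℝ)) ^ i - (1 / (q : ℝ)) ^ i = ((q : ℝ) ^ i - (p : ℝ) ^ i) / ((p : ℝ) ^ i * (q : ℝ) ^ i) := by
      rw [one_div_pow, one_div_pow]
      field_simp
    have h3 : (1 : ℝ) ≤ |(q : ℝ) ^ i - (p : ℝ) ^ i| := by
      have h4 : ((q : ℤ) ^ i - (p : ℤ) ^ i) ≠ 0 := by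
        intro h
        have h5 : q ^ i = p ^ i := by
          have : (q : ℤ) ^ i = (p : ℤ) ^ i := by linarith
          exact_mod_cast this
        exact hpq (Nat.pow_left_injective (by omega : i ≠ 0) h5).symm
      have h5 := Int.one_le_abs h4
      have h6 : ((1 : ℤ) : ℝ) ≤ ((|(q : ℤ) ^ i - (p : ℤ) ^ i| : ℤ) : ℝ) := by exact_mod_cast h5
      push_cast at h6
      exact h6
    rw [h2, abs_div, abs_of_pos (by positivity : (0 : ℝ) < (p : ℝ) ^ i * (q : ℝ) ^ i)]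
    apply div_le_div₀ (abs_nonneg _) h3 (by positivity)
    calc (p : ℝ) ^ i * (q : ℝ) ^ i ≤ (S : ℝ) ^ i * (S : ℝ) ^ i := by gcongr
      _ = (S : ℝ) ^ (2 * i) := by rw [← pow_add]; congr 1; ring
      _ ≤ (S : ℝ) ^ (2 * I) := pow_le_pow_right₀ hSr (by omega)
  have h2 : 1 / (I : ℝ) ≤ 1 / i := by
    apply one_div_le_one_div_of_le (by linarith) hiI
  have h3 : K ≤ |mom a t i| * (1 / (X : ℝ)) ^ i := by
    rw [one_div_pow, mul_one_div, le_div_iff₀ (by positivity)]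
    exact hK
  calc K / (I * (S : ℝ) ^ (2 * I)) = 1 / (I : ℝ) * (1 / (S : ℝ) ^ (2 * I)) * K := by
        have : (I : ℝ) ≠ 0 := by linarith
        field_simp
    _ ≤ 1 / (i : ℝ) * |(1 / (p : ℝ)) ^ i - (1 / (q : ℝ)) ^ i| *
        (|mom a t i| * (1 / (X : ℝ)) ^ i) := by gcongr
    _ = _ := by ring

end Pool.Agent.V5helper42.EP
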