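import Pool.Agent.V5helper42.EP.ExpB
import Pool.Agent.W690.TL.Uell

/-!
# Phases of products of `(n + a j) ^ {i t j}`
-/

set_option autoImplicit false

namespace Pool.Agent.V5helper42.EP

open Finset
open Pool.Agent.H469R2.NK (e norm_e)
open Pool.Agent.W208.TL (nit lf)

/-- periodicity -/
lemma per_add {D : ℕ} {ρ : ℕ → ℂ} (h : ∀ n, ρ (n + D) = ρ n) (n j : ℕ) : ρ (n + D * j) = ρ n := by
  induction j with
  | zero => simp
  | succ j ih => rw [Nat.mul_succ, ← add_assoc, h, ih]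

/-- sums with a periodic factor -/
theorem phase_sum (I E D : ℕ) (hD : 1 ≤ D) (δ ε : ℝ) (hδ : 0 < δ) (hδ1 : δ ≤ 1) (hε : 0 < ε) :
    ∃ K : ℝ, 0 < K ∧ ∃ X₀ : ℕ, ∀ X : ℕ, X₀ ≤ X → ∀ a : ℕ → ℝ,
      (∀ i ∈ Icc 1 I, |a i| ≤ (X : ℝ) ^ E) → (∃ i ∈ Icc 1 I, K ≤ |a i|) →
      ∀ ρ : ℕ → ℂ, (∀ n, ‖ρ n‖ ≤ 1) → (∀ n, ρ (n + D) = ρ n) →
      ∀ M₁ M₂ : ℕ, M₁ ≤ M₂ → δ * X ≤ M₁ → M₂ + D ≤ X →
      ‖∑ m ∈ Ioc M₁ M₂, ρ m * Complex.exp (Complex.I * (psi a I 0 (m / X) : ℝ))‖ ≤ ε * X := by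
  have hDr : (1 : ℝ) ≤ D := by exact_mod_cast hD
  obtain ⟨K, hK, X₁, h⟩ := exp_sum I E D hD δ (ε / (2 * D)) hδ hδ1 (by positivity)
  obtain ⟨X₂, hX₂⟩ := exists_nat_ge (2 * D / ε)
  refine ⟨K, hK, X₁ + X₂, ?_⟩
  intro X hX a ha hbig ρ hρ hper M₁ M₂ hM hM1 hM2
  have hXr : 2 * D / ε ≤ X := hX₂.trans (by exact_mod_cast (by omega : X₂ ≤ X))
  rw [div_le_iff₀ hε] at hXr
  obtain ⟨L, hL⟩ : ∃ L, L = (M₂ - M₁) / D := ⟨_, rfl⟩
  obtain ⟨s, hs⟩ : ∃ s, s = (M₂ - M₁) % D := ⟨_, rfl⟩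
  have hLs : M₂ - M₁ = L * D + s := by
    rw [hL, hs]
    exact (Nat.div_add_mod' _ _).symm
  have hsD : s < D := by rw [hs]; exact Nat.mod_lt _ (by omega)
  obtain ⟨F, hF⟩ : ∃ F : ℕ → ℂ, F = fun m => ρ m * Complex.exp (Complex.I * (psi a I 0 (m / X) : ℝ)) :=
    ⟨_, rfl⟩
  have hF1 : ∀ m, ‖F m‖ ≤ 1 := by
    intro m
    rw [hF]
    simp only
    rw [norm_mul, mul_comm Complex.I, Complex.norm_exp_ofReal_mul_I, mul_one]
    exact hρ m
  have h1 : ∑ m ∈ Ioc M₁ M₂, F m = ∑ n ∈ range (M₂ - M₁), F (M₁ + 1 + n) := by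
    rw [show Ioc M₁ M₂ = Ico (M₁ + 1) (M₂ + 1) by
      ext m
      simp only [mem_Ioc, mem_Ico]
      omega]
    rw [sum_Ico_eq_sum_range]
    rw [show M₂ + 1 - (M₁ + 1) = M₂ - M₁ by omega]
  have h2 : ∑ n ∈ range (L * D), F (M₁ + 1 + n) =
      ∑ r ∈ range D, ∑ n ∈ range L, F (M₁ + 1 + r + D * n) := by
    rw [blocks_sum (fun n => F (M₁ + 1 + n)) D (L * D) L le_rfl, sum_comm' (t' := range D)
      (s' := fun _ => range L)]
    · apply sum_congr rfl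
      intro r _
      apply sum_congr rfl
      intro n _
      congr 1
      ring
    · intro j n
      simp only [mem_range]
      constructor
      · rintro ⟨h3, h4⟩
        exact ⟨h3, by omega⟩
      · rintro ⟨h3, h4⟩
        refine ⟨h3, ?_⟩
        have : L * D - j * D = (L - j) * D := (Nat.sub_mul L j D).symm
        rw [this]
        have h5 : D ≤ (L - j) * D := Nat.le_mul_of_pos_left D (by omega)
        omega
  have h3 : ∀ r ∈ range D, ‖∑ n ∈ range L, F (M₁ + 1 + r + D * n)‖ ≤ ε / (2 * D) * X := by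
    intro r hr
    rw [mem_range] at hr
    have h4 := h X (by omega) a ha hbig (M₁ + 1 + r) 0 L (by push_cast; linarith) (by
      have h5 : M₁ + 1 + r + D * L ≤ X := by
        have : D * L = L * D := mul_comm _ _
        omega
      have h6 : ((M₁ + 1 + r + D * L : ℕ) : ℝ) ≤ X := by exact_mod_cast h5
      push_cast at h6 ⊢
      linarith)
    have h5 : ∑ n ∈ range L, F (M₁ + 1 + r + D * n) = ρ (M₁ + 1 + r) * ∑ n ∈ range L,
        e (psi a I 0 ((((M₁ + 1 + r : ℕ) : ℝ) + D * (((0 : ℕ) : ℝ) + n)) / X) / (2 * Real.pi)) := by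
      rw [mul_sum]
      apply sum_congr rfl
      intro n _
      rw [hF]
      simp only
      rw [per_add hper]
      congr 1
      unfold Pool.Agent.H469R2.NK.e
      rw [mul_comm Complex.I]
      congr 2
      have hpi : (2 : ℝ) * Real.pi ≠ 0 := by positivity
      rw [mul_div_cancel₀ _ hpi]
      congr 3
      push_cast
      ring
    rw [h5, norm_mul]
    calc _ ≤ 1 * (ε / (2 * D) * X) := mul_le_mul (hρ _) h4 (norm_nonneg _) zero_le_one
      _ = _ := one_mul _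
  have h4 : ∑ m ∈ Ioc M₁ M₂, F m = (∑ r ∈ range D, ∑ n ∈ range L, F (M₁ + 1 + r + D * n)) +
      ∑ n ∈ range s, F (M₁ + 1 + (L * D + n)) := by
    rw [h1, hLs, sum_range_add, h2]
  have h5 : ‖∑ n ∈ range s, F (M₁ + 1 + (L * D + n))‖ ≤ D := by
    refine (norm_sum_le _ _).trans ((sum_le_sum fun n _ => hF1 _).trans ?_)
    rw [sum_const, card_range, nsmul_eq_mul, mul_one]
    exact_mod_cast hsD.le
  have h6 : ‖∑ r ∈ range D, ∑ n ∈ range L, F (M₁ + 1 + r + D * n)‖ ≤ ε / 2 * X := by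
    refine (norm_sum_le _ _).trans ((sum_le_card_nsmul _ _ _ h3).trans (le_of_eq ?_))
    rw [card_range, nsmul_eq_mul]
    field_simp
  have h7 : ∑ m ∈ Ioc M₁ M₂, ρ m * Complex.exp (Complex.I * (psi a I 0 (m / X) : ℝ)) =
      ∑ m ∈ Ioc M₁ M₂, F m := by rw [hF]
  rw [h7, h4]
  refine (norm_add_le _ _).trans ?_
  linarith

/-- expansion of the logarithm -/
lemma log_exp (I : ℕ) {z : ℝ} (hz : |z| ≤ 1 / 2) :
    |Real.log (1 + z) - ∑ i ∈ Icc 1 I, (-1) ^ (i + 1) * z ^ i / i| ≤ 2 * |z| ^ (I + 1) := by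
  have h1 := Real.abs_log_sub_add_sum_range_le (x := -z) (by rw [abs_neg]; linarith) I
  rw [abs_neg] at h1
  have h2 : ∑ i ∈ range I, (-z) ^ (i + 1) / ((i : ℝ) + 1) =
      -∑ i ∈ Icc 1 I, (-1) ^ (i + 1) * z ^ i / i := by
    rw [Finset.range_eq_Ico, ← sum_neg_distrib]
    have h3 := Finset.sum_Ico_add' (fun i : ℕ => -((-1 : ℝ) ^ (i + 1) * z ^ i / i)) 0 I 1
    rw [show Icc 1 I = Ico (0 + 1) (I + 1) by
      ext i
      simp only [mem_Icc, mem_Ico]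
      omega, ← h3]
    apply sum_congr rfl
    intro i _
    rw [neg_pow z]
    push_cast
    ring
  rw [h2, sub_neg_eq_add] at h1
  have h3 : |z| ^ (I + 1) / (1 - |z|) ≤ 2 * |z| ^ (I + 1) := by
    rw [div_le_iff₀ (by linarith)]
    have : 0 ≤ |z| ^ (I + 1) := by positivity
    nlinarith
  calc _ = |(-∑ i ∈ Icc 1 I, (-1) ^ (i + 1) * z ^ i / i) + Real.log (1 + z)| := by
        congr 1
        ring
    _ ≤ _ := h1.trans h3

/-- expansion of `log |r m + a|` -/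
lemma log_lf (I : ℕ) {r m B : ℕ} {a : ℤ} (hr : 1 ≤ r) (hm : 2 * B ≤ m) (hm0 : 1 ≤ m)
    (ha : a.natAbs ≤ B) :
    |Real.log (lf 1 a (r * m)) - (Real.log r + Real.log m +
      ∑ i ∈ Icc 1 I, (-1) ^ (i + 1) * ((a : ℝ) / (r * m)) ^ i / i)| ≤ 2 * ((B : ℝ) / m) ^ (I + 1) := by
  have hrr : (1 : ℝ) ≤ r := by exact_mod_cast hr
  have hmr : (1 : ℝ) ≤ m := by exact_mod_cast hm0
  have hmB : 2 * (B : ℝ) ≤ m := by exact_mod_cast hm
  have haB : |(a : ℝ)| ≤ B := by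
    rw [← Int.cast_abs, Int.abs_eq_natAbs]
    exact_mod_cast ha
  have hz : |(a : ℝ) / (r * m)| ≤ B / m := by
    rw [abs_div, abs_of_pos (by positivity : (0 : ℝ) < r * m)]
    apply div_le_div₀ (Nat.cast_nonneg _) haB (by linarith)
    nlinarith
  have hBm : (B : ℝ) / m ≤ 1 / 2 := by
    rw [div_le_div_iff₀ (by linarith) (by norm_num)]
    linarith
  have h1 := log_exp I (hz.trans hBm)
  have hpos : 0 < 1 + (a : ℝ) / (r * m) := by
    have := (abs_le.1 (hz.trans hBm)).1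
    linarith
  have h2 : Real.log (lf 1 a (r * m)) = Real.log r + Real.log m + Real.log (1 + (a : ℝ) / (r * m)) := by
    have h3 : ((lf 1 a (r * m) : ℕ) : ℝ) = r * m * (1 + (a : ℝ) / (r * m)) := by
      have h4 : (r : ℝ) * m * (1 + (a : ℝ) / (r * m)) = r * m + a := by
        field_simp
      have h5 : (0 : ℝ) ≤ r * m + a := by
        rw [← h4]
        positivity
      rw [h4]
      unfold lf
      rw [Nat.cast_natAbs]
      push_cast
      rw [one_mul, abs_of_nonneg h5]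
    rw [h3, Real.log_mul (by positivity) hpos.ne', Real.log_mul (by positivity) (by positivity)]
  rw [h2]
  calc _ = |Real.log (1 + (a : ℝ) / (r * m)) - ∑ i ∈ Icc 1 I, (-1) ^ (i + 1) * ((a : ℝ) / (r * m)) ^ i / i| := by
        congr 1
        ring
    _ ≤ 2 * |(a : ℝ) / (r * m)| ^ (I + 1) := h1
    _ ≤ 2 * ((B : ℝ) / m) ^ (I + 1) := by gcongr

lemma exp_diff (x y : ℝ) : ‖Complex.exp (Complex.I * (x : ℝ)) - Complex.exp (Complex.I * (y : ℝ))‖ ≤
    |x - y| := by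
  have h1 : Complex.exp (Complex.I * (x : ℝ)) - Complex.exp (Complex.I * (y : ℝ)) =
      Complex.exp (Complex.I * (y : ℝ)) * (Complex.exp (Complex.I * ((x - y : ℝ) : ℂ)) - 1) := by
    rw [mul_sub, mul_one, ← Complex.exp_add]
    congr 2
    push_cast
    ring
  rw [h1, norm_mul, mul_comm Complex.I (y : ℂ), Complex.norm_exp_ofReal_mul_I, one_mul]
  exact Real.norm_exp_I_mul_ofReal_sub_one_le

end Pool.Agent.V5helper42.EP
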